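import Pool.Agent.U349.OT.Side

/-!
# Arcs
-/

set_option autoImplicit false

namespace Pool.Agent.U349.OT

open Filter Topology MeasureTheory
open scoped ENNReal
open Pool.Agent.U106.TR
open Pool.Agent.U106.FC (mul cont_mul co co_map co_vol Exceptional exceptional_map exists_exceptional_lift)

/-- the sawtooth function -/
noncomputable def saw (y : UnitAddCircle) : ℝ := rep y - 1 / 2

lemma rep_nonneg (y : UnitAddCircle) : 0 ≤ rep y := (AddCircle.equivIco (1 : ℝ) 0 y).2.1

lemma rep_lt (y : UnitAddCircle) : rep y < 1 := by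
  have := (AddCircle.equivIco (1 : ℝ) 0 y).2.2
  unfold rep
  linarith

lemma meas_saw : Measurable saw := measurable_rep.sub_const _

lemma abs_saw (y : UnitAddCircle) : ‖saw y‖ ≤ 1 / 2 := by
  unfold saw
  rw [Real.norm_eq_abs, abs_le]
  have h1 := rep_nonneg y
  have h2 := rep_lt y
  constructor <;> linarith

lemma int_saw (μ : Measure UnitAddCircle) [IsFiniteMeasure μ] {T : UnitAddCircle → UnitAddCircle}
    (hT : Measurable T) : Integrable (fun x => saw (T x)) μ :=
  Integrable.of_bound (meas_saw.comp hT).aestronglyMeasurable (1 / 2) (Eventually.of_forall fun _ => abs_saw _)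

lemma sum_shift (g : ℕ → ℝ) (N : ℕ) (hg : ∀ i, g (i + N) = g i) (k : ℕ) :
    ∑ j ∈ Finset.range N, g (k + j) = ∑ j ∈ Finset.range N, g j := by
  induction k with
  | zero => simp
  | succ k ih =>
    rw [← ih]
    have h1 := Finset.sum_range_succ (fun j => g (k + j)) N
    have h2 := Finset.sum_range_succ' (fun j => g (k + j)) N
    rw [h1, hg, add_zero] at h2
    have h3 : ∑ j ∈ Finset.range N, g (k + 1 + j) = ∑ j ∈ Finset.range N, g (k + (j + 1)) :=
      Finset.sum_congr rfl fun j _ => by rw [add_assoc, add_comm 1 j]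
    rw [h3]
    linarith

/-- the distribution relation -/
lemma sum_saw {N : ℕ} (hN : 1 ≤ N) (y : UnitAddCircle) :
    ∑ j ∈ Finset.range N, saw (y + pt N j) = saw (N • y) := by
  have hN0 : (0 : ℝ) < N := by exact_mod_cast hN
  set t := rep y with ht
  have ht0 : 0 ≤ t := rep_nonneg y
  have ht1 : t < 1 := rep_lt y
  have hy : y = (t : UnitAddCircle) := (coe_rep y).symm
  set k : ℕ := ⌊N * t⌋₊ with hk
  have hk1 : (k : ℝ) ≤ N * t := Nat.floor_le (by positivity)
  have hk2 : N * t < k + 1 := Nat.lt_floor_add_one _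
  set s : ℝ := t - k / N with hs
  have hs0 : 0 ≤ N * s := by
    have : N * s = N * t - k := by rw [hs]; field_simp
    rw [this]; linarith
  have hs1 : N * s < 1 := by
    have : N * s = N * t - k := by rw [hs]; field_simp
    rw [this]; linarith
  set g : ℕ → ℝ := fun i => Int.fract (s + i / N) with hg
  have h1 : ∀ j : ℕ, saw (y + pt N j) = g (k + j) - 1 / 2 := by
    intro j
    unfold saw pt
    rw [hy, ← AddCircle.coe_add, rep_coe, hg]
    congr 2
    rw [hs]
    push_cast
    field_simp
    ring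
  have h2 : ∀ i, g (i + N) = g i := by
    intro i
    simp only [hg]
    have : s + ((i + N : ℕ) : ℝ) / N = s + i / N + 1 := by
      push_cast
      field_simp
      ring
    rw [this, Int.fract_add_one]
  have h3 : ∀ i ∈ Finset.range N, g i = s + i / N := by
    intro i hi
    rw [Finset.mem_range] at hi
    simp only [hg]
    rw [Int.fract_eq_self]
    have hi' : (i : ℝ) + 1 ≤ N := by exact_mod_cast hi
    constructor
    · have : 0 ≤ s := by
        by_contra h
        push Not at h
        nlinarith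
      positivity
    · have : s + i / N = (N * s + i) / N := by field_simp
      rw [this, div_lt_one hN0]
      linarith
  simp_rw [h1]
  rw [Finset.sum_sub_distrib, sum_shift g N h2 k, Finset.sum_congr rfl h3, Finset.sum_add_distrib, Finset.sum_const,
    Finset.sum_const, Finset.card_range, nsmul_eq_mul, nsmul_eq_mul, ← Finset.sum_div]
  have h4 : (∑ i ∈ Finset.range N, (i : ℝ)) = N * (N - 1) / 2 := by
    have h5 := Finset.sum_range_id_mul_two N
    have h6 : ((∑ i ∈ Finset.range N, i : ℕ) : ℝ) * 2 = N * ((N - 1 : ℕ) : ℝ) := by exact_mod_cast h5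
    rw [Nat.cast_sub hN] at h6
    push_cast at h6
    linarith
  rw [h4]
  unfold saw
  rw [rep_nsmul, ← ht]
  have h5 : Int.fract ((N : ℝ) * t) = N * s := by
    have h6 : (N : ℝ) * t = N * s + k := by rw [hs]; field_simp; ring
    rw [h6, Int.fract_add_natCast, Int.fract_eq_self]
    exact ⟨hs0, hs1⟩
  rw [h5]
  field_simp
  ring

/-- the integral of the translated sawtooth function -/
noncomputable def JJ (a : UnitAddCircle) (μ : Measure UnitAddCircle) : ℝ := ∫ x, saw (x - a) ∂μ

noncomputable def DD (a b : UnitAddCircle) (μ : Measure UnitAddCircle) : ℝ := JJ b μ - JJ a μ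

lemma meas_sub (a : UnitAddCircle) : Measurable fun x : UnitAddCircle => x - a := by fun_prop

lemma JJ_tw {N : ℕ} (hN : 2 ≤ N) (μ : Measure UnitAddCircle) [IsProbabilityMeasure μ] (a : UnitAddCircle) :
    JJ a (tw N μ) = ((N - 1 : ℕ) : ℝ)⁻¹ * (JJ (N • a) (μ.map (mul N)) - JJ a μ) := by
  unfold JJ
  rw [integral_tw (fun x => saw (x - a)) (fun j _ => int_saw μ ((meas_sub a).comp (meas_add _))), smul_eq_mul]
  congr 1
  have e : ∫ x, saw (x - N • a) ∂(μ.map (mul N)) = ∫ x, saw (mul N x - N • a) ∂μ :=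
    integral_map (f := fun x => saw (x - N • a)) (cont_mul N).measurable.aemeasurable
      (meas_saw.comp (meas_sub _)).aestronglyMeasurable
  rw [e]
  have h1 : ∀ x : UnitAddCircle, saw (mul N x - N • a) = ∑ j ∈ Finset.range N, saw (x + pt N j - a) := by
    intro x
    have h2 := sum_saw (by omega : 1 ≤ N) (x - a)
    rw [smul_sub] at h2
    rw [show mul N x - N • a = N • x - N • a from rfl, ← h2]
    exact Finset.sum_congr rfl fun j _ => by rw [sub_add_eq_add_sub]
  simp_rw [h1]
  have e2 : ∫ x, ∑ j ∈ Finset.range N, saw (x + pt N j - a) ∂μ =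
      ∑ j ∈ Finset.range N, ∫ x, saw (x + pt N j - a) ∂μ :=
    integral_finsetSum (f := fun j x => saw (x + pt N j - a)) _
      fun j _ => int_saw μ ((meas_sub a).comp (meas_add (pt N j)))
  have e3 : ∑ j ∈ Finset.range N, ∫ x, saw (x + pt N j - a) ∂μ =
      ∫ x, saw (x + pt N 0 - a) ∂μ + ∑ j ∈ Finset.Ico 1 N, ∫ x, saw (x + pt N j - a) ∂μ := by
    rw [Finset.range_eq_Ico, Finset.sum_eq_sum_Ico_succ_bot (by omega)]
  rw [e2, e3, pt_zero]
  simp only [add_zero]
  ring

lemma DD_tw {N : ℕ} (hN : 2 ≤ N) (μ : Measure UnitAddCircle) [IsProbabilityMeasure μ] (a b : UnitAddCircle) :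
    DD a b (tw N μ) = ((N - 1 : ℕ) : ℝ)⁻¹ * (DD (N • a) (N • b) (μ.map (mul N)) - DD a b μ) := by
  unfold DD
  rw [JJ_tw hN, JJ_tw hN]
  ring

lemma JJ_vol (a b : UnitAddCircle) : DD a b volume = 0 := by
  unfold DD JJ
  have h : ∀ a : UnitAddCircle, ∫ x : UnitAddCircle, saw (x - a) = ∫ x : UnitAddCircle, saw x := fun a =>
    integral_sub_right_eq_self (μ := (volume : Measure UnitAddCircle)) saw a
  rw [h, h, sub_self]

lemma DD_eq (a b : UnitAddCircle) (μ : Measure UnitAddCircle) [IsProbabilityMeasure μ] :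
    DD a b μ = ∫ x, (saw (x - b) - saw (x - a)) ∂μ := by
  unfold DD JJ
  rw [integral_sub (int_saw μ (meas_sub b)) (int_saw μ (meas_sub a))]

lemma prob_vol : IsProbabilityMeasure (volume : Measure UnitAddCircle) := ⟨UnitAddCircle.measure_univ⟩

/-- from the exceptional measures to all atomless ones -/
lemma DD_all {a b : UnitAddCircle} (h : ∀ κ : Measure UnitAddCircle, Exceptional 2 3 κ → 0 ≤ DD a b κ)
    {μ : Measure UnitAddCircle} [IsProbabilityMeasure μ] (hat : ∀ x, μ {x} = 0) (hi : Inv μ) : 0 ≤ DD a b μ := by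
  have := prob_vol
  by_contra hlt
  push Not at hlt
  rw [DD_eq] at hlt
  have hv := JJ_vol a b
  rw [DD_eq] at hv
  rw [← hv] at hlt
  obtain ⟨κ, hκ, h2⟩ := exists_comp (p := 2) (q := 3) le_rfl hat hi.1 hi.2
    ((int_saw μ (meas_sub b)).sub (int_saw μ (meas_sub a))) hlt
  have hpκ := hκ.1
  have h3 := h κ hκ
  rw [DD_eq, ← hv] at h3
  exact absurd h3 (not_le.2 h2)

/-- multiples of the end points -/
lemma DD_mul {a b : UnitAddCircle} (h : ∀ κ : Measure UnitAddCircle, Exceptional 2 3 κ → 0 ≤ DD a b κ)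
    {N : ℕ} (hN : 2 ≤ N) (h2 : Nat.Coprime 2 N) (h3 : Nat.Coprime 3 N) :
    ∀ κ : Measure UnitAddCircle, Exceptional 2 3 κ → 0 ≤ DD (N • a) (N • b) κ := by
  intro μ hμ
  obtain ⟨ν, hν, rfl⟩ := exists_exceptional_lift (by omega : 1 ≤ N) hμ
  have hprob := hν.1
  have hp2 := prob_tw (μ := ν) hN
  have h4 := DD_all h (μ := tw N ν) (atomless_tw hν.2.1) ⟨inv_tw hN h2 hν.2.2.1, inv_tw hN h3 hν.2.2.2.1⟩
  rw [DD_tw hN] at h4
  have hpos : (0 : ℝ) < ((N - 1 : ℕ) : ℝ)⁻¹ := by
    apply inv_pos.2
    exact_mod_cast (by omega : 0 < N - 1)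
  have h5 := h ν hν
  have h6 : 0 ≤ DD (N • a) (N • b) (ν.map (mul N)) - DD a b ν := by
    by_contra hc
    push Not at hc
    nlinarith
  linarith

lemma exceptional_neg {μ : Measure UnitAddCircle} (h : Exceptional 2 3 μ) :
    Exceptional 2 3 (μ.map fun x => -x) := by
  obtain ⟨h1, h2, h3, h4, h5, h6⟩ := h
  have hm : Measurable fun x : UnitAddCircle => -x := measurable_neg
  have hmp : ∀ m : ℕ, MeasurePreserving (fun x : UnitAddCircle => m • x) μ μ →
      MeasurePreserving (fun x : UnitAddCircle => m • x) (μ.map fun x => -x) (μ.map fun x => -x) := by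
    intro m h
    refine ⟨(cont_mul m).measurable, ?_⟩
    rw [Measure.map_map (cont_mul m).measurable hm]
    conv_rhs => rw [← h.map_eq]
    rw [Measure.map_map hm (cont_mul m).measurable]
    congr 1
    funext x
    simp
  refine ⟨Measure.isProbabilityMeasure_map hm.aemeasurable, fun x => ?_, hmp 2 h3, hmp 3 h4, fun E hE e2 e3 => ?_, ?_⟩
  · rw [Measure.map_apply hm (measurableSet_singleton x)]
    refine measure_mono_null (t := {-x}) ?_ (h2 _)
    intro y hy
    have h7 : -y = x := hy
    rw [Set.mem_singleton_iff, ← h7, neg_neg]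
  · rw [Measure.map_apply hm hE]
    have key : ∀ m : ℕ, (fun x : UnitAddCircle => m • x) ⁻¹' E = E →
        (fun x : UnitAddCircle => m • x) ⁻¹' ((fun x : UnitAddCircle => -x) ⁻¹' E) = (fun x : UnitAddCircle => -x) ⁻¹' E := by
      intro m h
      ext x
      have h7 : (-x) ∈ (fun x : UnitAddCircle => m • x) ⁻¹' E ↔ -x ∈ E := by rw [h]
      simp only [Set.mem_preimage] at h7 ⊢
      rw [← h7, smul_neg]
    exact h5 _ (hm hE) (key 2 e2) (key 3 e3)
  · intro hv
    apply h6
    have h7 : (μ.map fun x => -x).map (fun x => -x) = μ := by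
      rw [Measure.map_map hm hm]
      have : ((fun x : UnitAddCircle => -x) ∘ fun x => -x) = id := by funext x; simp
      rw [this, Measure.map_id]
    rw [← h7, hv]
    exact Measure.map_neg_eq_self _

lemma saw_neg {y : UnitAddCircle} (hy : y ≠ 0) : saw (-y) = -saw y := by
  unfold saw
  have h1 : rep (-y) = Int.fract (-rep y) := by
    rw [← rep_coe, AddCircle.coe_neg, coe_rep]
  have h2 : Int.fract (rep y) ≠ 0 := by
    intro h
    rw [Int.fract_eq_self.2 ⟨rep_nonneg y, rep_lt y⟩] at h
    apply hy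
    rw [← coe_rep y, h]
    simp
  rw [h1, Int.fract_neg h2, Int.fract_eq_self.2 ⟨rep_nonneg y, rep_lt y⟩]
  ring

lemma JJ_neg {μ : Measure UnitAddCircle} (hat : ∀ x, μ {x} = 0) (a : UnitAddCircle) :
    JJ a (μ.map fun x => -x) = -JJ (-a) μ := by
  unfold JJ
  have e : ∫ x, saw (x - a) ∂(μ.map fun x => -x) = ∫ x, saw (-x - a) ∂μ :=
    integral_map (f := fun x => saw (x - a)) measurable_neg.aemeasurable
      (meas_saw.comp (meas_sub _)).aestronglyMeasurable
  rw [e, ← integral_neg]
  refine integral_congr_ae ?_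
  have h1 : ∀ᵐ x ∂μ, x ≠ -a := measure_eq_zero_iff_ae_notMem.1 (hat (-a))
  filter_upwards [h1] with x hx
  have h2 : x - -a ≠ 0 := sub_ne_zero.2 hx
  rw [← saw_neg h2]
  congr 1
  abel

lemma DD_neg {μ : Measure UnitAddCircle} (hat : ∀ x, μ {x} = 0) (a b : UnitAddCircle) :
    DD a b (μ.map fun x => -x) = -DD (-a) (-b) μ := by
  unfold DD
  rw [JJ_neg hat, JJ_neg hat]
  ring

lemma contAt_saw {y : UnitAddCircle} (hy : y ≠ 0) : ContinuousAt saw y := by
  have h1 : ContinuousAt (AddCircle.equivIco (1 : ℝ) 0) y := AddCircle.continuousAt_equivIco 1 0 (by simpa using hy)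
  exact (continuousAt_subtype_val.comp h1).sub continuousAt_const

lemma cont_JJ {μ : Measure UnitAddCircle} [IsProbabilityMeasure μ] (hat : ∀ x, μ {x} = 0) :
    Continuous fun a => JJ a μ := by
  rw [continuous_iff_continuousAt]
  intro a
  unfold JJ
  refine continuousAt_of_dominated (bound := fun _ => 1 / 2) (Eventually.of_forall fun b => ?_)
    (Eventually.of_forall fun b => Eventually.of_forall fun x => abs_saw _) (integrable_const _) ?_
  · exact (meas_saw.comp (meas_sub b)).aestronglyMeasurable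
  · have h1 : ∀ᵐ x ∂μ, x ≠ a := measure_eq_zero_iff_ae_notMem.1 (hat a)
    filter_upwards [h1] with x hx
    have h2 : ContinuousAt (fun b : UnitAddCircle => x - b) a := by fun_prop
    exact ContinuousAt.comp (f := fun b : UnitAddCircle => x - b) (g := saw) (contAt_saw (sub_ne_zero.2 hx)) h2

/-- **one-sided inequalities for arcs are equalities** -/
theorem arc_side {a b : UnitAddCircle} (h : ∀ κ : Measure UnitAddCircle, Exceptional 2 3 κ → 0 ≤ DD a b κ) :
    ∀ κ : Measure UnitAddCircle, Exceptional 2 3 κ → DD a b κ = 0 := by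
  have key : ∀ κ : Measure UnitAddCircle, Exceptional 2 3 κ → DD (-a) (-b) κ = 0 := by
    intro μ hμ
    have hprob := hμ.1
    refine le_antisymm ?_ ?_
    · have h1 := h _ (exceptional_neg hμ)
      rw [DD_neg hμ.2.1] at h1
      linarith
    · -- recurrence
      set C : Set (UnitAddCircle × UnitAddCircle) := {p | 0 ≤ DD (p.1 - a) (p.2 - b) μ} with hC
      have hclosed : IsClosed C := by
        have hc := cont_JJ (μ := μ) hμ.2.1
        have : Continuous fun p : UnitAddCircle × UnitAddCircle => DD (p.1 - a) (p.2 - b) μ := by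
          unfold DD
          exact (hc.comp (by fun_prop : Continuous fun p : UnitAddCircle × UnitAddCircle => p.2 - b)).sub
            (hc.comp (by fun_prop : Continuous fun p : UnitAddCircle × UnitAddCircle => p.1 - a))
        exact isClosed_le continuous_const this
      have hcl := mapClusterPt_zero_atTop_nsmul ((6 • a, 6 • b) : UnitAddCircle × UnitAddCircle)
      have hmem : ∀ᶠ n : ℕ in atTop, n • ((6 • a, 6 • b) : UnitAddCircle × UnitAddCircle) ∈ C := by
        filter_upwards [eventually_ge_atTop 1] with n hn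
        rw [hC, Set.mem_ofPred_eq]
        have e : ∀ c : UnitAddCircle, n • (6 • c) - c = (6 * n - 1) • c := by
          intro c
          have h1 : (6 * n - 1 + 1) • c = n • (6 • c) := by
            rw [smul_smul]
            congr 1
            omega
          rw [← h1, add_smul, one_smul, add_sub_cancel_right]
        change 0 ≤ DD (n • (6 • a) - a) (n • (6 • b) - b) μ
        rw [e, e]
        refine DD_mul h (by omega) ?_ ?_ μ hμ
        · rw [Nat.coprime_two_left, Nat.odd_iff]
          omega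
        · refine (Nat.Prime.coprime_iff_not_dvd Nat.prime_three).2 ?_
          omega
      have h0 := hclosed.mem_of_mapClusterPt hcl hmem
      rw [hC, Set.mem_ofPred_eq] at h0
      simpa using h0
  intro μ hμ
  have h1 := key _ (exceptional_neg hμ)
  rw [DD_neg hμ.2.1, neg_neg, neg_neg] at h1
  linarith

end Pool.Agent.U349.OT
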