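import Pool.Agent.U349.OT.Fin2
import Pool.Agent.U349.OB.Weyl

/-!
# Averages of the sawtooth function along multiples
-/

set_option autoImplicit false

namespace Pool.Agent.U349.OT

open Filter Topology MeasureTheory
open scoped Finset
open Pool.Agent.H469R2.NK (e norm_e e_add e_zero conj_e)
open Pool.Agent.U106.FC (mul cont_mul co co_map avg_char norm_fourier)

/-- the cells -/
lemma fract_cells (R : ℕ) (hR : 1 ≤ R) (x : ℝ) :
    |Int.fract x - ∑ i ∈ Finset.range R, (i : ℝ) / R *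
      (if (i : ℝ) / R ≤ Int.fract x ∧ Int.fract x < ((i + 1 : ℕ) : ℝ) / R then 1 else 0)| ≤ 1 / R := by
  have hR0 : (0 : ℝ) < R := by exact_mod_cast hR
  set f := Int.fract x with hf
  have hf0 : 0 ≤ f := Int.fract_nonneg x
  have hf1 : f < 1 := Int.fract_lt_one x
  set k : ℕ := ⌊R * f⌋₊ with hk
  have hk1 : (k : ℝ) ≤ R * f := Nat.floor_le (by positivity)
  have hk2 : R * f < k + 1 := Nat.lt_floor_add_one _
  have hkR : k < R := by
    have : (k : ℝ) < R := by nlinarith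
    exact_mod_cast this
  have h1 : ∀ i ∈ Finset.range R, (i : ℝ) / R *
      (if (i : ℝ) / R ≤ f ∧ f < ((i + 1 : ℕ) : ℝ) / R then 1 else 0) = if i = k then (k : ℝ) / R else 0 := by
    intro i _
    have h2 : ((i : ℝ) / R ≤ f ∧ f < ((i + 1 : ℕ) : ℝ) / R) ↔ i = k := by
      rw [div_le_iff₀ hR0, lt_div_iff₀ hR0]
      push_cast
      constructor
      · rintro ⟨a1, a2⟩
        have b1 : (i : ℝ) < k + 1 := by linarith
        have b2 : (k : ℝ) < i + 1 := by linarith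
        have c1 : i < k + 1 := by exact_mod_cast b1
        have c2 : k < i + 1 := by exact_mod_cast b2
        omega
      · rintro rfl
        constructor <;> linarith
    by_cases hi : i = k
    · rw [if_pos (h2.2 hi), if_pos hi, hi, mul_one]
    · rw [if_neg (fun h => hi (h2.1 h)), if_neg hi, mul_zero]
  rw [Finset.sum_congr rfl h1, Finset.sum_ite_eq' (Finset.range R) k, if_pos (Finset.mem_range.2 hkR)]
  have h3 : f - k / R = (R * f - k) / R := by field_simp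
  rw [h3, abs_of_nonneg (by apply div_nonneg <;> linarith), div_le_div_iff_of_pos_right hR0]
  linarith

lemma saw_of_count {ι : Type} (S : Finset ι) (y : ι → ℝ) (R : ℕ) (hR : 1 ≤ R) (η : ℝ)
    (h : ∀ i < R, |((#{s ∈ S | (i : ℝ) / R ≤ Int.fract (y s) ∧ Int.fract (y s) < ((i + 1 : ℕ) : ℝ) / R} : ℕ) : ℝ) -
      (((i + 1 : ℕ) : ℝ) / R - (i : ℝ) / R) * #S| ≤ η * #S) :
    |∑ s ∈ S, (Int.fract (y s) - 1 / 2)| ≤ (2 / R + R * η) * #S := by
  have hR0 : (0 : ℝ) < R := by exact_mod_cast hR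
  set I : ℕ → ι → ℝ := fun i s => if (i : ℝ) / R ≤ Int.fract (y s) ∧ Int.fract (y s) < ((i + 1 : ℕ) : ℝ) / R then 1 else 0
    with hI
  have h1 : |∑ s ∈ S, (Int.fract (y s) - ∑ i ∈ Finset.range R, (i : ℝ) / R * I i s)| ≤ 1 / R * #S := by
    refine (Finset.abs_sum_le_sum_abs _ _).trans ?_
    refine (Finset.sum_le_sum fun s _ => fract_cells R hR (y s)).trans ?_
    rw [Finset.sum_const, nsmul_eq_mul, mul_comm]
  have h2 : ∑ s ∈ S, ∑ i ∈ Finset.range R, (i : ℝ) / R * I i s = ∑ i ∈ Finset.range R, (i : ℝ) / R *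
      ((#{s ∈ S | (i : ℝ) / R ≤ Int.fract (y s) ∧ Int.fract (y s) < ((i + 1 : ℕ) : ℝ) / R} : ℕ) : ℝ) := by
    rw [Finset.sum_comm]
    refine Finset.sum_congr rfl fun i _ => ?_
    rw [← Finset.mul_sum]
    simp only [hI, Finset.sum_boole]
  have h3 : |∑ i ∈ Finset.range R, (i : ℝ) / R *
      (((#{s ∈ S | (i : ℝ) / R ≤ Int.fract (y s) ∧ Int.fract (y s) < ((i + 1 : ℕ) : ℝ) / R} : ℕ) : ℝ) - 1 / R * #S)| ≤
      R * η * #S := by
    refine (Finset.abs_sum_le_sum_abs _ _).trans ?_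
    have h4 : ∀ i ∈ Finset.range R, |(i : ℝ) / R *
        (((#{s ∈ S | (i : ℝ) / R ≤ Int.fract (y s) ∧ Int.fract (y s) < ((i + 1 : ℕ) : ℝ) / R} : ℕ) : ℝ) - 1 / R * #S)| ≤
        η * #S := by
      intro i hi
      rw [Finset.mem_range] at hi
      have h5 := h i hi
      have h6 : (((i + 1 : ℕ) : ℝ) / R - (i : ℝ) / R) = 1 / R := by
        push_cast
        field_simp
        ring
      rw [h6] at h5
      have h7 : (i : ℝ) / R ≤ 1 := by
        rw [div_le_one hR0]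
        exact_mod_cast hi.le
      rw [abs_mul, abs_of_nonneg (by positivity : (0:ℝ) ≤ (i : ℝ) / R)]
      calc (i : ℝ) / R * _ ≤ 1 * _ := mul_le_mul_of_nonneg_right h7 (abs_nonneg _)
        _ ≤ _ := by rw [one_mul]; exact h5
    refine (Finset.sum_le_sum h4).trans ?_
    rw [Finset.sum_const, Finset.card_range, nsmul_eq_mul, mul_assoc]
  have h4 : (∑ i ∈ Finset.range R, (i : ℝ)) = R * (R - 1) / 2 := by
    have h5 := Finset.sum_range_id_mul_two R
    have h6 : ((∑ i ∈ Finset.range R, i : ℕ) : ℝ) * 2 = R * ((R - 1 : ℕ) : ℝ) := by exact_mod_cast h5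
    rw [Nat.cast_sub hR] at h6
    push_cast at h6
    linarith
  have h5 : ∑ i ∈ Finset.range R, (i : ℝ) / R * (1 / R * (#S : ℝ)) = (1 / 2 - 1 / (2 * R)) * #S := by
    rw [← Finset.sum_mul, ← Finset.sum_div, h4]
    field_simp
  have h6 : ∑ s ∈ S, (Int.fract (y s) - 1 / 2) =
      ∑ s ∈ S, (Int.fract (y s) - ∑ i ∈ Finset.range R, (i : ℝ) / R * I i s) +
      ∑ i ∈ Finset.range R, (i : ℝ) / R *
        (((#{s ∈ S | (i : ℝ) / R ≤ Int.fract (y s) ∧ Int.fract (y s) < ((i + 1 : ℕ) : ℝ) / R} : ℕ) : ℝ) - 1 / R * #S) -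
      1 / (2 * R) * #S := by
    rw [Finset.sum_sub_distrib, Finset.sum_sub_distrib, h2]
    simp only [mul_sub]
    rw [Finset.sum_sub_distrib, h5, Finset.sum_const, nsmul_eq_mul]
    ring
  rw [h6]
  have h7 : |∑ s ∈ S, (Int.fract (y s) - ∑ i ∈ Finset.range R, (i : ℝ) / R * I i s) +
      ∑ i ∈ Finset.range R, (i : ℝ) / R *
        (((#{s ∈ S | (i : ℝ) / R ≤ Int.fract (y s) ∧ Int.fract (y s) < ((i + 1 : ℕ) : ℝ) / R} : ℕ) : ℝ) - 1 / R * #S) -
      1 / (2 * R) * #S| ≤ 1 / R * #S + R * η * #S + 1 / (2 * R) * #S := by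
    refine (abs_sub _ _).trans ?_
    refine add_le_add ((abs_add_le _ _).trans (add_le_add h1 h3)) ?_
    rw [abs_of_nonneg (by positivity)]
  refine h7.trans ?_
  have h8 : 1 / R + 1 / (2 * R) ≤ (2 : ℝ) / R := by
    have : (1 : ℝ) / (2 * R) = 1 / 2 * (1 / R) := by field_simp
    rw [this]
    have h9 : (0 : ℝ) < 1 / R := by positivity
    have h10 : (2 : ℝ) / R = 2 * (1 / R) := by ring
    rw [h10]
    linarith
  have h9 : (0 : ℝ) ≤ #S := by positivity
  nlinarith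

/-- the averages -/
noncomputable def AV (q X : ℕ) (y : UnitAddCircle) : ℝ :=
  (X : ℝ)⁻¹ * ∑ m ∈ Finset.range X, saw ((q * m + 1) • y)

lemma abs_AV (q X : ℕ) (y : UnitAddCircle) : ‖AV q X y‖ ≤ 1 / 2 := by
  unfold AV
  rw [norm_mul, norm_inv, Real.norm_natCast]
  have h1 : ‖∑ m ∈ Finset.range X, saw ((q * m + 1) • y)‖ ≤ X * (1 / 2) := by
    refine (norm_sum_le _ _).trans ?_
    refine (Finset.sum_le_sum fun m _ => abs_saw _).trans ?_
    rw [Finset.sum_const, Finset.card_range, nsmul_eq_mul]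
  rcases Nat.eq_zero_or_pos X with h | h
  · subst h
    simp
  · have hX : (0 : ℝ) < X := by exact_mod_cast h
    calc (X : ℝ)⁻¹ * _ ≤ (X : ℝ)⁻¹ * (X * (1 / 2)) := mul_le_mul_of_nonneg_left h1 (by positivity)
      _ = 1 / 2 := by field_simp

lemma meas_AV (q X : ℕ) : Measurable (AV q X) := by
  unfold AV
  refine measurable_const.mul (Finset.measurable_fun_sum _ fun m _ => ?_)
  exact meas_saw.comp (cont_nsmul _).measurable

lemma exp_avg (q : ℕ) (hq : 1 ≤ q) {y : UnitAddCircle} (hy : ∀ n : ℕ, 0 < n → n • y ≠ 0) (h : ℕ) (hh : 1 ≤ h) :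
    Tendsto (fun X : ℕ => (X : ℝ)⁻¹ * ‖∑ m ∈ Finset.range X, e (h * (((q * m + 1 : ℕ) : ℝ) * rep y))‖) atTop (𝓝 0) := by
  have h1 := avg_char ((h * q) • y)
  rw [if_neg (hy _ (Nat.mul_pos hh hq))] at h1
  have h2 : ∀ m : ℕ, e (h * (((q * m + 1 : ℕ) : ℝ) * rep y)) =
      (fourier (h : ℤ) y : ℂ) * (fourier (m : ℤ) ((h * q) • y) : ℂ) := by
    intro m
    have h3 : (fourier (m : ℤ) ((h * q) • y) : ℂ) = fourier ((m * (h * q) : ℕ) : ℤ) y := by
      rw [fourier_apply, fourier_apply, ← natCast_zsmul, smul_smul]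
      push_cast
      rfl
    rw [h3, ← fourier_add]
    rw [fourier_rep]
    unfold Pool.Agent.H469R2.NK.e
    congr 1
    push_cast
    ring
  have h3 := h1.norm
  rw [norm_zero] at h3
  refine h3.congr fun X => ?_
  simp_rw [h2]
  rw [← Finset.mul_sum, norm_mul, norm_mul, norm_fourier, one_mul, norm_inv, Complex.norm_natCast]

theorem AV_tendsto (q : ℕ) (hq : 1 ≤ q) {y : UnitAddCircle} (hy : ∀ n : ℕ, 0 < n → n • y ≠ 0) :
    Tendsto (fun X => AV q X y) atTop (𝓝 0) := by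
  rw [Metric.tendsto_atTop]
  intro ε hε
  obtain ⟨R, hR⟩ := exists_nat_gt (4 / ε)
  have hR1 : 1 ≤ R := by
    rcases Nat.eq_zero_or_pos R with h | h
    · exfalso
      rw [h] at hR
      have : 0 < 4 / ε := by positivity
      simp at hR
      linarith
    · exact h
  have hR0 : (0 : ℝ) < R := by exact_mod_cast hR1
  set η : ℝ := ε / (4 * R) with hη
  have hη0 : 0 < η := by positivity
  obtain ⟨H, δ, hδ, hH⟩ := Pool.Agent.U349.OB.count_of_weyl η hη0
  have h1 : ∀ᶠ X : ℕ in atTop, ∀ h ∈ Finset.Icc 1 H,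
      (X : ℝ)⁻¹ * ‖∑ m ∈ Finset.range X, e (h * (((q * m + 1 : ℕ) : ℝ) * rep y))‖ < δ := by
    rw [Filter.eventually_all_finset]
    intro h hh
    exact (exp_avg q hq hy h (Finset.mem_Icc.1 hh).1).eventually_lt_const hδ
  obtain ⟨X0, hX0⟩ := eventually_atTop.1 (h1.and (eventually_ge_atTop 1))
  refine ⟨X0, fun X hX => ?_⟩
  obtain ⟨h2, h3⟩ := hX0 X hX
  have hX0' : (0 : ℝ) < X := by exact_mod_cast h3
  have h4 := hH (Finset.range X) (fun m => ((q * m + 1 : ℕ) : ℝ) * rep y) (fun h hh1 hh2 => by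
    have h5 := h2 h (Finset.mem_Icc.2 ⟨hh1, hh2⟩)
    rw [Finset.card_range]
    rw [inv_mul_lt_iff₀ hX0'] at h5
    rw [mul_comm δ]
    exact h5.le)
  have h5 := saw_of_count (Finset.range X) (fun m => ((q * m + 1 : ℕ) : ℝ) * rep y) R hR1 η (fun i hi => by
    refine h4 ((i : ℝ) / R) (((i + 1 : ℕ) : ℝ) / R) (by positivity) ?_ ?_
    · rw [div_lt_div_iff_of_pos_right hR0]
      exact_mod_cast Nat.lt_succ_self i
    · rw [div_le_one hR0]
      exact_mod_cast hi)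
  have h6 : ∑ m ∈ Finset.range X, (Int.fract (((q * m + 1 : ℕ) : ℝ) * rep y) - 1 / 2) =
      ∑ m ∈ Finset.range X, saw ((q * m + 1) • y) := by
    refine Finset.sum_congr rfl fun m _ => ?_
    unfold saw
    rw [rep_nsmul]
  rw [h6, Finset.card_range] at h5
  rw [Real.dist_eq, sub_zero]
  unfold AV
  rw [abs_mul, abs_of_pos (inv_pos.2 hX0'), inv_mul_lt_iff₀ hX0']
  refine h5.trans_lt ?_
  have h7 : 2 / R + R * η < ε := by
    have h8 : R * η = ε / 4 := by rw [hη]; field_simp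
    have h9 : 2 / R < ε / 2 := by
      rw [div_lt_iff₀ hR0]
      rw [div_lt_iff₀ hε] at hR
      nlinarith
    rw [h8]
    linarith
  nlinarith

end Pool.Agent.U349.OT
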