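import Pool.Agent.U349.OT.Avg

/-!
# One-sided inequalities for functions of bounded variation
-/

set_option autoImplicit false

namespace Pool.Agent.U349.OT

open Filter Topology MeasureTheory
open Pool.Agent.U106.TR
open Pool.Agent.U106.FC (mul cont_mul co co_map co_vol Exceptional exceptional_map exists_exceptional_lift)

/-- the averages of the twisted integrals -/
noncomputable def KK (q X : ℕ) (μ : Measure UnitAddCircle) (a : UnitAddCircle) : ℝ := ∫ x, AV q X (x - a) ∂μ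

lemma abs_KK (q X : ℕ) (μ : Measure UnitAddCircle) [IsProbabilityMeasure μ] (a : UnitAddCircle) :
    ‖KK q X μ a‖ ≤ 1 / 2 := by
  unfold KK
  refine (norm_integral_le_of_norm_le_const (C := 1 / 2) (Eventually.of_forall fun x => abs_AV q X _)).trans ?_
  simp

lemma meas_KK (q X : ℕ) (μ : Measure UnitAddCircle) [IsProbabilityMeasure μ] : Measurable (KK q X μ) := by
  have h : StronglyMeasurable (fun z : UnitAddCircle × UnitAddCircle => AV q X (z.2 - z.1)) :=
    ((meas_AV q X).comp (by fun_prop : Measurable fun z : UnitAddCircle × UnitAddCircle => z.2 - z.1)).stronglyMeasurable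
  exact (h.integral_prod_right').measurable

lemma KK_tendsto (q : ℕ) (hq : 1 ≤ q) {μ : Measure UnitAddCircle} [IsProbabilityMeasure μ]
    (hat : ∀ x, μ {x} = 0) (a : UnitAddCircle) : Tendsto (fun X => KK q X μ a) atTop (𝓝 0) := by
  have h1 : Tendsto (fun X => ∫ x, AV q X (x - a) ∂μ) atTop (𝓝 (∫ _x, (0 : ℝ) ∂μ)) := by
    refine tendsto_integral_of_dominated_convergence (fun _ => (1 / 2 : ℝ)) (fun X => ?_) (integrable_const _)
      (fun X => Eventually.of_forall fun x => abs_AV q X _) ?_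
    · exact ((meas_AV q X).comp (meas_sub a)).aestronglyMeasurable
    · have h2 : ∀ᵐ x ∂μ, x ∉ (fun x => x - a) ⁻¹' {x : UnitAddCircle | ∃ n : ℕ, 0 < n ∧ n • x = 0} := by
        have hc : ((fun x => x - a) ⁻¹' {x : UnitAddCircle | ∃ n : ℕ, 0 < n ∧ n • x = 0}).Countable :=
          Pool.Agent.U106.FC.torsion_countable.preimage (sub_left_injective)
        refine measure_eq_zero_iff_ae_notMem.1 ?_
        rw [← Set.biUnion_of_singleton ((fun x => x - a) ⁻¹' {x : UnitAddCircle | ∃ n : ℕ, 0 < n ∧ n • x = 0})]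
        exact (measure_biUnion_null_iff hc).2 fun x _ => hat x
      filter_upwards [h2] with x hx
      refine AV_tendsto q hq fun n hn h3 => hx ⟨n, hn, h3⟩
  rw [integral_zero] at h1
  exact h1

/-- the twisted integral -/
noncomputable def QT (θ : Measure ℝ) (N : ℕ) (μ : Measure UnitAddCircle) : ℝ :=
  ∫ t, JJ (N • (t : UnitAddCircle)) (μ.map (mul N)) ∂θ

lemma meas_JJ (μ : Measure UnitAddCircle) [IsProbabilityMeasure μ] : Measurable fun a => JJ a μ := by
  have h : StronglyMeasurable (fun z : UnitAddCircle × UnitAddCircle => saw (z.2 - z.1)) :=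
    (meas_saw.comp (by fun_prop : Measurable fun z : UnitAddCircle × UnitAddCircle => z.2 - z.1)).stronglyMeasurable
  exact (h.integral_prod_right').measurable

lemma abs_JJ (μ : Measure UnitAddCircle) [IsProbabilityMeasure μ] (a : UnitAddCircle) : ‖JJ a μ‖ ≤ 1 / 2 := by
  unfold JJ
  refine (norm_integral_le_of_norm_le_const (C := 1 / 2) (Eventually.of_forall fun x => abs_saw _)).trans ?_
  simp

lemma meas_coe : Measurable (fun t : ℝ => (t : UnitAddCircle)) := AddCircle.measurable_mk' (a := (1 : ℝ))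

lemma prob_mul (N : ℕ) (μ : Measure UnitAddCircle) [IsProbabilityMeasure μ] : IsProbabilityMeasure (μ.map (mul N)) :=
  Measure.isProbabilityMeasure_map (cont_mul N).measurable.aemeasurable

lemma int_QT (θ : Measure ℝ) [IsFiniteMeasure θ] (N : ℕ) (μ : Measure UnitAddCircle) [IsProbabilityMeasure μ] :
    Integrable (fun t : ℝ => JJ (N • (t : UnitAddCircle)) (μ.map (mul N))) θ := by
  have := prob_mul N μ
  refine Integrable.of_bound ?_ (1 / 2) (Eventually.of_forall fun t => abs_JJ _ _)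
  exact ((meas_JJ (μ.map (mul N))).comp ((cont_nsmul N).measurable.comp meas_coe)).aestronglyMeasurable

lemma JJ_mul (N : ℕ) (μ : Measure UnitAddCircle) (a : UnitAddCircle) :
    JJ (N • a) (μ.map (mul N)) = ∫ x, saw (N • (x - a)) ∂μ := by
  unfold JJ
  have e : ∫ x, saw (x - N • a) ∂(μ.map (mul N)) = ∫ x, saw (mul N x - N • a) ∂μ :=
    integral_map (f := fun x => saw (x - N • a)) (cont_mul N).measurable.aemeasurable
      (meas_saw.comp (meas_sub _)).aestronglyMeasurable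
  rw [e]
  refine integral_congr_ae (Eventually.of_forall fun x => ?_)
  simp only [mul, smul_sub]

theorem QT_avg (q : ℕ) (hq : 1 ≤ q) (θ : Measure ℝ) [IsFiniteMeasure θ] {μ : Measure UnitAddCircle}
    [IsProbabilityMeasure μ] (hat : ∀ x, μ {x} = 0) :
    Tendsto (fun X : ℕ => (X : ℝ)⁻¹ * ∑ m ∈ Finset.range X, QT θ (q * m + 1) μ) atTop (𝓝 0) := by
  have h1 : ∀ X : ℕ, (X : ℝ)⁻¹ * ∑ m ∈ Finset.range X, QT θ (q * m + 1) μ =
      ∫ t, KK q X μ ((t : ℝ) : UnitAddCircle) ∂θ := by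
    intro X
    unfold QT
    rw [← integral_finsetSum _ fun m _ => int_QT θ (q * m + 1) μ, ← integral_const_mul]
    refine integral_congr_ae (Eventually.of_forall fun t => ?_)
    simp only
    unfold KK AV
    rw [integral_const_mul]
    congr 1
    have h2 : ∫ x, ∑ m ∈ Finset.range X, saw ((q * m + 1) • (x - (t : UnitAddCircle))) ∂μ =
        ∑ m ∈ Finset.range X, ∫ x, saw ((q * m + 1) • (x - (t : UnitAddCircle))) ∂μ :=
      integral_finsetSum (f := fun m x => saw ((q * m + 1) • (x - (t : UnitAddCircle)))) _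
        fun m _ => int_saw μ ((cont_nsmul (q * m + 1)).measurable.comp (meas_sub _))
    rw [h2]
    exact Finset.sum_congr rfl fun m _ => JJ_mul _ μ _
  simp_rw [h1]
  have h2 : Tendsto (fun X => ∫ t, KK q X μ ((t : ℝ) : UnitAddCircle) ∂θ) atTop (𝓝 (∫ _t, (0 : ℝ) ∂θ)) := by
    refine tendsto_integral_of_dominated_convergence (fun _ => (1 / 2 : ℝ)) (fun X => ?_) (integrable_const _)
      (fun X => Eventually.of_forall fun t => abs_KK q X μ _)
      (Eventually.of_forall fun t => KK_tendsto q hq hat _)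
    exact ((meas_KK q X μ).comp meas_coe).aestronglyMeasurable
  rw [integral_zero] at h2
  exact h2

/-- the integral of a function of bounded variation, in terms of two measures -/
structure Rep (f : UnitAddCircle → ℝ) where
  θ₁ : Measure ℝ
  θ₂ : Measure ℝ
  c : ℝ
  f1 : IsFiniteMeasure θ₁
  f2 : IsFiniteMeasure θ₂
  hE : {x : ℝ | 0 ≤ x ∧ x < 1 ∧ f (x : UnitAddCircle) ≠
      c - (∫ t, Pool.Agent.U798.BV.sw (x - t) ∂θ₁) + ∫ t, Pool.Agent.U798.BV.sw (x - t) ∂θ₂}.Countable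

lemma exists_rep {f : UnitAddCircle → ℝ} (hf : OI.BV f) : Nonempty (Rep f) := by
  have h01 : f ((0 : ℝ) : UnitAddCircle) = f ((1 : ℝ) : UnitAddCircle) := by
    congr 1
    have : ((1 : ℝ) : UnitAddCircle) = 0 := AddCircle.coe_period 1
    rw [this]
    rfl
  obtain ⟨θ₁, θ₂, c, h1, h2, hE⟩ := Pool.Agent.U139.BV.t_REP (fun t : ℝ => f (t : UnitAddCircle)) hf h01
  exact ⟨⟨θ₁, θ₂, c, h1, h2, hE⟩⟩

open Pool.Agent.U798.BV Pool.Agent.U798.FA in
lemma rep_ae {f : UnitAddCircle → ℝ} (D : Rep f) (μ : Measure UnitAddCircle) [IsProbabilityMeasure μ]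
    [NullSingletonClass μ] : ∀ᵐ x ∂μ, f x = Fr D.θ₁ D.θ₂ D.c (Pool.Agent.U798.FA.rep x) := by
  have h1 := Pool.Agent.U798.BV.law_null μ _ D.hE
  have hms := D.hE.measurableSet
  unfold law at h1
  rw [Measure.map_apply meas_rep hms] at h1
  rw [ae_iff]
  refine measure_mono_null ?_ h1
  intro x hx
  refine ⟨Pool.Agent.U798.FA.rep_nonneg x, Pool.Agent.U798.FA.rep_lt x, ?_⟩
  rw [Pool.Agent.U798.FA.coe_rep]
  exact hx

open Pool.Agent.U798.BV Pool.Agent.U798.FA in
lemma int_bv {f : UnitAddCircle → ℝ} (D : Rep f) (μ : Measure UnitAddCircle) [IsProbabilityMeasure μ]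
    (hat : ∀ x, μ {x} = 0) : Integrable f μ := by
  have : NullSingletonClass μ := ⟨hat⟩
  have := D.f1
  have := D.f2
  have h1 := rep_ae D μ
  have hFm : Measurable (Fr D.θ₁ D.θ₂ D.c) :=
    (measurable_const.sub (meas_int_sw D.θ₁)).add (meas_int_sw D.θ₂)
  refine Integrable.congr (f := fun x => Fr D.θ₁ D.θ₂ D.c (Pool.Agent.U798.FA.rep x)) ?_ (h1.mono fun x hx => hx.symm)
  refine Integrable.of_bound (hFm.comp meas_rep).aestronglyMeasurable
    (|D.c| + 1 / 2 * D.θ₁.real Set.univ + 1 / 2 * D.θ₂.real Set.univ) (Eventually.of_forall fun x => ?_)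
  unfold Fr
  refine (norm_add_le _ _).trans (add_le_add ((norm_sub_le _ _).trans (add_le_add le_rfl ?_)) ?_)
  · exact abs_int_sw D.θ₁ _
  · exact abs_int_sw D.θ₂ _

lemma gf_eq (μ : Measure UnitAddCircle) (t : ℝ) : Pool.Agent.U798.OP.gf μ t = JJ (t : UnitAddCircle) μ := by
  unfold Pool.Agent.U798.OP.gf JJ Pool.Agent.U798.FA.law
  have e : ∫ y, Pool.Agent.U798.MN.saw (y - t) ∂(μ.map Pool.Agent.U798.FA.rep) =
      ∫ x, Pool.Agent.U798.MN.saw (Pool.Agent.U798.FA.rep x - t) ∂μ :=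
    integral_map (f := fun y => Pool.Agent.U798.MN.saw (y - t)) Pool.Agent.U798.FA.meas_rep.aemeasurable
      (Pool.Agent.U798.BV.meas_sw.comp (measurable_id.sub_const t)).aestronglyMeasurable
  rw [e]
  refine integral_congr_ae (Eventually.of_forall fun x => ?_)
  change Int.fract (Pool.Agent.U798.FA.rep x - t) - 1 / 2 = rep (x - (t : UnitAddCircle)) - 1 / 2
  congr 1
  rw [← rep_coe, AddCircle.coe_sub]
  congr 2
  exact Pool.Agent.U798.FA.coe_rep x

lemma JJ_vol0 (a : UnitAddCircle) : JJ a (volume : Measure UnitAddCircle) = 0 := by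
  have h0 : ∀ a : UnitAddCircle, JJ a (volume : Measure UnitAddCircle) = JJ 0 volume := by
    intro a
    have := JJ_vol 0 a
    unfold DD at this
    linarith
  have h1 := JJ_neg (μ := (volume : Measure UnitAddCircle)) vol_atomless 0
  have h2 : (volume : Measure UnitAddCircle).map (fun x => -x) = volume := Measure.map_neg_eq_self _
  rw [h2, neg_zero] at h1
  rw [h0]
  linarith

/-- the integral formula -/
lemma rep_int {f : UnitAddCircle → ℝ} (D : Rep f) (μ : Measure UnitAddCircle) [IsProbabilityMeasure μ]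
    (hat : ∀ x, μ {x} = 0) : ∫ x, f x ∂μ - ∫ x, f x = QT D.θ₂ 1 μ - QT D.θ₁ 1 μ := by
  have := D.f1
  have := D.f2
  have := prob_vol
  have i1 : NullSingletonClass μ := ⟨hat⟩
  have i2 : NullSingletonClass (volume : Measure UnitAddCircle) := ⟨vol_atomless⟩
  have h1 := Pool.Agent.U798.BV.int_f f D.θ₁ D.θ₂ D.c D.hE μ
  have h2 := Pool.Agent.U798.BV.int_f f D.θ₁ D.θ₂ D.c D.hE volume
  simp_rw [gf_eq] at h1 h2
  simp_rw [JJ_vol0] at h2
  have e : μ.map (mul 1) = μ := by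
    have : mul 1 = id := by funext x; simp [mul]
    rw [this, Measure.map_id]
  have h3 : ∀ θ : Measure ℝ, QT θ 1 μ = ∫ t, JJ ((t : ℝ) : UnitAddCircle) μ ∂θ := by
    intro θ
    unfold QT
    rw [e]
    simp only [one_smul]
  rw [h1, h2, h3, h3]
  simp
  ring

lemma QT_tw {N : ℕ} (hN : 2 ≤ N) (θ : Measure ℝ) [IsFiniteMeasure θ] (μ : Measure UnitAddCircle)
    [IsProbabilityMeasure μ] : QT θ 1 (tw N μ) = ((N - 1 : ℕ) : ℝ)⁻¹ * (QT θ N μ - QT θ 1 μ) := by
  have := prob_tw (μ := μ) hN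
  have e : ∀ ν : Measure UnitAddCircle, ν.map (mul 1) = ν := by
    intro ν
    have : mul 1 = id := by funext x; simp [mul]
    rw [this, Measure.map_id]
  have i1 := int_QT θ 1 μ
  have i2 := int_QT θ N μ
  unfold QT
  rw [← integral_sub i2 i1, ← integral_const_mul]
  refine integral_congr_ae (Eventually.of_forall fun t => ?_)
  simp only [one_smul, e]
  exact JJ_tw hN μ _

variable {n : ℕ}

/-- the value at `c + ∑ f_i (g_i)`, minus the one for the regular trace -/
noncomputable def WB (s : Fin n → ℤ) (f : Fin n → UnitAddCircle → ℝ) (c : G →₀ ℂ) (μ : Measure UnitAddCircle) : ℝ :=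
  (∑ i, (∫ x, f i x ∂(μ.map (zm (s i))) - ∫ x, f i x)) + (reVal (traceOf μ) c - reVal reg c)

lemma int_zm {s : ℤ} (hs : s ≠ 0) {f : UnitAddCircle → ℝ} (D : Rep f) (μ : Measure UnitAddCircle)
    [IsProbabilityMeasure μ] (hat : ∀ x, μ {x} = 0) :
    Integrable (fun x => f (zm s x)) μ ∧ ∫ x, f x ∂(μ.map (zm s)) = ∫ x, f (zm s x) ∂μ := by
  have := prob_zm s μ
  have h1 := int_bv D (μ.map (zm s)) (atomless_zm hs hat)
  refine ⟨(integrable_map_measure h1.aestronglyMeasurable (meas_zm s).aemeasurable).1 h1, ?_⟩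
  exact integral_map (meas_zm s).aemeasurable h1.aestronglyMeasurable

lemma WB_all {s : Fin n → ℤ} (hs : ∀ i, s i ≠ 0) {f : Fin n → UnitAddCircle → ℝ} (D : ∀ i, Rep (f i))
    {c : G →₀ ℂ} (h : ∀ κ : Measure UnitAddCircle, Exceptional 2 3 κ → 0 ≤ WB s f c κ)
    {μ : Measure UnitAddCircle} [IsProbabilityMeasure μ] (hat : ∀ x, μ {x} = 0) (hi : Inv μ) :
    0 ≤ WB s f c μ := by
  have := prob_vol
  by_contra hlt
  push Not at hlt
  have key : ∀ (ν : Measure UnitAddCircle) [IsProbabilityMeasure ν], (∀ x, ν {x} = 0) →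
      Integrable (fun x => (∑ i, f i (zm (s i) x)) + FF c x) ν ∧
      ∫ x, ((∑ i, f i (zm (s i) x)) + FF c x) ∂ν = WB s f c ν + (∑ i, ∫ x, f i x) + reVal reg c := by
    intro ν hν hνa
    have i1 : Integrable (fun x => ∑ i, f i (zm (s i) x)) ν :=
      integrable_finsetSum _ fun i _ => (int_zm (hs i) (D i) ν hνa).1
    refine ⟨i1.add (int_FF c ν), ?_⟩
    have e1 : ∫ x, ((∑ i, f i (zm (s i) x)) + FF c x) ∂ν = ∫ x, ∑ i, f i (zm (s i) x) ∂ν + ∫ x, FF c x ∂ν :=
      integral_add i1 (int_FF c ν)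
    rw [e1, integral_finsetSum _ fun i _ => (int_zm (hs i) (D i) ν hνa).1, integral_FF]
    unfold WB
    rw [Finset.sum_sub_distrib]
    simp_rw [fun i => (int_zm (hs i) (D i) ν hνa).2]
    ring
  have hv : WB s f c volume = 0 := by
    unfold WB
    rw [traceOf_vol.2, sub_self, add_zero]
    exact Finset.sum_eq_zero fun i _ => by rw [vol_zm (hs i), sub_self]
  have k1 := key μ hat
  have k2 := key volume vol_atomless
  have h1 : ∫ x, ((∑ i, f i (zm (s i) x)) + FF c x) ∂μ < ∫ x, ((∑ i, f i (zm (s i) x)) + FF c x) := by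
    rw [k1.2, k2.2, hv]
    linarith
  obtain ⟨κ, hκ, h2⟩ := exists_comp (p := 2) (q := 3) le_rfl hat hi.1 hi.2 k1.1 h1
  have hpκ := hκ.1
  rw [(key κ hκ.2.1).2, k2.2, hv] at h2
  have h3 := h κ hκ
  linarith

/-- **one-sided inequalities are equalities** -/
theorem bvmix {s : Fin n → ℤ} (hs : ∀ i, s i ≠ 0) {f : Fin n → UnitAddCircle → ℝ} (hf : ∀ i, OI.BV (f i))
    {c : G →₀ ℂ} (h : ∀ κ : Measure UnitAddCircle, Exceptional 2 3 κ → 0 ≤ WB s f c κ) :
    ∀ κ : Measure UnitAddCircle, Exceptional 2 3 κ → WB s f c κ = 0 := by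
  intro μ hμ
  have hprob := hμ.1
  have D : ∀ i, Rep (f i) := fun i => (exists_rep (hf i)).some
  have hf1 : ∀ i, IsFiniteMeasure (D i).θ₁ := fun i => (D i).f1
  have hf2 : ∀ i, IsFiniteMeasure (D i).θ₂ := fun i => (D i).f2
  refine le_antisymm ?_ (h μ hμ)
  obtain ⟨Q, hQ⟩ : ∃ Q : ℕ, Q = ∏ i, (s i).natAbs := ⟨_, rfl⟩
  have hQ1 : 1 ≤ Q := by
    rw [hQ]
    exact Nat.succ_le_of_lt (Finset.prod_pos fun i _ => Int.natAbs_pos.2 (hs i))
  obtain ⟨q, hq⟩ : ∃ q : ℕ, q = 6 * Q * (deg c + 1) := ⟨_, rfl⟩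
  have hq1 : 1 ≤ q := by
    rw [hq]
    exact Nat.mul_pos (by omega) (by omega)
  have hqd : deg c + 1 ≤ q := by
    rw [hq]
    exact Nat.le_mul_of_pos_left _ (by omega)
  set ν : Fin n → Measure UnitAddCircle := fun i => μ.map (zm (s i)) with hν
  have hνp : ∀ i, IsProbabilityMeasure (ν i) := fun i => prob_zm (s i) μ
  have hνa : ∀ i x, ν i {x} = 0 := fun i x => atomless_zm (hs i) hμ.2.1 x
  set u : ℕ → ℝ := fun m => ∑ i, (QT (D i).θ₂ (q * m + 1) (ν i) - QT (D i).θ₁ (q * m + 1) (ν i)) with hu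
  have hineq : ∀ m : ℕ, 1 ≤ m → WB s f c μ ≤ u m := by
    intro m hm
    have hN : q + 1 ≤ q * m + 1 := by
      have := Nat.le_mul_of_pos_right q hm
      omega
    have hN2 : 2 ≤ q * m + 1 := by omega
    have hcopd : ∀ d : ℕ, d ∣ q → Nat.Coprime d (q * m + 1) := by
      intro d hd
      have h1 : d ∣ q * m := hd.mul_right m
      have h2 : Nat.gcd d (q * m + 1) ∣ 1 :=
        (Nat.dvd_add_right ((Nat.gcd_dvd_left _ _).trans h1)).1 (Nat.gcd_dvd_right _ _)
      exact Nat.dvd_one.1 h2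
    have d2 : 2 ∣ q := by rw [hq]; exact Dvd.intro (3 * Q * (deg c + 1)) (by ring)
    have d3 : 3 ∣ q := by rw [hq]; exact Dvd.intro (2 * Q * (deg c + 1)) (by ring)
    have hpt := prob_tw (μ := μ) hN2
    have h4 := WB_all hs D h (μ := tw (q * m + 1) μ) (atomless_tw hμ.2.1)
      ⟨inv_tw hN2 (hcopd 2 d2) hμ.2.2.1, inv_tw hN2 (hcopd 3 d3) hμ.2.2.2.1⟩
    have hW : WB s f c μ = (∑ i, (QT (D i).θ₂ 1 (ν i) - QT (D i).θ₁ 1 (ν i))) +
        (reVal (traceOf μ) c - reVal reg c) := by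
      unfold WB
      congr 1
      exact Finset.sum_congr rfl fun i _ => rep_int (D i) (ν i) (hνa i)
    have hT : WB s f c (tw (q * m + 1) μ) = ((q * m + 1 - 1 : ℕ) : ℝ)⁻¹ * (u m - WB s f c μ) := by
      rw [hW]
      unfold WB
      rw [opposite' c hN2 (by omega)]
      have h5 : ∀ i ∈ Finset.univ, ∫ x, f i x ∂((tw (q * m + 1) μ).map (zm (s i))) - ∫ x, f i x =
          ((q * m + 1 - 1 : ℕ) : ℝ)⁻¹ * ((QT (D i).θ₂ (q * m + 1) (ν i) - QT (D i).θ₁ (q * m + 1) (ν i)) -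
            (QT (D i).θ₂ 1 (ν i) - QT (D i).θ₁ 1 (ν i))) := by
        intro i _
        have h6 : (s i).natAbs ∣ q := by
          rw [hq, hQ]
          exact ((Finset.dvd_prod_of_mem (fun i => (s i).natAbs) (Finset.mem_univ i)).mul_left 6).mul_right _
        have h7 : IsCoprime ((q * m + 1 : ℕ) : ℤ) (s i) := by
          rw [Int.isCoprime_iff_gcd_eq_one, Int.gcd, Int.natAbs_natCast]
          exact (hcopd _ h6).symm
        have hp3 := prob_zm (s i) (tw (q * m + 1) μ)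
        rw [rep_int (D i) _ (atomless_zm (hs i) (atomless_tw hμ.2.1)), tw_zm hN2 h7, QT_tw hN2, QT_tw hN2]
        ring
      rw [Finset.sum_congr rfl h5, ← Finset.mul_sum, Finset.sum_sub_distrib]
      simp only [hu]
      ring
    rw [hT] at h4
    have hpos : (0 : ℝ) < ((q * m + 1 - 1 : ℕ) : ℝ)⁻¹ := by
      apply inv_pos.2
      exact_mod_cast (by omega : 0 < q * m + 1 - 1)
    by_contra hc
    push Not at hc
    nlinarith
  have hlim : Tendsto (fun X : ℕ => (X : ℝ)⁻¹ * ∑ m ∈ Finset.range X, u m) atTop (𝓝 0) := by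
    have h1 : ∀ X : ℕ, (X : ℝ)⁻¹ * ∑ m ∈ Finset.range X, u m =
        ∑ i, ((X : ℝ)⁻¹ * ∑ m ∈ Finset.range X, QT (D i).θ₂ (q * m + 1) (ν i) -
          (X : ℝ)⁻¹ * ∑ m ∈ Finset.range X, QT (D i).θ₁ (q * m + 1) (ν i)) := by
      intro X
      simp only [hu]
      rw [Finset.sum_comm, Finset.mul_sum]
      refine Finset.sum_congr rfl fun i _ => ?_
      rw [Finset.sum_sub_distrib, mul_sub]
    simp_rw [h1]
    have h2 : Tendsto (fun X : ℕ => ∑ i, ((X : ℝ)⁻¹ * ∑ m ∈ Finset.range X, QT (D i).θ₂ (q * m + 1) (ν i) -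
          (X : ℝ)⁻¹ * ∑ m ∈ Finset.range X, QT (D i).θ₁ (q * m + 1) (ν i))) atTop (𝓝 (∑ _i : Fin n, (0 - 0))) :=
      tendsto_finsetSum _ fun i _ => (QT_avg q hq1 (D i).θ₂ (hνa i)).sub (QT_avg q hq1 (D i).θ₁ (hνa i))
    simpa using h2
  have hlow : Tendsto (fun X : ℕ => WB s f c μ + (u 0 - WB s f c μ) * (1 / (X : ℝ))) atTop
      (𝓝 (WB s f c μ + (u 0 - WB s f c μ) * 0)) :=
    tendsto_const_nhds.add (tendsto_const_nhds.mul tendsto_one_div_atTop_nhds_zero_nat)
  rw [mul_zero, add_zero] at hlow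
  refine le_of_tendsto_of_tendsto hlow hlim ?_
  filter_upwards [eventually_ge_atTop 1] with X hX
  have hX0 : (0 : ℝ) < X := by exact_mod_cast hX
  obtain ⟨Y, rfl⟩ : ∃ Y : ℕ, X = Y + 1 := ⟨X - 1, by omega⟩
  rw [Finset.sum_range_succ']
  have h1 : (Y : ℝ) * WB s f c μ ≤ ∑ m ∈ Finset.range Y, u (m + 1) := by
    have h2 : ∑ _m ∈ Finset.range Y, WB s f c μ ≤ ∑ m ∈ Finset.range Y, u (m + 1) :=
      Finset.sum_le_sum fun m _ => hineq (m + 1) (by omega)
    rwa [Finset.sum_const, Finset.card_range, nsmul_eq_mul] at h2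
  rw [inv_mul_eq_div, le_div_iff₀ hX0]
  have h2 : (WB s f c μ + (u 0 - WB s f c μ) * (1 / ((Y + 1 : ℕ) : ℝ))) * ((Y + 1 : ℕ) : ℝ) =
      Y * WB s f c μ + u 0 := by
    field_simp
    push_cast
    ring
  rw [h2]
  linarith

end Pool.Agent.U349.OT
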