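import Pool.Agent.U349.OB.OneBit

/-!
# One bit of the multiples of a random point of the circle
-/

set_option autoImplicit false

namespace Pool.Agent.U349.OT

open Finset Filter Topology MeasureTheory
open Pool.Agent.U349.OB
open Pool.Agent.H469R2.NK (e norm_e e_add e_zero conj_e)
open Pool.Agent.H373R2.T7 (muR muR_abs)

/-- the representative in `[0,1)` -/
noncomputable def rep (x : UnitAddCircle) : ℝ := (AddCircle.equivIco (1 : ℝ) 0 x : ℝ)

lemma rep_coe (t : ℝ) : rep (t : UnitAddCircle) = Int.fract t := by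
  unfold rep
  rw [AddCircle.coe_equivIco_mk_apply]
  simp

lemma coe_rep (x : UnitAddCircle) : ((rep x : ℝ) : UnitAddCircle) = x :=
  (AddCircle.equivIco (1 : ℝ) 0).symm_apply_apply x

lemma measurable_rep : Measurable rep :=
  measurable_subtype_coe.comp (AddCircle.measurableEquivIco (1 : ℝ) 0).measurable

lemma rep_nsmul (n : ℕ) (x : UnitAddCircle) : rep (n • x) = Int.fract (n * rep x) := by
  rw [← rep_coe]
  congr 1
  rw [← nsmul_eq_mul, AddCircle.coe_nsmul, coe_rep]

/-- the half circle -/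
def arc : Set UnitAddCircle := {y | 1 / 4 ≤ rep y ∧ rep y < 3 / 4}

lemma measurableSet_arc : MeasurableSet arc := measurable_rep measurableSet_Ico

/-- the points `x` with `k x` in the half circle -/
def bit (k : ℕ) : Set UnitAddCircle := {x | k • x ∈ arc}

lemma cont_nsmul (k : ℕ) : Continuous fun x : UnitAddCircle => k • x := by fun_prop

lemma measurableSet_bit (k : ℕ) : MeasurableSet (bit k) := (cont_nsmul k).measurable measurableSet_arc

lemma fourier_rep (n : ℤ) (x : UnitAddCircle) : (fourier n x : ℂ) = Complex.exp (2 * Real.pi * Complex.I * n * rep x) := by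
  conv_lhs => rw [← coe_rep x]
  rw [fourier_coe_apply]
  simp

lemma re_fourier (n : ℕ) (x : UnitAddCircle) : (fourier (n : ℤ) x : ℂ).re = Real.cos (2 * Real.pi * rep (n • x)) := by
  rw [fourier_rep, rep_nsmul]
  have h1 : (2 * Real.pi * Complex.I * (n : ℤ) * rep x : ℂ) = ((2 * Real.pi * (n * rep x) : ℝ) : ℂ) * Complex.I := by
    push_cast
    ring
  rw [h1, Complex.exp_ofReal_mul_I_re, Int.fract, mul_sub, mul_comm (2 * Real.pi) ((⌊(n:ℝ) * rep x⌋ : ℝ)),
    Real.cos_sub_int_mul_two_pi]

/-- the Fourier coefficients -/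
noncomputable def cf (μ : Measure UnitAddCircle) (n : ℤ) : ℂ := ∫ x, (fourier n x : ℂ) ∂μ

lemma int_fourier (μ : Measure UnitAddCircle) [IsFiniteMeasure μ] (n : ℤ) :
    Integrable (fun x => (fourier n x : ℂ)) μ := by
  refine Integrable.of_bound (fourier n).continuous.aestronglyMeasurable 1 (Eventually.of_forall fun x => ?_)
  rw [fourier_apply]
  exact (Circle.norm_coe _).le

lemma cf_re (μ : Measure UnitAddCircle) [IsProbabilityMeasure μ] (n : ℕ) :
    (cf μ n).re = ∫ x, Real.cos (2 * Real.pi * rep (n • x)) ∂μ := by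
  unfold cf
  rw [← Complex.reCLM_apply, ← ContinuousLinearMap.integral_comp_comm _ (int_fourier μ n)]
  exact integral_congr_ae (Eventually.of_forall fun x => re_fourier n x)

/-- the statistic has mean zero -/
lemma int_St (μ : Measure UnitAddCircle) [IsProbabilityMeasure μ] (n N : ℕ) (h : μ.real (bit (n * N)) = 1 / 2) :
    Integrable (fun x => St 4 v1 (n * rep (N • x))) μ ∧ ∫ x, St 4 v1 (n * rep (N • x)) ∂μ = 0 := by
  have e1 : (fun x : UnitAddCircle => St 4 v1 (n * rep (N • x))) = fun x => -(Complex.I / 2) *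
      (((bit (n * N)).indicator (fun _ => (1 : ℝ)) x - 1 / 2 : ℝ) : ℂ) := by
    funext x
    rw [St4]
    congr 3
    have h1 : Int.fract ((n:ℝ) * rep (N • x)) = rep ((n * N) • x) := by
      rw [← rep_nsmul, smul_smul]
    rw [h1]
    by_cases hx : 1 / 4 ≤ rep ((n * N) • x) ∧ rep ((n * N) • x) < 3 / 4
    · rw [if_pos hx, Set.indicator_of_mem]
      exact hx
    · rw [if_neg hx, Set.indicator_of_notMem]
      exact hx
  have hi : Integrable (fun x => (bit (n * N)).indicator (fun _ => (1 : ℝ)) x - 1 / 2) μ :=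
    ((integrable_const (1:ℝ)).indicator (measurableSet_bit _)).sub (integrable_const _)
  constructor
  · rw [e1]
    exact hi.ofReal.const_mul _
  · have h2 : ∫ x, (((bit (n * N)).indicator (fun _ => (1 : ℝ)) x - 1 / 2 : ℝ) : ℂ) ∂μ =
        ((∫ x, ((bit (n * N)).indicator (fun _ => (1 : ℝ)) x - 1 / 2) ∂μ : ℝ) : ℂ) := integral_complex_ofReal
    rw [e1, integral_const_mul, h2, integral_sub ((integrable_const (1:ℝ)).indicator (measurableSet_bit _))
      (integrable_const _), integral_indicator_const _ (measurableSet_bit _), h]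
    simp

/-- **inversion** -/
theorem re_small {ε : ℝ} (hε : 0 < ε) : ∃ K : ℕ, ∀ (μ : Measure UnitAddCircle) [IsProbabilityMeasure μ] (N : ℕ),
    (∀ k : ℕ, 1 ≤ k → k ≤ K → ¬ 2 ∣ k → μ.real (bit (k * N)) = 1 / 2) → |(cf μ N).re| ≤ ε := by
  have g := good4
  obtain ⟨J, hJ⟩ := approx 4 chi4 v1 (-1) g.hc g.per g.bd g.mul g.one g.hs g.add g.add' (ε / Real.pi) (by positivity)
  refine ⟨2 ^ J, fun μ _ N h => ?_⟩
  have hJ := hJ J le_rfl
  -- the mean of the sum is zero
  have hterm : ∀ n ∈ Ico 1 (2 ^ J), Integrable (fun x => ((muR n : ℝ) : ℂ) * chi4 n / n * St 4 v1 (n * rep (N • x))) μ ∧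
      ∫ x, ((muR n : ℝ) : ℂ) * chi4 n / n * St 4 v1 (n * rep (N • x)) ∂μ = 0 := by
    intro n hn
    rw [mem_Ico] at hn
    by_cases h2 : 2 ∣ n
    · have h0 : chi4 n = 0 := by
        by_contra hne
        have h3 := g.cop n hne
        have h4 : (2 : ℕ) ∣ Nat.gcd n 4 := Nat.dvd_gcd h2 (by norm_num)
        rw [Nat.Coprime] at h3
        rw [h3] at h4
        omega
      simp [h0]
    · obtain ⟨h3, h4⟩ := int_St μ n N (h n hn.1 hn.2.le h2)
      exact ⟨h3.const_mul _, by rw [integral_const_mul, h4, mul_zero]⟩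
  have hTT : (fun x : UnitAddCircle => TT 4 chi4 v1 J (rep (N • x))) = fun x =>
      ∑ n ∈ Ico 1 (2 ^ J), ((muR n : ℝ) : ℂ) * chi4 n / n * St 4 v1 (n * rep (N • x)) := by
    funext x
    exact TT_eq 4 chi4 v1 J _
  have hTTi : Integrable (fun x : UnitAddCircle => TT 4 chi4 v1 J (rep (N • x))) μ := by
    rw [hTT]
    exact integrable_finsetSum _ fun n hn => (hterm n hn).1
  have hTT0 : ∫ x, TT 4 chi4 v1 J (rep (N • x)) ∂μ = 0 := by
    rw [hTT, integral_finsetSum _ fun n hn => (hterm n hn).1]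
    exact sum_eq_zero fun n hn => (hterm n hn).2
  have hcos : ∀ x : UnitAddCircle, Complex.I / (2 * Real.pi) * (e (rep (N • x)) - (-1) * e (-rep (N • x))) =
      Complex.I / Real.pi * ((Real.cos (2 * Real.pi * rep (N • x)) : ℝ) : ℂ) := by
    intro x
    rw [cos_eq]
    have hpi : (Real.pi : ℂ) ≠ 0 := by exact_mod_cast Real.pi_ne_zero
    field_simp
    ring
  have hci : Integrable (fun x : UnitAddCircle => Real.cos (2 * Real.pi * rep (N • x))) μ := by
    refine Integrable.of_bound (Measurable.aestronglyMeasurable ?_) 1 (Eventually.of_forall fun x => ?_)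
    · exact Real.measurable_cos.comp ((measurable_rep.comp (cont_nsmul N).measurable).const_mul _)
    · rw [Real.norm_eq_abs]
      exact Real.abs_cos_le_one _
  have hci' : Integrable (fun x : UnitAddCircle => ((Real.cos (2 * Real.pi * rep (N • x)) : ℝ) : ℂ)) μ := hci.ofReal
  have hco : ∫ x : UnitAddCircle, ((Real.cos (2 * Real.pi * rep (N • x)) : ℝ) : ℂ) ∂μ =
      ((∫ x : UnitAddCircle, Real.cos (2 * Real.pi * rep (N • x)) ∂μ : ℝ) : ℂ) := integral_complex_ofReal
  have h1 : ‖∫ x, (TT 4 chi4 v1 J (rep (N • x)) -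
      Complex.I / Real.pi * ((Real.cos (2 * Real.pi * rep (N • x)) : ℝ) : ℂ)) ∂μ‖ ≤ ε / Real.pi := by
    have := norm_integral_le_of_norm_le_const (μ := μ) (C := ε / Real.pi) (f := fun x => TT 4 chi4 v1 J (rep (N • x)) -
      Complex.I / Real.pi * ((Real.cos (2 * Real.pi * rep (N • x)) : ℝ) : ℂ)) (Eventually.of_forall fun x => by
        rw [← hcos]
        exact hJ _)
    simpa using this
  rw [integral_sub hTTi (hci'.const_mul _), hTT0, integral_const_mul, hco, zero_sub, norm_neg,
    norm_mul, norm_div, Complex.norm_I, Complex.norm_real, Complex.norm_real, Real.norm_of_nonneg Real.pi_pos.le,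
    ← cf_re, Real.norm_eq_abs, one_div, ← div_eq_inv_mul, div_le_div_iff_of_pos_right Real.pi_pos] at h1
  exact h1

end Pool.Agent.U349.OT
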