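import Pool.Agent.U349.OT.Twist
import Pool.Agent.U106.FC.ErgEx

/-!
# Ergodic components with a given inequality
-/

set_option autoImplicit false

namespace Pool.Agent.U349.OT

open Filter Topology MeasureTheory ProbabilityTheory
open scoped ENNReal
open Pool.Agent.U106.FC

theorem exists_comp {p q : ℕ} (hp : 2 ≤ p) {μ : Measure UnitAddCircle} [IsProbabilityMeasure μ]
    (hat : ∀ x, μ {x} = 0) (hS : MeasurePreserving (mul p) μ μ) (hT : MeasurePreserving (mul q) μ μ)
    {F : UnitAddCircle → ℝ} (hF : Integrable F μ) (hneg : ∫ x, F x ∂μ < ∫ x, F x) :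
    ∃ κ : Measure UnitAddCircle, Exceptional p q κ ∧ ∫ x, F x ∂κ < ∫ x, F x := by
  by_contra hcon
  push Not at hcon
  have hS' : MeasurePreserving (cm p) μ μ := hS
  have hT' : MeasurePreserving (cm q) μ μ := hT
  have h1 := condExp_ae_eq_integral_condExpKernel (J_le hS' hT') hF
  have h2 : ∀ᵐ x ∂μ, ∫ y, F y ≤ (μ[F | J hS' hT']) x := by
    filter_upwards [h1, comp_inv hS' hT', comp_ergodic hS' hT', comp_atomless hS' hT' hp hat] with
      x hx1 hx2 hx3 hx4
    rw [hx1]
    change ∫ y, F y ≤ ∫ y, F y ∂(comp hS' hT' x)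
    by_cases hv : comp hS' hT' x = volume
    · rw [hv]
    · exact hcon _ ⟨inferInstance, hx4, hx2.1, hx2.2, hx3, hv⟩
  have h3 : ∫ _x, (∫ y, F y) ∂μ ≤ ∫ x, (μ[F | J hS' hT']) x ∂μ :=
    integral_mono_ae (integrable_const _) integrable_condExp h2
  rw [integral_condExp (J_le hS' hT')] at h3
  simp only [integral_const, probReal_univ, smul_eq_mul, one_mul] at h3
  exact absurd h3 (not_le.2 hneg)

end Pool.Agent.U349.OT
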