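import Mathlib

/-!
# A set not contained in a closed half space, unless in its boundary
-/

set_option autoImplicit false

namespace Pool.Agent.U349.OT

open Set Filter Topology

theorem hull_span {E : Type*} [NormedAddCommGroup E] [NormedSpace ℝ E] [FiniteDimensional ℝ E] {V : Set E}
    (hne : V.Nonempty) (hs : Submodule.span ℝ V = ⊤)
    (h : ∀ c : E →ₗ[ℝ] ℝ, (∀ v ∈ V, 0 ≤ c v) → ∀ v ∈ V, c v = 0) : (0 : E) ∈ interior (convexHull ℝ V) := by
  have hzero : ∀ c : E →ₗ[ℝ] ℝ, (∀ v ∈ V, c v = 0) → c = 0 := by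
    intro c hc
    have h1 : Submodule.span ℝ V ≤ LinearMap.ker c := Submodule.span_le.2 fun v hv => LinearMap.mem_ker.2 (hc v hv)
    rw [hs] at h1
    exact LinearMap.ker_eq_top.1 (top_le_iff.1 h1)
  have haff : affineSpan ℝ V = ⊤ := by
    by_contra hna
    have hd : (affineSpan ℝ V).direction < ⊤ := by
      refine lt_top_iff_ne_top.2 fun h1 => hna ?_
      exact (AffineSubspace.direction_eq_top_iff_of_nonempty ((affineSpan_nonempty ℝ).2 hne)).1 h1
    obtain ⟨c, hc0, hc⟩ := Submodule.exists_le_ker_of_lt_top _ hd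
    obtain ⟨v₀, hv₀⟩ := hne
    have hconst : ∀ v ∈ V, c v = c v₀ := by
      intro v hv
      have h1 : v -ᵥ v₀ ∈ (affineSpan ℝ V).direction :=
        AffineSubspace.vsub_mem_direction (subset_affineSpan ℝ V hv) (subset_affineSpan ℝ V hv₀)
      have h2 := LinearMap.mem_ker.1 (hc h1)
      rw [vsub_eq_sub, map_sub] at h2
      linarith
    rcases le_total 0 (c v₀) with h0 | h0
    · exact hc0 (hzero c (h c fun v hv => by rw [hconst v hv]; exact h0))
    · refine hc0 (hzero c fun v hv => ?_)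
      have h3 := h (-c) (fun v hv => by rw [LinearMap.neg_apply, hconst v hv]; linarith) v hv
      rw [LinearMap.neg_apply] at h3
      linarith
  have hint := interior_convexHull_nonempty_iff_affineSpan_eq_top.2 haff
  by_contra h0'
  have hcv : Convex ℝ (convexHull ℝ V) := convex_convexHull ℝ V
  obtain ⟨g, hg⟩ := geometric_hahn_banach_open_point hcv.interior isOpen_interior h0'
  rw [map_zero] at hg
  have hle : ∀ v ∈ convexHull ℝ V, g v ≤ 0 := by
    intro v hv
    have h1 : v ∈ closure (interior (convexHull ℝ V)) := by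
      rw [hcv.closure_interior_eq_closure_of_nonempty_interior hint]
      exact subset_closure hv
    have h2 : IsClosed {w : E | g w ≤ 0} := isClosed_le g.continuous continuous_const
    exact closure_minimal (fun w hw => (hg w hw).le) h2 h1
  have h5 := hzero (-(g : E →ₗ[ℝ] ℝ)) (h _ fun v hv => by
    rw [LinearMap.neg_apply]
    exact neg_nonneg.2 (hle v (subset_convexHull ℝ V hv)))
  obtain ⟨w, hw⟩ := hint
  have h6 := hg w hw
  have h7 : (-(g : E →ₗ[ℝ] ℝ)) w = 0 := by rw [h5]; rfl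
  rw [LinearMap.neg_apply] at h7
  have h8 : (g : E →ₗ[ℝ] ℝ) w = g w := rfl
  rw [h8] at h7
  linarith

theorem hull {E : Type*} [NormedAddCommGroup E] [NormedSpace ℝ E] [FiniteDimensional ℝ E] {V : Set E}
    {v₀ : E} (hv₀ : v₀ ∈ V)
    (h : ∀ c : E →ₗ[ℝ] ℝ, (∀ v ∈ V, 0 ≤ c v) → ∀ v ∈ V, c v = 0) :
    ∃ t : ℝ, 0 < t ∧ -(t • v₀) ∈ convexHull ℝ V := by
  set S := Submodule.span ℝ V with hS
  have h1 : (0 : S) ∈ interior (convexHull ℝ ((↑) ⁻¹' V : Set S)) := by
    apply hull_span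
    · exact ⟨⟨v₀, Submodule.subset_span hv₀⟩, hv₀⟩
    · exact Submodule.span_span_coe_preimage
    · intro c hc v hv
      obtain ⟨c', hc'⟩ := LinearMap.exists_extend c
      have e : ∀ s : S, c' (s : E) = c s := fun s => by
        rw [← hc']
        rfl
      rw [← e]
      exact h c' (fun w hw => by
        have := hc ⟨w, Submodule.subset_span hw⟩ hw
        rwa [← e] at this) v hv
  set s₀ : S := ⟨v₀, Submodule.subset_span hv₀⟩ with hs₀
  have hcont : Continuous fun t : ℝ => -(t • s₀) := by fun_prop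
  have h2 : ∀ᶠ t in 𝓝 (0 : ℝ), -(t • s₀) ∈ convexHull ℝ ((↑) ⁻¹' V : Set S) := by
    apply hcont.continuousAt.preimage_mem_nhds
    rw [zero_smul, neg_zero]
    exact mem_interior_iff_mem_nhds.1 h1
  have h3 : ∀ᶠ t in 𝓝[>] (0 : ℝ), -(t • s₀) ∈ convexHull ℝ ((↑) ⁻¹' V : Set S) :=
    h2.filter_mono nhdsWithin_le_nhds
  obtain ⟨t, ht, ht0⟩ := (h3.and self_mem_nhdsWithin).exists
  refine ⟨t, ht0, ?_⟩
  have h4 : (S.subtype (-(t • s₀))) ∈ S.subtype '' convexHull ℝ ((↑) ⁻¹' V : Set S) := mem_image_of_mem _ ht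
  rw [LinearMap.image_convexHull] at h4
  have h5 : S.subtype (-(t • s₀)) = -(t • v₀) := by
    rw [map_neg, map_smul]
    rfl
  rw [h5] at h4
  refine convexHull_mono ?_ h4
  rintro _ ⟨s, hs, rfl⟩
  exact hs

end Pool.Agent.U349.OT
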