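import Pool.Agent.U349.OT.Fin3
import Pool.Agent.U349.OT.Hull

/-!
# One-sided inequalities for the ergodic measures, all pairs `p, q`; the convex hull
-/

set_option autoImplicit false

namespace Pool.Agent.U349.OT

open Filter Topology MeasureTheory
open scoped ENNReal
open Pool.Agent.U106.FC (Exceptional)

/-- from the exceptional measures to all atomless ones -/
lemma all_of_exc {p q : ℕ} (hp : 2 ≤ p) {f : UnitAddCircle → ℝ} (hf : OI.BV f)
    (h : ∀ κ : Measure UnitAddCircle, Exceptional p q κ → ∫ x, f x ≤ ∫ x, f x ∂κ) :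
    ∀ μ : Measure UnitAddCircle, OI.Inv p q μ → ∫ x, f x ≤ ∫ x, f x ∂μ := by
  intro μ hμ
  obtain ⟨hprob, hat, h2, h3⟩ := hμ
  obtain ⟨D⟩ := exists_rep hf
  by_contra hc
  push Not at hc
  obtain ⟨κ, hκ, h5⟩ := exists_comp (p := p) (q := q) hp hat h2 h3 (int_bv D μ hat) hc
  exact absurd (h κ hκ) (not_le.2 h5)

theorem erg_ge {p q : ℕ} (hp : 2 ≤ p) (hq : 1 ≤ q) {f : UnitAddCircle → ℝ} (hf : OI.BV f)
    (h : ∀ κ : Measure UnitAddCircle, Exceptional p q κ → ∫ x, f x ≤ ∫ x, f x ∂κ) : OI.Right p q f :=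
  one_sided (by omega) hq hf (all_of_exc hp hf h)

theorem erg_le {p q : ℕ} (hp : 2 ≤ p) (hq : 1 ≤ q) {f : UnitAddCircle → ℝ} (hf : OI.BV f)
    (h : ∀ κ : Measure UnitAddCircle, Exceptional p q κ → ∫ x, f x ∂κ ≤ ∫ x, f x) : OI.Right p q f := by
  have h1 := erg_ge hp hq (bv_neg hf) (fun κ hκ => by
    rw [integral_neg, integral_neg]
    exact neg_le_neg (h κ hκ))
  intro μ hμ
  have h2 := h1 μ hμ
  rw [integral_neg, integral_neg] at h2
  linarith

lemma inv_exc {p q : ℕ} {κ : Measure UnitAddCircle} (h : Exceptional p q κ) : OI.Inv p q κ :=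
  ⟨h.1, h.2.1, h.2.2.1, h.2.2.2.1⟩

/-! ### sums of functions of bounded variation -/

lemma bv_add {f g : UnitAddCircle → ℝ} (hf : OI.BV f) (hg : OI.BV g) : OI.BV (fun x => f x + g x) := by
  unfold OI.BV BoundedVariationOn at *
  refine ne_top_of_le_ne_top (ENNReal.add_ne_top.2 ⟨hf, hg⟩) ?_
  refine iSup_le fun u => ?_
  calc ∑ i ∈ Finset.range u.1, edist (f ((u.2.1 (i + 1) : ℝ) : UnitAddCircle) + g ((u.2.1 (i + 1) : ℝ) : UnitAddCircle))
        (f ((u.2.1 i : ℝ) : UnitAddCircle) + g ((u.2.1 i : ℝ) : UnitAddCircle))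
      ≤ ∑ i ∈ Finset.range u.1, (edist (f ((u.2.1 (i + 1) : ℝ) : UnitAddCircle)) (f ((u.2.1 i : ℝ) : UnitAddCircle)) +
          edist (g ((u.2.1 (i + 1) : ℝ) : UnitAddCircle)) (g ((u.2.1 i : ℝ) : UnitAddCircle))) :=
        Finset.sum_le_sum fun i _ => edist_add_add_le _ _ _ _
    _ ≤ _ := by
        rw [Finset.sum_add_distrib]
        exact add_le_add (eVariationOn.sum_le (f := fun t : ℝ => f (t : UnitAddCircle)) u.2.2.1 u.2.2.2)
          (eVariationOn.sum_le (f := fun t : ℝ => g (t : UnitAddCircle)) u.2.2.1 u.2.2.2)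

lemma bv_mul {f : UnitAddCircle → ℝ} (hf : OI.BV f) (c : ℝ) : OI.BV (fun x => c * f x) := by
  unfold OI.BV at hf ⊢
  exact (lipschitzWith_smul c : LipschitzWith ‖c‖₊ fun x : ℝ => c • x).comp_boundedVariationOn hf

lemma bv_zero : OI.BV (fun _ => (0 : ℝ)) := by
  unfold OI.BV BoundedVariationOn
  rw [eVariationOn.constant_on]
  · exact ENNReal.zero_ne_top
  · rintro _ ⟨_, _, rfl⟩ _ ⟨_, _, rfl⟩
    rfl

lemma bv_sum {n : ℕ} {f : Fin n → UnitAddCircle → ℝ} (hf : ∀ i, OI.BV (f i)) (c : Fin n → ℝ) :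
    ∀ s : Finset (Fin n), OI.BV (fun x => ∑ i ∈ s, c i * f i x) := by
  classical
  intro s
  induction s using Finset.induction_on with
  | empty => simpa using bv_zero
  | insert a s ha ih =>
    simp only [Finset.sum_insert ha]
    exact bv_add (bv_mul (hf a) (c a)) ih

/-! ### the convex hull -/

theorem hull_exc {p q : ℕ} (hp : 2 ≤ p) (hq : 1 ≤ q) {n : ℕ} {f : Fin n → UnitAddCircle → ℝ}
    (hf : ∀ i, OI.BV (f i)) {κ₀ : Measure UnitAddCircle} (hκ₀ : Exceptional p q κ₀) :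
    ∃ (ι : Type) (_ : Fintype ι) (t : ℝ) (w : ι → ℝ) (μ : ι → Measure UnitAddCircle), 0 < t ∧ (∀ j, 0 ≤ w j) ∧
      t + ∑ j, w j = 1 ∧ (∀ j, Exceptional p q (μ j)) ∧
      ∀ i, t * ∫ x, f i x ∂κ₀ + ∑ j, w j * ∫ x, f i x ∂(μ j) = ∫ x, f i x := by
  classical
  set V : Set (Fin n → ℝ) := {v | ∃ κ : Measure UnitAddCircle, Exceptional p q κ ∧
    v = fun i => ∫ x, f i x ∂κ - ∫ x, f i x} with hV
  have hvol : ∀ x : UnitAddCircle, (volume : Measure UnitAddCircle) {x} = 0 := fun x => measure_singleton x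
  have hprob : IsProbabilityMeasure (volume : Measure UnitAddCircle) := ⟨UnitAddCircle.measure_univ⟩
  have hint : ∀ (μ : Measure UnitAddCircle), IsProbabilityMeasure μ → (∀ x, μ {x} = 0) → ∀ i, Integrable (f i) μ := by
    intro μ hμ hat i
    obtain ⟨D⟩ := exists_rep (hf i)
    exact int_bv D μ hat
  obtain ⟨t, ht, key⟩ : ∃ t : ℝ, 0 < t ∧ -(t • fun i => ∫ x, f i x ∂κ₀ - ∫ x, f i x) ∈ convexHull ℝ V := by
    refine hull (show (fun i => ∫ x, f i x ∂κ₀ - ∫ x, f i x) ∈ V from ⟨κ₀, hκ₀, rfl⟩) ?_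
    intro c hc
    have hlin : ∀ v : Fin n → ℝ, c v = ∑ i, c (Pi.single i 1) * v i := by
      intro v
      conv_lhs => rw [← Finset.univ_sum_single v]
      rw [map_sum]
      refine Finset.sum_congr rfl fun i _ => ?_
      have e : (Pi.single i (v i) : Fin n → ℝ) = v i • Pi.single i (1 : ℝ) := by
        rw [← Pi.single_smul, smul_eq_mul, mul_one]
      rw [e, map_smul, smul_eq_mul, mul_comm]
    have hval : ∀ κ : Measure UnitAddCircle, Exceptional p q κ →
        c (fun i => ∫ x, f i x ∂κ - ∫ x, f i x) =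
          ∫ x, (∑ i, c (Pi.single i 1) * f i x) ∂κ - ∫ x, (∑ i, c (Pi.single i 1) * f i x) := by
      intro κ hκ
      rw [hlin, integral_finsetSum _ (fun i _ => (hint κ hκ.1 hκ.2.1 i).const_mul _),
        integral_finsetSum _ (fun i _ => (hint volume hprob hvol i).const_mul _), ← Finset.sum_sub_distrib]
      refine Finset.sum_congr rfl fun i _ => ?_
      rw [integral_const_mul, integral_const_mul, mul_sub]
    have hR := erg_ge hp hq (bv_sum hf (fun i => c (Pi.single i 1)) Finset.univ) (fun κ hκ => by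
      have h1 := hc _ ⟨κ, hκ, rfl⟩
      rw [hval κ hκ] at h1
      linarith)
    rintro _ ⟨κ, hκ, rfl⟩
    rw [hval κ hκ, hR κ (inv_exc hκ), sub_self]
  rw [mem_convexHull_iff_exists_fintype] at key
  obtain ⟨ι, hι, w, z, hw0, hw1, hz, hsum⟩ := key
  choose μ hμ hzμ using hz
  have ht1 : 0 < 1 + t := by linarith
  refine ⟨ι, hι, t / (1 + t), fun j => w j / (1 + t), μ, div_pos ht ht1, fun j => div_nonneg (hw0 j) ht1.le, ?_, hμ,
    fun i => ?_⟩
  · rw [← Finset.sum_div, hw1, ← add_div, add_comm t 1]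
    exact div_self ht1.ne'
  have h1 := congrFun hsum i
  simp only [Finset.sum_apply, Pi.smul_apply, smul_eq_mul, Pi.neg_apply] at h1
  simp only [hzμ, mul_sub] at h1
  rw [Finset.sum_sub_distrib, ← Finset.sum_mul, hw1, one_mul] at h1
  have h2 : ∑ j, w j / (1 + t) * ∫ x, f i x ∂(μ j) = (∑ j, w j * ∫ x, f i x ∂(μ j)) / (1 + t) := by
    rw [Finset.sum_div]
    refine Finset.sum_congr rfl fun j _ => ?_
    ring
  rw [h2, div_mul_eq_mul_div, ← add_div, div_eq_iff ht1.ne']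
  linarith

/-! ### the nontrivial case for sets -/

lemma not_triv_set' {p q : ℕ} (hp : p.Prime) (hq : q.Prime) (hpq : p ≠ q) {J : Set UnitAddCircle}
    (hJm : MeasurableSet J) (hJ : OI.BV (J.indicator fun _ => (1 : ℝ)))
    (h0 : (volume : Measure UnitAddCircle).real J ≠ 0) (h1 : (volume : Measure UnitAddCircle).real J ≠ 1) :
    ¬ OI.Triv p q (J.indicator fun _ => (1 : ℝ)) := by
  have hint : ∀ μ : Measure (AddCircle (1 : ℝ)), ∫ x, J.indicator (fun _ => (1 : ℝ)) x ∂μ = μ.real J := by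
    intro μ
    rw [integral_indicator_const _ hJm, smul_eq_mul, mul_one]
  obtain ⟨ε, hε, hc⟩ := Pool.Agent.U408.BV.t_LIM
    (fun t : ℝ => J.indicator (fun _ => (1 : ℝ)) (t : AddCircle (1 : ℝ))) hJ (fun t => by
      by_cases h : (t : AddCircle (1 : ℝ)) ∈ J
      · right; exact Set.indicator_of_mem h _
      · left; exact Set.indicator_of_notMem h _)
  have hmem : Set.Ioo (0 : ℝ) ε ∈ 𝓝[>] (0 : ℝ) := Ioo_mem_nhdsGT hε
  rcases hc with hc | hc
  · refine OI.crit hp hq hpq _ (Or.inl hJ) 0 ?_ (by rw [hint]; exact h0.symm)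
    refine tendsto_const_nhds.congr' ?_
    filter_upwards [hmem] with t ht
    exact (hc t ht).symm
  · refine OI.crit hp hq hpq _ (Or.inl hJ) 1 ?_ (by rw [hint]; exact h1.symm)
    refine tendsto_const_nhds.congr' ?_
    filter_upwards [hmem] with t ht
    exact (hc t ht).symm

/-- the equivalences for one nontrivial function -/
theorem one_tfae {p q : ℕ} (hp : p.Prime) (hq : q.Prime) (hpq : p ≠ q) {f : UnitAddCircle → ℝ}
    (hf : OI.BV f) (ht : ¬ OI.Triv p q f) :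
    List.TFAE [OI.Conj p q, ∀ κ : Measure UnitAddCircle, ¬ Exceptional p q κ,
      ∀ κ : Measure UnitAddCircle, Exceptional p q κ → ∫ x, f x ≤ ∫ x, f x ∂κ,
      ∀ κ : Measure UnitAddCircle, Exceptional p q κ → ∫ x, f x ∂κ ≤ ∫ x, f x, OI.Right p q f] := by
  have hdec := OI.dec_case hp hq hpq f (Or.inl hf) ht
  tfae_have 1 → 2 := fun h κ hκ => hκ.2.2.2.2.2 (h κ (inv_exc hκ))
  tfae_have 2 → 3 := fun h κ hκ => absurd hκ (h κ)
  tfae_have 2 → 4 := fun h κ hκ => absurd hκ (h κ)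
  tfae_have 3 → 5 := erg_ge hp.two_le hq.one_le hf
  tfae_have 4 → 5 := erg_le hp.two_le hq.one_le hf
  tfae_have 5 → 1 := hdec.1
  tfae_finish

end Pool.Agent.U349.OT
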