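import Pool.Agent.U349.OT.Mix
import Pool.Agent.U798.OP.H

/-!
# The conjecture and one-sided inequalities
-/

set_option autoImplicit false

namespace Pool.Agent.U349.OT

open Filter Topology MeasureTheory
open Pool.Agent.U106.TR
open Pool.Agent.U106.FC (mul cont_mul co co_map co_vol Exceptional exceptional_map exists_exceptional_lift)

lemma joint_of {μ : Measure UnitAddCircle} (h : Exceptional 2 3 μ) : Pool.Agent.U798.FA.Joint 2 3 μ :=
  ⟨h.1, ⟨h.2.1⟩, h.2.2.1, h.2.2.2.1⟩

/-- equality on the exceptional measures gives equality on all the atomless ones -/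
lemma joint_mass {α β : ℝ} (h0 : 0 ≤ α) (h1 : α ≤ β) (h2 : β ≤ 1)
    (h : ∀ κ : Measure UnitAddCircle, Exceptional 2 3 κ → κ.real (seg α β) = β - α) :
    ∀ μ : Measure UnitAddCircle, Pool.Agent.U798.FA.Joint 2 3 μ → μ.real (seg α β) = β - α := by
  intro μ hμ
  have hprob := hμ.1
  have hat : ∀ x, μ {x} = 0 := fun x => hμ.2.1.measure_singleton x
  have hi : Inv μ := ⟨hμ.2.2.1, hμ.2.2.2⟩
  have h3 := DD_all (a := (α : UnitAddCircle)) (b := (β : UnitAddCircle)) (fun κ hκ => by
    have := hκ.1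
    rw [DD_seg h0 h1 h2, h κ hκ, sub_self]) hat hi
  have h4 := DD_all (a := (β : UnitAddCircle)) (b := (α : UnitAddCircle)) (fun κ hκ => by
    have := hκ.1
    have e : DD (β : UnitAddCircle) (α : UnitAddCircle) κ = -DD (α : UnitAddCircle) (β : UnitAddCircle) κ := by
      unfold DD; ring
    rw [e, DD_seg h0 h1 h2, h κ hκ, sub_self, neg_zero]) hat hi
  have e : DD (β : UnitAddCircle) (α : UnitAddCircle) μ = -DD (α : UnitAddCircle) (β : UnitAddCircle) μ := by
    unfold DD; ring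
  rw [e] at h4
  have h5 := DD_seg h0 h1 h2 μ
  linarith

/-- one arc suffices -/
theorem none_of_arc {α β : ℝ} (h0 : 0 ≤ α) (h1 : α < β) (h2 : β ≤ 1) (e1 : ¬ (α = 0 ∧ β = 1))
    (e2 : ¬ (α = 0 ∧ β = 1 / 2)) (e3 : ¬ (α = 1 / 2 ∧ β = 1))
    (h : ∀ κ : Measure UnitAddCircle, Exceptional 2 3 κ → κ.real (seg α β) = β - α) :
    ∀ κ : Measure UnitAddCircle, ¬ Exceptional 2 3 κ := by
  have h3 := (Pool.Agent.U798.OP.every_arc Nat.prime_two Nat.prime_three (by norm_num) α β h0 h1 h2 e1 e2 e3).1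
    (joint_mass h0 h1.le h2 h)
  intro κ hκ
  exact hκ.2.2.2.2.2 (h3 κ (joint_of hκ))

/-- the half circle -/
theorem sym_of_half (h : ∀ κ : Measure UnitAddCircle, Exceptional 2 3 κ → κ.real (seg 0 (1 / 2)) = 1 / 2) :
    ∀ κ : Measure UnitAddCircle, Exceptional 2 3 κ → κ.map (fun x => -x) = κ := by
  have h3 := joint_mass (α := 0) (β := 1 / 2) le_rfl (by norm_num) (by norm_num)
    (fun κ hκ => by rw [h κ hκ]; norm_num)
  have h4 := (Pool.Agent.U798.FA.half_arc 2 3).1 (fun μ hμ => by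
    have h5 := h3 μ hμ
    rw [sub_zero] at h5
    exact h5)
  intro κ hκ
  exact h4 κ (joint_of hκ)

lemma half_of_sym {μ : Measure UnitAddCircle} [IsProbabilityMeasure μ] (hat : ∀ x, μ {x} = 0)
    (h : μ.map (fun x => -x) = μ) : μ.real (seg 0 (1 / 2)) = 1 / 2 := by
  have h1 := DD_neg hat ((0 : ℝ) : UnitAddCircle) ((1 / 2 : ℝ) : UnitAddCircle)
  have e0 : -((0 : ℝ) : UnitAddCircle) = ((0 : ℝ) : UnitAddCircle) := by simp
  have e1 : -((1 / 2 : ℝ) : UnitAddCircle) = ((1 / 2 : ℝ) : UnitAddCircle) := by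
    rw [neg_eq_iff_add_eq_zero, ← AddCircle.coe_add]
    have : (1 / 2 + 1 / 2 : ℝ) = 1 := by norm_num
    rw [this]
    exact AddCircle.coe_period 1
  rw [h, e0, e1] at h1
  have h2 := DD_seg (α := 0) (β := 1 / 2) le_rfl (by norm_num) (by norm_num) μ
  rw [sub_zero] at h2
  linarith

lemma sym_iff_real {μ : Measure UnitAddCircle} [IsProbabilityMeasure μ] :
    μ.map (fun x => -x) = μ ↔ ∀ n : ℤ, (co μ n).im = 0 := by
  have hp : IsProbabilityMeasure (μ.map (fun x => -x)) := Measure.isProbabilityMeasure_map measurable_neg.aemeasurable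
  have key : ∀ n : ℤ, co (μ.map (fun x => -x)) n = (starRingEnd ℂ) (co μ n) := by
    intro n
    have e : ∫ x, (fourier n x : ℂ) ∂(μ.map fun x => -x) = ∫ x, (fourier n (-x) : ℂ) ∂μ :=
      integral_map (f := fun x => (fourier n x : ℂ)) measurable_neg.aemeasurable
        (fourier n).continuous.aestronglyMeasurable
    unfold co
    rw [e]
    have h2 := cf_neg μ n
    unfold cf at h2
    rw [← h2]
    refine integral_congr_ae (Eventually.of_forall fun x => ?_)
    simp only
    rw [fourier_apply, fourier_apply, smul_neg, neg_smul]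
  constructor
  · intro h n
    have h1 := key n
    rw [h] at h1
    exact Complex.conj_eq_iff_im.1 h1.symm
  · intro h
    refine Pool.Agent.R202.ext_fourier fun n => ?_
    exact (key n).trans (Complex.conj_eq_iff_im.2 (h n))

end Pool.Agent.U349.OT
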