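import Pool.Agent.U349.OT.Mix2
import Pool.Agent.U349.OT.OI

/-!
# Translations, arcs and mean zero traces
-/

set_option autoImplicit false

namespace Pool.Agent.U349.OT

open Filter Topology MeasureTheory
open Pool.Agent.U106.TR
open Pool.Agent.U106.FC (mul cont_mul co co_map co_vol Exceptional exceptional_map exists_exceptional_lift
  wiener_atomless atomless_of_wiener exists_exceptional)

/-- `μ` is the spectral measure of `g` -/
def SpecAt (φ : G → ℂ) (g : G) (μ : Measure UnitAddCircle) : Prop :=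
  IsProbabilityMeasure μ ∧ ∀ n : ℤ, φ (g ^ n) = ∫ x, (fourier n x : ℂ) ∂μ

lemma zpow_form {g : G} (hg : sl g = 1) (n : ℤ) : sl (g ^ n) = 1 ∧ of (g ^ n) = n * of g := by
  have key : ∀ k : ℕ, sl (g ^ k) = 1 ∧ of (g ^ k) = k * of g := by
    intro k
    induction k with
    | zero => simp [sl_one, of_one]
    | succ k ih =>
      rw [pow_succ, sl_mul, of_mul, hg, ih.1, ih.2]
      constructor
      · norm_num
      · push_cast; ring
  obtain ⟨k, rfl | rfl⟩ := n.eq_nat_or_neg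
  · rw [zpow_natCast]
    refine ⟨(key k).1, ?_⟩
    rw [(key k).2]; simp
  · rw [zpow_neg, zpow_natCast, sl_inv, of_inv, (key k).1, (key k).2]
    constructor
    · norm_num
    · push_cast; ring

lemma specAt_unique {φ : G → ℂ} {g : G} {μ ν : Measure UnitAddCircle} (h1 : SpecAt φ g μ) (h2 : SpecAt φ g ν) :
    μ = ν := by
  have := h1.1
  have := h2.1
  refine Pool.Agent.R202.ext_fourier fun n => ?_
  rw [← h1.2 n, ← h2.2 n]

lemma specAt_of {φ : G → ℂ} {κ : Measure UnitAddCircle} (hp : IsProbabilityMeasure κ) (hi : Inv κ)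
    (ht : ∀ g, sl g = 1 → φ g = traceOf κ g) {g : G} (hg : sl g = 1) : SpecAt φ g (κ.map (zm (nn g))) := by
  refine ⟨prob_zm _ κ, fun n => ?_⟩
  have h3 := zpow_form hg n
  change φ (g ^ n) = co (κ.map (zm (nn g))) n
  rw [ht _ h3.1, co_zm, traceOf, if_pos h3.1]
  obtain ⟨k, hk⟩ := nn_spec g
  refine val_eq hi (n := n * nn g) (k := k) ?_
  rw [h3.2, hk]
  push_cast
  ring

lemma exists_specAt {φ : G → ℂ} (hφ : φ ∈ Traces) {g : G} (hg : sl g = 1) : ∃ μ, SpecAt φ g μ := by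
  obtain ⟨κ, hp, hi, ht, -⟩ := exists_meas' hφ
  exact ⟨_, specAt_of hp hi ht hg⟩

/-- lifts under multiplication by an integer -/
lemma lift_zm {n : ℤ} (hn : n ≠ 0) {μ : Measure UnitAddCircle} (hμ : Exceptional 2 3 μ) :
    ∃ ν : Measure UnitAddCircle, Exceptional 2 3 ν ∧ ν.map (zm n) = μ := by
  have hn1 : 1 ≤ n.natAbs := Int.natAbs_pos.2 hn
  rcases Int.natAbs_eq n with e | e
  · obtain ⟨ν, hν, h⟩ := exists_exceptional_lift hn1 hμ
    refine ⟨ν, hν, ?_⟩
    rw [e, map_zm_nat, h]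
  · obtain ⟨ν, hν, h⟩ := exists_exceptional_lift hn1 (exceptional_neg hμ)
    refine ⟨ν, hν, ?_⟩
    rw [e, map_zm_neg, map_zm_nat, h, map_neg_neg]

lemma none_of_masses {α β : ℝ} (h0 : 0 ≤ α) (h1 : α < β) (h2 : β ≤ 1) (hne : β - α ≠ 1)
    (h : ∀ κ : Measure UnitAddCircle, Exceptional 2 3 κ → κ.real (seg α β) = β - α) :
    ∀ κ : Measure UnitAddCircle, ¬ Exceptional 2 3 κ := by
  have h3 := (OI.arc_case Nat.prime_two Nat.prime_three (by norm_num) α β h0 h1 h2 hne).1
    (fun μ hμ => joint_mass h0 h1.le h2 h μ ((OI.inv_iff 2 3 μ).1 hμ))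
  intro κ hκ
  exact hκ.2.2.2.2.2 (h3 κ ⟨hκ.1, hκ.2.1, hκ.2.2.1, hκ.2.2.2.1⟩)

/-- one translation and one arc -/
theorem none_of_zm {n : ℤ} (hn : n ≠ 0) {α β : ℝ} (h0 : 0 ≤ α) (h1 : α < β) (h2 : β ≤ 1) (hne : β - α ≠ 1)
    {t : ℝ} (ht : t ≠ 0)
    (h : ∀ κ : Measure UnitAddCircle, Exceptional 2 3 κ → 0 ≤ t * ((κ.map (zm n)).real (seg α β) - (β - α))) :
    ∀ κ : Measure UnitAddCircle, ¬ Exceptional 2 3 κ := by
  refine none_of_masses h0 h1 h2 hne fun μ hμ => ?_
  obtain ⟨ν, hν, rfl⟩ := lift_zm hn hμ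
  have h3 := mixZ (n := 1) (s := fun _ => n) (fun _ => hn) (t := fun _ => t) (a := fun _ => (α : UnitAddCircle))
    (b := fun _ => (β : UnitAddCircle)) (c := 0) (fun κ hκ => by
      have := hκ.1
      have := prob_zm n κ
      unfold WZ VZ
      rw [Fin.sum_univ_one, DD_seg h0 h1.le h2]
      have e : ∀ φ : G → ℂ, reVal φ 0 = 0 := by
        intro φ
        unfold reVal
        simp
      rw [e, e, sub_self, add_zero]
      exact h κ hκ) ν hν
  have := hν.1
  have := prob_zm n ν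
  have h4 := h3.1
  unfold VZ at h4
  rw [Fin.sum_univ_one, DD_seg h0 h1.le h2] at h4
  have h5 := (mul_eq_zero.1 h4).resolve_left ht
  linarith

/-- one translation and one direction -/
theorem none_of_dir {g : G} (hs : sl g = 1) (hn : nn g ≠ 0) {z : ℂ} (hz : z ≠ 0)
    (h : ∀ κ : Measure UnitAddCircle, Exceptional 2 3 κ → 0 ≤ (z * traceOf κ g).re) :
    ∀ κ : Measure UnitAddCircle, ¬ Exceptional 2 3 κ := by
  have hv : ∀ φ : G → ℂ, reVal φ (Finsupp.single g z) = (z * φ g).re := by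
    intro φ
    unfold reVal
    rw [Finsupp.sum_single_index (by simp)]
  have hg1 : g ≠ 1 := by
    rintro rfl
    exact hn nn_one
  have hr : reg g = 0 := by rw [reg, Set.indicator_of_notMem (by simpa using hg1)]
  have h1 := side (Finsupp.single g z) (fun κ hκ => by
    rw [hv, hv, hr, mul_zero, Complex.zero_re]
    exact h κ hκ)
  have h2 : ∀ μ : Measure UnitAddCircle, Exceptional 2 3 μ → ∀ k : ℕ, 1 ≤ k → (z * co μ k).re = 0 := by
    intro μ hμ k hk
    obtain ⟨ν, hν, rfl⟩ := lift_zm hn hμ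
    have h3 := h1 _ (exceptional_map le_rfl hk hν)
    rw [hv, hv, hr, mul_zero, Complex.zero_re, traceOf_eq, if_pos hs, co_map] at h3
    rw [co_zm, mul_comm ((k : ℕ) : ℤ) (nn g)]
    exact h3
  have hneg : ∀ (μ : Measure UnitAddCircle) (k : ℤ), co (μ.map (fun x => -x)) k = (starRingEnd ℂ) (co μ k) := by
    intro μ k
    have e : ∫ x, (fourier k x : ℂ) ∂(μ.map fun x => -x) = ∫ x, (fourier k (-x) : ℂ) ∂μ :=
      integral_map (f := fun x => (fourier k x : ℂ)) measurable_neg.aemeasurable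
        (fourier k).continuous.aestronglyMeasurable
    have h2 := cf_neg μ k
    unfold cf at h2
    unfold co
    rw [e, ← h2]
    refine integral_congr_ae (Eventually.of_forall fun x => ?_)
    simp only
    rw [fourier_apply, fourier_apply, smul_neg, neg_smul]
  have h3 : ∀ μ : Measure UnitAddCircle, Exceptional 2 3 μ → ∀ k : ℕ, 1 ≤ k →
      z.re * (co μ k).re = 0 ∧ z.im * (co μ k).im = 0 := by
    intro μ hμ k hk
    have a1 := h2 μ hμ k hk
    have a2 := h2 _ (exceptional_neg hμ) k hk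
    rw [hneg] at a2
    rw [Complex.mul_re] at a1 a2
    rw [Complex.conj_re, Complex.conj_im] at a2
    constructor <;> linarith
  by_cases hzr : z.re = 0
  · have hzi : z.im ≠ 0 := by
      intro h4
      exact hz (Complex.ext hzr h4)
    refine none_of_masses (α := 0) (β := 1 / 2) le_rfl (by norm_num) (by norm_num) (by norm_num) fun μ hμ => ?_
    have hp := hμ.1
    rw [sub_zero]
    refine half_of_sym hμ.2.1 (sym_iff_real.2 fun m => ?_)
    rcases lt_trichotomy m 0 with h4 | h4 | h4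
    · obtain ⟨k, rfl⟩ : ∃ k : ℕ, m = -(k : ℤ) := ⟨m.natAbs, by omega⟩
      have h5 : co μ (-(k : ℤ)) = (starRingEnd ℂ) (co μ k) := cf_neg μ k
      rw [h5, Complex.conj_im, ((mul_eq_zero.1 (h3 μ hμ k (by omega)).2).resolve_left hzi), neg_zero]
    · subst h4
      simp [co]
    · obtain ⟨k, rfl⟩ : ∃ k : ℕ, m = (k : ℤ) := ⟨m.natAbs, by omega⟩
      exact (mul_eq_zero.1 (h3 μ hμ k (by omega)).2).resolve_left hzi
  · refine empty_of_re one_ne_zero fun κ hκ => ?_
    have h4 := (mul_eq_zero.1 (h3 κ hκ 1 le_rfl).1).resolve_left hzr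
    simpa using h4

/-- The trace has mean square zero on the powers of the translation by `1`. -/
def MeanZ (φ : G → ℂ) : Prop :=
  ∀ u : G, (∀ x : ℚ, (u : Equiv.Perm ℚ) x = x + 1) →
    Tendsto (fun N : ℕ => (N : ℝ)⁻¹ * ∑ n ∈ Finset.range N, ‖φ (u ^ n)‖ ^ 2) atTop (𝓝 0)

lemma mean_exc {κ : Measure UnitAddCircle} (h : Exceptional 2 3 κ) : MeanZ (traceOf κ) := by
  intro u hu
  have hp := h.1
  have h1 := wiener_atomless h.2.1
  refine h1.congr fun N => ?_
  congr 1
  refine Finset.sum_congr rfl fun n _ => ?_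
  change _ = ‖traceOf κ (u ^ n)‖ ^ 2
  have h2 := zpow_elt hu n
  rw [zpow_natCast] at h2
  rw [co_eq (n := n) ⟨h.2.2.1, h.2.2.2.1⟩ h2.1 h2.2]

lemma mean_reg (h : ∀ κ : Measure UnitAddCircle, ¬ Exceptional 2 3 κ) {φ : G → ℂ} (hφ : φ ∈ Traces)
    (hm : MeanZ φ) : φ = reg := by
  obtain ⟨μ, hp, hi, ht, hv, -⟩ := exists_meas' hφ
  have hat : ∀ x, μ {x} = 0 := by
    apply atomless_of_wiener
    obtain ⟨u, hu⟩ := exists_u
    refine (hm u hu).congr fun N => ?_
    congr 1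
    refine Finset.sum_congr rfl fun n _ => ?_
    have h3 := zpow_elt hu n
    rw [zpow_natCast] at h3
    rw [ht _ h3.1, co_eq (n := n) hi h3.1 h3.2]
  have hvol : μ = volume := by
    by_contra hne
    obtain ⟨κ, hκ⟩ := exists_exceptional (p := 2) (q := 3) le_rfl hat hi.1 hi.2 hne
    exact h κ hκ
  rw [hv hat, hvol, traceOf_vol.2]

lemma specAt_reg {g : G} (hg : sl g = 1) (hn : nn g ≠ 0) : SpecAt reg g volume := by
  have h := traceOf_vol
  have h1 := specAt_of (φ := reg) prob_vol h.1 (fun g _ => by rw [h.2]) hg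
  rw [vol_zm hn] at h1
  exact h1

end Pool.Agent.U349.OT
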