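import Pool.Agent.U349.OT.Gen

/-!
# One translation and one function of bounded variation
-/

set_option autoImplicit false

namespace Pool.Agent.U349.OT

open Filter Topology MeasureTheory
open Pool.Agent.U106.TR
open Pool.Agent.U106.FC (mul cont_mul co co_map co_vol Exceptional exceptional_map exists_exceptional_lift
  wiener_atomless atomless_of_wiener exists_exceptional)

lemma bv_neg {f : UnitAddCircle → ℝ} (hf : OI.BV f) : OI.BV (fun x => -f x) := by
  unfold OI.BV at hf ⊢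
  exact (LipschitzWith.id.neg : LipschitzWith 1 fun x : ℝ => -x).comp_boundedVariationOn hf

lemma inv_of_exc {κ : Measure UnitAddCircle} (h : Exceptional 2 3 κ) : OI.Inv 2 3 κ :=
  ⟨h.1, h.2.1, h.2.2.1, h.2.2.2.1⟩

/-- equality on the exceptional measures gives equality on all the atomless invariant ones -/
lemma right_of_exc {f : UnitAddCircle → ℝ} (hf : OI.BV f)
    (h : ∀ κ : Measure UnitAddCircle, Exceptional 2 3 κ → ∫ x, f x ∂κ = ∫ x, f x) : OI.Right 2 3 f := by
  intro μ hμ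
  obtain ⟨hp, hat, h2, h3⟩ := hμ
  obtain ⟨D⟩ := exists_rep hf
  have hint := int_bv D μ hat
  refine le_antisymm ?_ ?_
  · by_contra hc
    push Not at hc
    have h4 : ∫ x, -f x ∂μ < ∫ x, -f x := by
      rw [integral_neg, integral_neg]
      linarith
    obtain ⟨κ, hκ, h5⟩ := exists_comp (p := 2) (q := 3) (F := fun x => -f x) le_rfl hat h2 h3 hint.neg h4
    rw [integral_neg, integral_neg, h κ hκ] at h5
    exact lt_irrefl _ h5
  · by_contra hc
    push Not at hc
    obtain ⟨κ, hκ, h5⟩ := exists_comp (p := 2) (q := 3) le_rfl hat h2 h3 hint hc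
    rw [h κ hκ] at h5
    exact lt_irrefl _ h5

/-- one-sided inequalities for one translation -/
lemma eq_of_ge {s : ℤ} (hs : s ≠ 0) {f : UnitAddCircle → ℝ} (hf : OI.BV f)
    (h : ∀ κ : Measure UnitAddCircle, Exceptional 2 3 κ → ∫ x, f x ≤ ∫ x, f x ∂(κ.map (zm s))) :
    OI.Right 2 3 f := by
  refine right_of_exc hf fun μ hμ => ?_
  obtain ⟨ν, hν, rfl⟩ := lift_zm hs hμ
  have e : ∀ φ : G → ℂ, reVal φ 0 = 0 := by
    intro φ
    unfold reVal
    simp
  have h3 := bvmix (n := 1) (s := fun _ => s) (fun _ => hs) (f := fun _ => f) (fun _ => hf) (c := 0)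
    (fun κ hκ => by
      unfold WB
      rw [Fin.sum_univ_one, e, e, sub_self, add_zero]
      exact sub_nonneg.2 (h κ hκ)) ν hν
  unfold WB at h3
  rw [Fin.sum_univ_one, e, e, sub_self, add_zero] at h3
  linarith

lemma eq_of_le {s : ℤ} (hs : s ≠ 0) {f : UnitAddCircle → ℝ} (hf : OI.BV f)
    (h : ∀ κ : Measure UnitAddCircle, Exceptional 2 3 κ → ∫ x, f x ∂(κ.map (zm s)) ≤ ∫ x, f x) :
    OI.Right 2 3 f := by
  have h1 := eq_of_ge hs (bv_neg hf) (fun κ hκ => by
    rw [integral_neg, integral_neg]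
    exact neg_le_neg (h κ hκ))
  intro μ hμ
  have h2 := h1 μ hμ
  rw [integral_neg, integral_neg] at h2
  linarith

lemma none_of_conj (h : OI.Conj 2 3) : ∀ κ : Measure UnitAddCircle, ¬ Exceptional 2 3 κ :=
  fun κ hκ => hκ.2.2.2.2.2 (h κ (inv_of_exc hκ))

lemma inv_zm {s : ℤ} (hs : s ≠ 0) {κ : Measure UnitAddCircle} (hp : IsProbabilityMeasure κ)
    (hat : ∀ x, κ {x} = 0) (hi : Inv κ) : OI.Inv 2 3 (κ.map (zm s)) := by
  refine ⟨prob_zm s κ, atomless_zm hs hat, ⟨(cont_mul 2).measurable, ?_⟩, ⟨(cont_mul 3).measurable, ?_⟩⟩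
  · change (κ.map (zm s)).map (mul 2) = _
    rw [← map_zm_mul, hi.1.map_eq]
  · change (κ.map (zm s)).map (mul 3) = _
    rw [← map_zm_mul, hi.2.map_eq]

/-- the trivial case -/
lemma triv_mean {f : UnitAddCircle → ℝ} (hR : OI.Right 2 3 f) {φ : G → ℂ} (hφ : φ ∈ Traces) (hm : MeanZ φ)
    {g : G} (hs : sl g = 1) (hn : nn g ≠ 0) {μ : Measure UnitAddCircle} (hμ : SpecAt φ g μ) :
    ∫ x, f x ∂μ = ∫ x, f x := by
  obtain ⟨κ, hp, hi, ht, -⟩ := exists_meas' hφ
  have hat : ∀ x, κ {x} = 0 := by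
    apply atomless_of_wiener
    obtain ⟨u, hu⟩ := exists_u
    refine (hm u hu).congr fun N => ?_
    congr 1
    refine Finset.sum_congr rfl fun n _ => ?_
    have h3 := zpow_elt hu n
    rw [zpow_natCast] at h3
    rw [ht _ h3.1, co_eq (n := n) hi h3.1 h3.2]
  rw [specAt_unique hμ (specAt_of hp hi ht hs)]
  exact hR _ (inv_zm hn hp hat hi)

/-- the nontrivial case for sets -/
lemma not_triv_set {J : Set UnitAddCircle} (hJm : MeasurableSet J) (hJ : OI.BV (J.indicator fun _ => (1 : ℝ)))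
    (h0 : (volume : Measure UnitAddCircle).real J ≠ 0) (h1 : (volume : Measure UnitAddCircle).real J ≠ 1) :
    ¬ OI.Triv 2 3 (J.indicator fun _ => (1 : ℝ)) := by
  have hint : ∀ μ : Measure (AddCircle (1 : ℝ)), ∫ x, J.indicator (fun _ => (1 : ℝ)) x ∂μ = μ.real J := by
    intro μ
    rw [integral_indicator_const _ hJm, smul_eq_mul, mul_one]
  obtain ⟨ε, hε, hc⟩ := Pool.Agent.U408.BV.t_LIM
    (fun t : ℝ => J.indicator (fun _ => (1 : ℝ)) (t : AddCircle (1 : ℝ))) hJ (fun t => by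
      by_cases h : (t : AddCircle (1 : ℝ)) ∈ J
      · right; exact Set.indicator_of_mem h _
      · left; exact Set.indicator_of_notMem h _)
  have hmem : Set.Ioo (0 : ℝ) ε ∈ 𝓝[>] (0 : ℝ) := Ioo_mem_nhdsGT hε
  rcases hc with hc | hc
  · refine OI.crit Nat.prime_two Nat.prime_three (by norm_num) _ (Or.inl hJ) 0 ?_ (by rw [hint]; exact h0.symm)
    refine tendsto_const_nhds.congr' ?_
    filter_upwards [hmem] with t ht
    exact (hc t ht).symm
  · refine OI.crit Nat.prime_two Nat.prime_three (by norm_num) _ (Or.inl hJ) 1 ?_ (by rw [hint]; exact h1.symm)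
    refine tendsto_const_nhds.congr' ?_
    filter_upwards [hmem] with t ht
    exact (hc t ht).symm

/-- finite unions of arcs -/
lemma bv_arcs {n : ℕ} {α β : Fin n → ℝ} (h : ∀ i, 0 ≤ α i ∧ β i ≤ 1) :
    MeasurableSet (⋃ i, seg (α i) (β i)) ∧ OI.BV ((⋃ i, seg (α i) (β i)).indicator fun _ => (1 : ℝ)) := by
  refine ⟨MeasurableSet.iUnion fun i => meas_seg (h i).1 (h i).2, ?_⟩
  have h2 := Pool.Agent.U429.BV.t_ARCS n α β
  have e : (fun t : ℝ => (⋃ i, seg (α i) (β i)).indicator (fun _ => (1 : ℝ)) (t : UnitAddCircle)) =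
      fun t : ℝ => Set.indicator {t : ℝ | ∃ i, α i ≤ Int.fract t ∧ Int.fract t < β i} (fun _ => (1 : ℝ)) t := by
    funext t
    have hiff : (t : UnitAddCircle) ∈ (⋃ i, seg (α i) (β i)) ↔
        t ∈ {t : ℝ | ∃ i, α i ≤ Int.fract t ∧ Int.fract t < β i} := by
      rw [Set.mem_iUnion]
      refine exists_congr fun i => ?_
      rw [mem_seg (h i).1 (h i).2, rep_coe]
    by_cases hm : (t : UnitAddCircle) ∈ (⋃ i, seg (α i) (β i))
    · rw [Set.indicator_of_mem hm, Set.indicator_of_mem (hiff.1 hm)]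
    · rw [Set.indicator_of_notMem hm, Set.indicator_of_notMem (fun hh => hm (hiff.2 hh))]
  unfold OI.BV
  rw [e]
  exact h2

end Pool.Agent.U349.OT
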