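import Pool.Agent.U349.OT.BVS

/-!
# One-sided inequalities for functions of bounded variation, all atomless invariant measures
-/

set_option autoImplicit false

namespace Pool.Agent.U349.OT

open Filter Topology MeasureTheory
open Pool.Agent.U106.FC (mul cont_mul)

/-- **One-sided inequalities are equalities.** Let `p, q ≥ 1` and let `f` be a function of bounded variation
on the circle with `∫ f dμ ≥ ∫ f dλ` for all atomless `×p, ×q`-invariant probability measures `μ`. Then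
equality holds for all of them. -/
theorem one_sided {p q : ℕ} (hp : 1 ≤ p) (hq : 1 ≤ q) {f : UnitAddCircle → ℝ} (hf : OI.BV f)
    (h : ∀ μ : Measure UnitAddCircle, OI.Inv p q μ → ∫ x, f x ≤ ∫ x, f x ∂μ) :
    OI.Right p q f := by
  intro μ hμ
  obtain ⟨hprob, hat, hip, hiq⟩ := hμ
  obtain ⟨D⟩ := exists_rep hf
  have hf1 := D.f1
  have hf2 := D.f2
  refine le_antisymm ?_ (h μ ⟨hprob, hat, hip, hiq⟩)
  set r : ℕ := p * q with hr
  have hr1 : 1 ≤ r := Nat.mul_pos hp hq
  set w : ℝ := ∫ x, f x ∂μ - ∫ x, f x with hw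
  set u : ℕ → ℝ := fun m => QT D.θ₂ (r * m + 1) μ - QT D.θ₁ (r * m + 1) μ with hu
  have hineq : ∀ m : ℕ, 1 ≤ m → w ≤ u m := by
    intro m hm
    have hN : r + 1 ≤ r * m + 1 := by
      have := Nat.le_mul_of_pos_right r hm
      omega
    have hN2 : 2 ≤ r * m + 1 := by omega
    have hcopd : ∀ d : ℕ, d ∣ r → Nat.Coprime d (r * m + 1) := by
      intro d hd
      have h1 : d ∣ r * m := hd.mul_right m
      have h2 : Nat.gcd d (r * m + 1) ∣ 1 :=
        (Nat.dvd_add_right ((Nat.gcd_dvd_left _ _).trans h1)).1 (Nat.gcd_dvd_right _ _)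
      exact Nat.dvd_one.1 h2
    have hpt := prob_tw (μ := μ) hN2
    have h4 := h (tw (r * m + 1) μ) ⟨hpt, atomless_tw hat,
      inv_tw hN2 (hcopd p (Nat.dvd_mul_right p q)) hip, inv_tw hN2 (hcopd q (Nat.dvd_mul_left q p)) hiq⟩
    have h5 := rep_int D (tw (r * m + 1) μ) (atomless_tw hat)
    have h6 := rep_int D μ hat
    rw [QT_tw hN2, QT_tw hN2] at h5
    have hpos : (0 : ℝ) < ((r * m + 1 - 1 : ℕ) : ℝ)⁻¹ := by
      apply inv_pos.2
      exact_mod_cast (by omega : 0 < r * m + 1 - 1)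
    have h7 : 0 ≤ ((r * m + 1 - 1 : ℕ) : ℝ)⁻¹ * (u m - w) := by
      have h8 : ((r * m + 1 - 1 : ℕ) : ℝ)⁻¹ * (u m - w) =
          ∫ x, f x ∂(tw (r * m + 1) μ) - ∫ x, f x := by
        rw [h5, hw, h6]
        simp only [hu]
        ring
      rw [h8]
      linarith
    by_contra hc
    push Not at hc
    nlinarith
  have hlim : Tendsto (fun X : ℕ => (X : ℝ)⁻¹ * ∑ m ∈ Finset.range X, u m) atTop (𝓝 0) := by
    have h2 := (QT_avg r hr1 D.θ₂ hat).sub (QT_avg r hr1 D.θ₁ hat)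
    rw [sub_zero] at h2
    refine h2.congr fun X => ?_
    simp only [hu]
    rw [Finset.sum_sub_distrib, mul_sub]
  have hlow : Tendsto (fun X : ℕ => w + (u 0 - w) * (1 / (X : ℝ))) atTop (𝓝 (w + (u 0 - w) * 0)) :=
    tendsto_const_nhds.add (tendsto_const_nhds.mul tendsto_one_div_atTop_nhds_zero_nat)
  rw [mul_zero, add_zero] at hlow
  have hfin : w ≤ 0 := by
    refine le_of_tendsto_of_tendsto hlow hlim ?_
    filter_upwards [eventually_ge_atTop 1] with X hX
    have hX0 : (0 : ℝ) < X := by exact_mod_cast hX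
    obtain ⟨Y, rfl⟩ : ∃ Y : ℕ, X = Y + 1 := ⟨X - 1, by omega⟩
    rw [Finset.sum_range_succ']
    have h1 : (Y : ℝ) * w ≤ ∑ m ∈ Finset.range Y, u (m + 1) := by
      have h2 : ∑ _m ∈ Finset.range Y, w ≤ ∑ m ∈ Finset.range Y, u (m + 1) :=
        Finset.sum_le_sum fun m _ => hineq (m + 1) (by omega)
      rwa [Finset.sum_const, Finset.card_range, nsmul_eq_mul] at h2
    rw [inv_mul_eq_div, le_div_iff₀ hX0]
    have h2 : (w + (u 0 - w) * (1 / ((Y + 1 : ℕ) : ℝ))) * ((Y + 1 : ℕ) : ℝ) = Y * w + u 0 := by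
      field_simp
      push_cast
      ring
    rw [h2]
    linarith
  rw [hw] at hfin
  linarith

end Pool.Agent.U349.OT
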