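import Pool.Agent.U349.OT.Erg

/-!
# The regular trace in the convex hull of the exceptional traces
-/

set_option autoImplicit false

namespace Pool.Agent.U349.OT

open Filter Topology MeasureTheory
open Pool.Agent.U106.TR
open Pool.Agent.U106.FC (Exceptional)

lemma reVal_single {m : ℕ} (φ : G → ℂ) (h : Fin m → G) (z : Fin m → ℂ) :
    reVal φ (∑ k, Finsupp.single (h k) (z k)) = ∑ k, (z k * φ (h k)).re := by
  have e : ∀ c : G →₀ ℂ, (c.sum fun g z => z * φ g) = Finsupp.linearCombination ℂ φ c := by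
    intro c
    rw [Finsupp.linearCombination_apply]
    rfl
  unfold reVal
  rw [e, map_sum, Complex.re_sum]
  refine Finset.sum_congr rfl fun k _ => ?_
  rw [Finsupp.linearCombination_single, smul_eq_mul]

theorem hull_trace {m n : ℕ} (h : Fin m → G) {s : Fin n → ℤ} (hs : ∀ i, s i ≠ 0)
    {f : Fin n → UnitAddCircle → ℝ} (hf : ∀ i, OI.BV (f i)) {κ₀ : Measure UnitAddCircle}
    (hκ₀ : Exceptional 2 3 κ₀) :
    ∃ (ι : Type) (_ : Fintype ι) (t : ℝ) (w : ι → ℝ) (μ : ι → Measure UnitAddCircle), 0 < t ∧ (∀ j, 0 ≤ w j) ∧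
      t + ∑ j, w j = 1 ∧ (∀ j, Exceptional 2 3 (μ j)) ∧
      (∀ k, (t : ℂ) * traceOf κ₀ (h k) + ∑ j, (w j : ℂ) * traceOf (μ j) (h k) = reg (h k)) ∧
      ∀ i, t * ∫ x, f i x ∂(κ₀.map (zm (s i))) + ∑ j, w j * ∫ x, f i x ∂((μ j).map (zm (s i))) =
        ∫ x, f i x := by
  classical
  set F : Measure UnitAddCircle → (Fin m ⊕ (Fin m ⊕ Fin n)) → ℝ := fun κ => Sum.elim
    (fun k => (traceOf κ (h k)).re - (reg (h k)).re)
    (Sum.elim (fun k => (traceOf κ (h k)).im - (reg (h k)).im)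
      (fun i => ∫ x, f i x ∂(κ.map (zm (s i))) - ∫ x, f i x)) with hF
  set V : Set ((Fin m ⊕ (Fin m ⊕ Fin n)) → ℝ) := {v | ∃ κ : Measure UnitAddCircle, Exceptional 2 3 κ ∧ v = F κ}
    with hV
  obtain ⟨t, ht, key⟩ : ∃ t : ℝ, 0 < t ∧ -(t • F κ₀) ∈ convexHull ℝ V := by
    refine hull (show F κ₀ ∈ V from ⟨κ₀, hκ₀, rfl⟩) ?_
    intro c hc
    have hlin : ∀ v : (Fin m ⊕ (Fin m ⊕ Fin n)) → ℝ, c v = ∑ i, c (Pi.single i 1) * v i := by
      intro v
      conv_lhs => rw [← Finset.univ_sum_single v]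
      rw [map_sum]
      refine Finset.sum_congr rfl fun i _ => ?_
      have e : (Pi.single i (v i) : (Fin m ⊕ (Fin m ⊕ Fin n)) → ℝ) = v i • Pi.single i (1 : ℝ) := by
        rw [← Pi.single_smul, smul_eq_mul, mul_one]
      rw [e, map_smul, smul_eq_mul, mul_comm]
    set a : Fin m → ℝ := fun k => c (Pi.single (Sum.inl k) 1) with ha
    set b : Fin m → ℝ := fun k => c (Pi.single (Sum.inr (Sum.inl k)) 1) with hb
    set d : Fin n → ℝ := fun i => c (Pi.single (Sum.inr (Sum.inr i)) 1) with hd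
    set C : G →₀ ℂ := ∑ k, Finsupp.single (h k) (⟨a k, -b k⟩ : ℂ) with hC
    have hre : ∀ φ : G → ℂ, reVal φ C = ∑ k, (a k * (φ (h k)).re + b k * (φ (h k)).im) := by
      intro φ
      rw [hC, reVal_single]
      refine Finset.sum_congr rfl fun k _ => ?_
      rw [Complex.mul_re]
      simp only [neg_mul, sub_neg_eq_add]
    have hval : ∀ κ : Measure UnitAddCircle, c (F κ) = WB s (fun i x => d i * f i x) C κ := by
      intro κ
      rw [hlin, Fintype.sum_sum_type, Fintype.sum_sum_type]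
      unfold WB
      rw [hre, hre]
      simp only [hF, Sum.elim_inl, Sum.elim_inr, integral_const_mul]
      rw [← Finset.sum_sub_distrib, ← add_assoc, ← Finset.sum_add_distrib, add_comm]
      congr 1
      · refine Finset.sum_congr rfl fun i _ => ?_
        simp only [hd]
        ring
      · refine Finset.sum_congr rfl fun k _ => ?_
        simp only [ha, hb]
        ring
    have h1 := bvmix hs (fun i => bv_mul (hf i) (d i)) (c := C) (fun κ hκ => by
      rw [← hval κ]
      exact hc _ ⟨κ, hκ, rfl⟩)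
    rintro _ ⟨κ, hκ, rfl⟩
    rw [hval κ]
    exact h1 κ hκ
  rw [mem_convexHull_iff_exists_fintype] at key
  obtain ⟨ι, hι, w, z, hw0, hw1, hz, hsum⟩ := key
  choose μ hμ hzμ using hz
  have ht1 : 0 < 1 + t := by linarith
  have hcoord : ∀ i, t / (1 + t) * F κ₀ i + ∑ j, w j / (1 + t) * F (μ j) i = 0 := by
    intro i
    have h1 := congrFun hsum i
    simp only [Finset.sum_apply, Pi.smul_apply, smul_eq_mul, Pi.neg_apply, hzμ] at h1
    have h2 : ∑ j, w j / (1 + t) * F (μ j) i = (∑ j, w j * F (μ j) i) / (1 + t) := by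
      rw [Finset.sum_div]
      refine Finset.sum_congr rfl fun j _ => ?_
      ring
    rw [h2, h1]
    field_simp
    ring
  have htot : t / (1 + t) + ∑ j, w j / (1 + t) = 1 := by
    rw [← Finset.sum_div, hw1, ← add_div, add_comm t 1]
    exact div_self ht1.ne'
  have hgen : ∀ (A₀ : ℝ) (A : ι → ℝ) (B : ℝ), t / (1 + t) * (A₀ - B) + ∑ j, w j / (1 + t) * (A j - B) = 0 →
      t / (1 + t) * A₀ + ∑ j, w j / (1 + t) * A j = B := by
    intro A₀ A B h0
    simp only [mul_sub] at h0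
    rw [Finset.sum_sub_distrib, ← Finset.sum_mul] at h0
    have h3 : (t / (1 + t) + ∑ j, w j / (1 + t)) * B = B := by rw [htot, one_mul]
    rw [add_mul] at h3
    linarith
  refine ⟨ι, hι, t / (1 + t), fun j => w j / (1 + t), μ, div_pos ht ht1, fun j => div_nonneg (hw0 j) ht1.le, htot,
    hμ, fun k => ?_, fun i => ?_⟩
  · apply Complex.ext
    · rw [Complex.add_re, Complex.re_sum, Complex.re_ofReal_mul]
      simp only [Complex.re_ofReal_mul]
      exact hgen _ _ _ (hcoord (Sum.inl k))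
    · rw [Complex.add_im, Complex.im_sum, Complex.im_ofReal_mul]
      simp only [Complex.im_ofReal_mul]
      exact hgen _ _ _ (hcoord (Sum.inr (Sum.inl k)))
  · exact hgen _ _ _ (hcoord (Sum.inr (Sum.inr i)))

end Pool.Agent.U349.OT
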