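import Pool.Agent.U349.OT.Arc

/-!
# Elements of the group algebra and arcs
-/

set_option autoImplicit false

namespace Pool.Agent.U349.OT

open Filter Topology MeasureTheory
open scoped ENNReal
open Pool.Agent.U106.TR
open Pool.Agent.U106.FC (mul cont_mul co co_map co_vol Exceptional exceptional_map exists_exceptional_lift)

variable {n : ℕ}

/-- a combination of the discrepancies of arcs -/
noncomputable def VV (t : Fin n → ℝ) (a b : Fin n → UnitAddCircle) (μ : Measure UnitAddCircle) : ℝ :=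
  ∑ i, t i * DD (a i) (b i) μ

/-- with the value at an element of the group algebra -/
noncomputable def WW (t : Fin n → ℝ) (a b : Fin n → UnitAddCircle) (c : G →₀ ℂ) (μ : Measure UnitAddCircle) : ℝ :=
  VV t a b μ + (reVal (traceOf μ) c - reVal reg c)

lemma VV_vol (t : Fin n → ℝ) (a b : Fin n → UnitAddCircle) : VV t a b volume = 0 := by
  unfold VV
  exact Finset.sum_eq_zero fun i _ => by rw [JJ_vol, mul_zero]

lemma WW_vol (t : Fin n → ℝ) (a b : Fin n → UnitAddCircle) (c : G →₀ ℂ) : WW t a b c volume = 0 := by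
  unfold WW
  rw [VV_vol, traceOf_vol.2]
  ring

/-- the function -/
noncomputable def HH (t : Fin n → ℝ) (a b : Fin n → UnitAddCircle) (c : G →₀ ℂ) (x : UnitAddCircle) : ℝ :=
  (∑ i, t i * (saw (x - b i) - saw (x - a i))) + FF c x

lemma int_sum (t : Fin n → ℝ) (a b : Fin n → UnitAddCircle) (μ : Measure UnitAddCircle) [IsProbabilityMeasure μ] :
    Integrable (fun x => ∑ i, t i * (saw (x - b i) - saw (x - a i))) μ :=
  integrable_finsetSum _ fun i _ => ((int_saw μ (meas_sub (b i))).sub (int_saw μ (meas_sub (a i)))).const_mul _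

lemma int_HH (t : Fin n → ℝ) (a b : Fin n → UnitAddCircle) (c : G →₀ ℂ) (μ : Measure UnitAddCircle)
    [IsProbabilityMeasure μ] : Integrable (HH t a b c) μ :=
  (int_sum t a b μ).add (int_FF c μ)

lemma integral_HH (t : Fin n → ℝ) (a b : Fin n → UnitAddCircle) (c : G →₀ ℂ) (μ : Measure UnitAddCircle)
    [IsProbabilityMeasure μ] : ∫ x, HH t a b c x ∂μ = WW t a b c μ + reVal reg c := by
  have h1 : ∫ x, HH t a b c x ∂μ =
      (∫ x, ∑ i, t i * (saw (x - b i) - saw (x - a i)) ∂μ) + ∫ x, FF c x ∂μ :=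
    integral_add (int_sum t a b μ) (int_FF c μ)
  have h2 : ∫ x, ∑ i, t i * (saw (x - b i) - saw (x - a i)) ∂μ = VV t a b μ := by
    unfold VV
    have h3 : ∫ x, ∑ i, t i * (saw (x - b i) - saw (x - a i)) ∂μ =
        ∑ i, ∫ x, t i * (saw (x - b i) - saw (x - a i)) ∂μ :=
      integral_finsetSum (f := fun i x => t i * (saw (x - b i) - saw (x - a i))) _
        fun i _ => ((int_saw μ (meas_sub (b i))).sub (int_saw μ (meas_sub (a i)))).const_mul _
    rw [h3]
    refine Finset.sum_congr rfl fun i _ => ?_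
    rw [integral_const_mul, DD_eq]
  rw [h1, h2, integral_FF]
  unfold WW
  ring

lemma WW_all {t : Fin n → ℝ} {a b : Fin n → UnitAddCircle} {c : G →₀ ℂ}
    (h : ∀ κ : Measure UnitAddCircle, Exceptional 2 3 κ → 0 ≤ WW t a b c κ)
    {μ : Measure UnitAddCircle} [IsProbabilityMeasure μ] (hat : ∀ x, μ {x} = 0) (hi : Inv μ) :
    0 ≤ WW t a b c μ := by
  have := prob_vol
  by_contra hlt
  push Not at hlt
  have h1 : ∫ x, HH t a b c x ∂μ < ∫ x, HH t a b c x := by
    rw [integral_HH, integral_HH, WW_vol]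
    linarith
  obtain ⟨κ, hκ, h2⟩ := exists_comp (p := 2) (q := 3) le_rfl hat hi.1 hi.2 (int_HH t a b c μ) h1
  have hpκ := hκ.1
  rw [integral_HH, integral_HH, WW_vol] at h2
  have h3 := h κ hκ
  linarith

lemma VV_tw {N : ℕ} (hN : 2 ≤ N) (t : Fin n → ℝ) (a b : Fin n → UnitAddCircle) (μ : Measure UnitAddCircle)
    [IsProbabilityMeasure μ] : VV t a b (tw N μ) =
      ((N - 1 : ℕ) : ℝ)⁻¹ * (VV t (N • a) (N • b) (μ.map (mul N)) - VV t a b μ) := by
  unfold VV
  rw [← Finset.sum_sub_distrib, Finset.mul_sum]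
  refine Finset.sum_congr rfl fun i _ => ?_
  rw [DD_tw hN]
  simp only [Pi.smul_apply]
  ring

lemma WW_mul {t : Fin n → ℝ} {a b : Fin n → UnitAddCircle} {c : G →₀ ℂ}
    (h : ∀ κ : Measure UnitAddCircle, Exceptional 2 3 κ → 0 ≤ WW t a b c κ)
    {N : ℕ} (hN : 2 ≤ N) (hdeg : deg c < N) (h2 : Nat.Coprime 2 N) (h3 : Nat.Coprime 3 N) :
    ∀ κ : Measure UnitAddCircle, Exceptional 2 3 κ → 0 ≤ VV t (N • a) (N • b) κ := by
  intro μ hμ
  obtain ⟨ν, hν, rfl⟩ := exists_exceptional_lift (by omega : 1 ≤ N) hμ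
  have hprob := hν.1
  have hp2 := prob_tw (μ := ν) hN
  have h4 := WW_all h (μ := tw N ν) (atomless_tw hν.2.1) ⟨inv_tw hN h2 hν.2.2.1, inv_tw hN h3 hν.2.2.2.1⟩
  have h5 := h ν hν
  unfold WW at h4 h5
  rw [VV_tw hN, opposite' c hN hdeg] at h4
  have hpos : (0 : ℝ) < ((N - 1 : ℕ) : ℝ)⁻¹ := by
    apply inv_pos.2
    exact_mod_cast (by omega : 0 < N - 1)
  set x := VV t (N • a) (N • b) (ν.map (mul N))
  set y := VV t a b ν
  set z := reVal (traceOf ν) c - reVal reg c
  have h6 : 0 ≤ ((N - 1 : ℕ) : ℝ)⁻¹ * (x - (y + z)) := by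
    calc (0 : ℝ) ≤ _ := h4
      _ = _ := by ring
  have h7 : 0 ≤ x - (y + z) := by
    by_contra hc
    push Not at hc
    nlinarith
  linarith

lemma VV_neg {μ : Measure UnitAddCircle} (hat : ∀ x, μ {x} = 0) (t : Fin n → ℝ) (a b : Fin n → UnitAddCircle) :
    VV t a b (μ.map fun x => -x) = -VV t (-a) (-b) μ := by
  unfold VV
  rw [← Finset.sum_neg_distrib]
  refine Finset.sum_congr rfl fun i _ => ?_
  rw [DD_neg hat]
  simp only [Pi.neg_apply]
  ring

lemma map_neg_neg (μ : Measure UnitAddCircle) : (μ.map fun x => -x).map (fun x => -x) = μ := by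
  rw [Measure.map_map measurable_neg measurable_neg]
  have : ((fun x : UnitAddCircle => -x) ∘ fun x => -x) = id := by funext x; simp
  rw [this, Measure.map_id]

lemma cont_VV {μ : Measure UnitAddCircle} [IsProbabilityMeasure μ] (hat : ∀ x, μ {x} = 0) (t : Fin n → ℝ) :
    Continuous fun p : (Fin n → UnitAddCircle) × (Fin n → UnitAddCircle) => VV t p.1 p.2 μ := by
  unfold VV DD
  have hc := cont_JJ (μ := μ) hat
  refine continuous_finsetSum _ fun i _ => continuous_const.mul ?_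
  exact (hc.comp (by fun_prop : Continuous fun p : (Fin n → UnitAddCircle) × (Fin n → UnitAddCircle) => p.2 i)).sub
    (hc.comp (by fun_prop : Continuous fun p : (Fin n → UnitAddCircle) × (Fin n → UnitAddCircle) => p.1 i))

lemma VV_opp {t : Fin n → ℝ} {a b : Fin n → UnitAddCircle} {c : G →₀ ℂ}
    (h : ∀ κ : Measure UnitAddCircle, Exceptional 2 3 κ → 0 ≤ WW t a b c κ) :
    ∀ κ : Measure UnitAddCircle, Exceptional 2 3 κ → 0 ≤ VV t (-a) (-b) κ := by
  intro μ hμ
  have hprob := hμ.1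
  set C : Set ((Fin n → UnitAddCircle) × (Fin n → UnitAddCircle)) := {p | 0 ≤ VV t (p.1 - a) (p.2 - b) μ} with hC
  have hclosed : IsClosed C := by
    have hc := cont_VV (μ := μ) hμ.2.1 t
    have : Continuous fun p : (Fin n → UnitAddCircle) × (Fin n → UnitAddCircle) => VV t (p.1 - a) (p.2 - b) μ :=
      hc.comp (by fun_prop : Continuous fun p : (Fin n → UnitAddCircle) × (Fin n → UnitAddCircle) => (p.1 - a, p.2 - b))
    exact isClosed_le continuous_const this
  obtain ⟨a6, ha6⟩ : ∃ a6 : Fin n → UnitAddCircle, a6 = 6 • a := ⟨_, rfl⟩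
  obtain ⟨b6, hb6⟩ : ∃ b6 : Fin n → UnitAddCircle, b6 = 6 • b := ⟨_, rfl⟩
  have hcl := mapClusterPt_zero_atTop_nsmul ((a6, b6) : (Fin n → UnitAddCircle) × (Fin n → UnitAddCircle))
  have hmem : ∀ᶠ m : ℕ in atTop, m • ((a6, b6) : (Fin n → UnitAddCircle) × (Fin n → UnitAddCircle)) ∈ C := by
    filter_upwards [eventually_ge_atTop (deg c + 1)] with m hm
    obtain ⟨M, hM⟩ : ∃ M : ℕ, 6 * m = M + 1 := ⟨6 * m - 1, by omega⟩
    have e : ∀ c c6 : Fin n → UnitAddCircle, c6 = 6 • c → m • c6 - c = M • c := by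
      intro c c6 hc6
      rw [hc6, smul_smul, mul_comm, hM, add_smul, one_smul, add_sub_cancel_right]
    have h1 : 0 ≤ VV t (M • a) (M • b) μ := by
      refine WW_mul h (by omega) (by omega) ?_ ?_ μ hμ
      · rw [Nat.coprime_two_left, Nat.odd_iff]
        omega
      · refine (Nat.Prime.coprime_iff_not_dvd Nat.prime_three).2 ?_
        omega
    rw [← e a a6 ha6, ← e b b6 hb6] at h1
    exact h1
  have h0 := hclosed.mem_of_mapClusterPt hcl hmem
  rw [hC, Set.mem_ofPred_eq] at h0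
  simpa using h0

/-- **one-sided inequalities are equalities** -/
theorem mix {t : Fin n → ℝ} {a b : Fin n → UnitAddCircle} {c : G →₀ ℂ}
    (h : ∀ κ : Measure UnitAddCircle, Exceptional 2 3 κ → 0 ≤ WW t a b c κ) :
    ∀ κ : Measure UnitAddCircle, Exceptional 2 3 κ → VV t a b κ = 0 ∧ reVal (traceOf κ) c = reVal reg c := by
  have h1 : ∀ κ : Measure UnitAddCircle, Exceptional 2 3 κ → VV t a b κ ≤ 0 := by
    intro μ hμ
    have h2 := exceptional_neg hμ
    have h3 := VV_opp h _ h2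
    have h4 := VV_neg (μ := μ.map fun x => -x) h2.2.1 t a b
    rw [map_neg_neg] at h4
    rw [h4]
    linarith
  have h2 : ∀ κ : Measure UnitAddCircle, Exceptional 2 3 κ → reVal reg c ≤ reVal (traceOf κ) c := by
    intro κ hκ
    have h3 := h κ hκ
    have h4 := h1 κ hκ
    unfold WW at h3
    linarith
  have h3 := side c h2
  intro κ hκ
  refine ⟨?_, h3 κ hκ⟩
  have h4 := h κ hκ
  unfold WW at h4
  rw [h3 κ hκ] at h4
  have h5 := h1 κ hκ
  linarith

/-- the arc from `α` to `β` -/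
def seg (α β : ℝ) : Set UnitAddCircle := (fun t : ℝ => (t : UnitAddCircle)) '' Set.Ico α β

lemma mem_seg {α β : ℝ} (h0 : 0 ≤ α) (h1 : β ≤ 1) (x : UnitAddCircle) : x ∈ seg α β ↔ α ≤ rep x ∧ rep x < β := by
  constructor
  · rintro ⟨t, ⟨h2, h3⟩, rfl⟩
    rw [rep_coe, Int.fract_eq_self.2 ⟨by linarith, by linarith⟩]
    exact ⟨h2, h3⟩
  · intro h
    exact ⟨rep x, h, coe_rep x⟩

lemma meas_seg {α β : ℝ} (h0 : 0 ≤ α) (h1 : β ≤ 1) : MeasurableSet (seg α β) := by
  have : seg α β = rep ⁻¹' (Set.Ico α β) := by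
    ext x
    exact mem_seg h0 h1 x
  rw [this]
  exact measurable_rep measurableSet_Ico

lemma saw_sub {α : ℝ} (h0 : 0 ≤ α) (h1 : α ≤ 1) (x : UnitAddCircle) :
    saw (x - (α : UnitAddCircle)) = rep x - α + (if rep x < α then 1 else 0) - 1 / 2 := by
  unfold saw
  have h2 : x - (α : UnitAddCircle) = ((rep x - α : ℝ) : UnitAddCircle) := by
    rw [AddCircle.coe_sub, coe_rep]
  rw [h2, rep_coe]
  have h3 := rep_nonneg x
  have h4 := rep_lt x
  split_ifs with h
  · have : Int.fract (rep x - α) = rep x - α + 1 := by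
      rw [← Int.fract_add_one, Int.fract_eq_self]
      constructor <;> linarith
    rw [this]
  · push Not at h
    rw [Int.fract_eq_self.2 ⟨by linarith, by linarith⟩, add_zero]

lemma DD_seg {α β : ℝ} (h0 : 0 ≤ α) (h1 : α ≤ β) (h2 : β ≤ 1) (μ : Measure UnitAddCircle) [IsProbabilityMeasure μ] :
    DD (α : UnitAddCircle) (β : UnitAddCircle) μ = μ.real (seg α β) - (β - α) := by
  rw [DD_eq]
  have h3 : ∀ x, saw (x - (β : UnitAddCircle)) - saw (x - (α : UnitAddCircle)) =
      (seg α β).indicator (fun _ => (1 : ℝ)) x - (β - α) := by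
    intro x
    rw [saw_sub (h0.trans h1) h2, saw_sub h0 (h1.trans h2)]
    by_cases hx : x ∈ seg α β
    · rw [Set.indicator_of_mem hx]
      rw [mem_seg h0 h2] at hx
      rw [if_pos hx.2, if_neg (not_lt.2 hx.1)]
      ring
    · rw [Set.indicator_of_notMem hx]
      rw [mem_seg h0 h2] at hx
      by_cases h4 : rep x < α
      · rw [if_pos (h4.trans_le h1), if_pos h4]
        ring
      · have h5 : ¬ rep x < β := fun h5 => hx ⟨not_lt.1 h4, h5⟩
        rw [if_neg h5, if_neg h4]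
        ring
  simp_rw [h3]
  rw [integral_sub ((integrable_const _).indicator (meas_seg h0 h2)) (integrable_const _),
    integral_indicator (meas_seg h0 h2)]
  simp [measureReal_def]

end Pool.Agent.U349.OT
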