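import Pool.Agent.U349.OT.Fin

/-!
# Elements of the group algebra and spectral projections of several translations
-/

set_option autoImplicit false

namespace Pool.Agent.U349.OT

open Filter Topology MeasureTheory
open scoped ENNReal
open Pool.Agent.U106.TR
open Pool.Agent.U106.FC (mul cont_mul co co_map co_vol Exceptional exceptional_map exists_exceptional_lift)

/-- `x ↦ n x` for integers `n` -/
def zm (n : ℤ) (x : UnitAddCircle) : UnitAddCircle := n • x

lemma cont_zm (n : ℤ) : Continuous (zm n) := by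
  unfold zm
  fun_prop

lemma meas_zm (n : ℤ) : Measurable (zm n) := (cont_zm n).measurable

lemma prob_zm (n : ℤ) (μ : Measure UnitAddCircle) [IsProbabilityMeasure μ] : IsProbabilityMeasure (μ.map (zm n)) :=
  Measure.isProbabilityMeasure_map (meas_zm n).aemeasurable

lemma co_zm (n k : ℤ) (μ : Measure UnitAddCircle) : co (μ.map (zm n)) k = co μ (k * n) := by
  have e : ∫ x, (fourier k x : ℂ) ∂(μ.map (zm n)) = ∫ x, (fourier k (zm n x) : ℂ) ∂μ :=
    integral_map (f := fun x => (fourier k x : ℂ)) (meas_zm n).aemeasurable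
      (fourier k).continuous.aestronglyMeasurable
  unfold co
  rw [e]
  refine integral_congr_ae (Eventually.of_forall fun x => ?_)
  simp only [zm]
  rw [fourier_apply, fourier_apply, smul_smul]

lemma atomless_neg {μ : Measure UnitAddCircle} (h : ∀ x, μ {x} = 0) (x : UnitAddCircle) :
    (μ.map fun x => -x) {x} = 0 := by
  rw [Measure.map_apply measurable_neg (measurableSet_singleton x)]
  refine measure_mono_null (t := {-x}) ?_ (h _)
  intro y hy
  have h7 : -y = x := hy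
  rw [Set.mem_singleton_iff, ← h7, neg_neg]

lemma map_zm_nat (m : ℕ) (μ : Measure UnitAddCircle) : μ.map (zm (m : ℤ)) = μ.map (mul m) := by
  have e : zm (m : ℤ) = mul m := by
    funext x
    simp [zm, mul]
  rw [e]

lemma map_zm_neg (n : ℤ) (μ : Measure UnitAddCircle) : μ.map (zm (-n)) = (μ.map (zm n)).map fun x => -x := by
  rw [Measure.map_map measurable_neg (meas_zm n)]
  congr 1
  funext x
  simp [zm]

lemma map_zm_neg' (n : ℤ) (μ : Measure UnitAddCircle) : (μ.map fun x => -x).map (zm n) =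
    (μ.map (zm n)).map fun x => -x := by
  rw [Measure.map_map measurable_neg (meas_zm n), Measure.map_map (meas_zm n) measurable_neg]
  congr 1
  funext x
  simp [zm]

lemma map_zm_mul (n : ℤ) (m : ℕ) (μ : Measure UnitAddCircle) : (μ.map (mul m)).map (zm n) =
    (μ.map (zm n)).map (mul m) := by
  rw [Measure.map_map (cont_mul m).measurable (meas_zm n), Measure.map_map (meas_zm n) (cont_mul m).measurable]
  congr 1
  funext x
  simp only [zm, mul, Function.comp_apply]
  rw [smul_comm]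

lemma atomless_zm {n : ℤ} (hn : n ≠ 0) {μ : Measure UnitAddCircle} (h : ∀ x, μ {x} = 0) (x : UnitAddCircle) :
    μ.map (zm n) {x} = 0 := by
  rcases Int.natAbs_eq n with e | e
  · rw [e, map_zm_nat]
    exact Pool.Agent.U106.FC.atomless_map (Int.natAbs_pos.2 hn) h x
  · rw [e, map_zm_neg, map_zm_nat]
    exact atomless_neg (Pool.Agent.U106.FC.atomless_map (Int.natAbs_pos.2 hn) h) x

lemma vol_zm {n : ℤ} (hn : n ≠ 0) : (volume : Measure UnitAddCircle).map (zm n) = volume := by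
  have hp := prob_vol
  have := prob_zm n (volume : Measure UnitAddCircle)
  refine Pool.Agent.R202.ext_fourier fun k => ?_
  change co ((volume : Measure UnitAddCircle).map (zm n)) k = co volume k
  rw [co_zm]
  by_cases hk : k = 0
  · subst hk
    rw [zero_mul]
  · rw [co_vol hk, co_vol (mul_ne_zero hk hn)]

lemma tw_zm {N : ℕ} (hN : 2 ≤ N) {n : ℤ} (hcop : IsCoprime (N : ℤ) n) (μ : Measure UnitAddCircle)
    [IsProbabilityMeasure μ] : (tw N μ).map (zm n) = tw N (μ.map (zm n)) := by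
  have h1 := prob_tw (μ := μ) hN
  have h2 := prob_zm n μ
  have h3 := prob_zm n (tw N μ)
  have h4 := prob_tw (μ := μ.map (zm n)) hN
  refine Pool.Agent.R202.ext_fourier fun k => ?_
  change co ((tw N μ).map (zm n)) k = co (tw N (μ.map (zm n))) k
  rw [co_zm, co_tw hN, co_tw hN, co_zm]
  have h5 : (N : ℤ) ∣ k * n ↔ (N : ℤ) ∣ k := by
    constructor
    · intro h
      exact hcop.dvd_of_dvd_mul_right h
    · intro h
      exact h.mul_right _
  simp only [h5]

variable {n : ℕ}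

/-- a combination of the discrepancies of arcs -/
noncomputable def VZ (s : Fin n → ℤ) (t : Fin n → ℝ) (a b : Fin n → UnitAddCircle) (μ : Measure UnitAddCircle) : ℝ :=
  ∑ i, t i * DD (a i) (b i) (μ.map (zm (s i)))

/-- with the value at an element of the group algebra -/
noncomputable def WZ (s : Fin n → ℤ) (t : Fin n → ℝ) (a b : Fin n → UnitAddCircle) (c : G →₀ ℂ)
    (μ : Measure UnitAddCircle) : ℝ :=
  VZ s t a b μ + (reVal (traceOf μ) c - reVal reg c)

variable {s : Fin n → ℤ}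

lemma VZ_vol (hs : ∀ i, s i ≠ 0) (t : Fin n → ℝ) (a b : Fin n → UnitAddCircle) : VZ s t a b volume = 0 := by
  unfold VZ
  exact Finset.sum_eq_zero fun i _ => by rw [vol_zm (hs i), JJ_vol, mul_zero]

lemma WZ_vol (hs : ∀ i, s i ≠ 0) (t : Fin n → ℝ) (a b : Fin n → UnitAddCircle) (c : G →₀ ℂ) :
    WZ s t a b c volume = 0 := by
  unfold WZ
  rw [VZ_vol hs, traceOf_vol.2]
  ring

/-- the function -/
noncomputable def HZ (s : Fin n → ℤ) (t : Fin n → ℝ) (a b : Fin n → UnitAddCircle) (c : G →₀ ℂ)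
    (x : UnitAddCircle) : ℝ :=
  (∑ i, t i * (saw (zm (s i) x - b i) - saw (zm (s i) x - a i))) + FF c x

lemma int_term (i : Fin n) (t : Fin n → ℝ) (a b : Fin n → UnitAddCircle) (μ : Measure UnitAddCircle)
    [IsProbabilityMeasure μ] :
    Integrable (fun x => t i * (saw (zm (s i) x - b i) - saw (zm (s i) x - a i))) μ :=
  ((int_saw μ ((meas_sub (b i)).comp (meas_zm (s i)))).sub
    (int_saw μ ((meas_sub (a i)).comp (meas_zm (s i))))).const_mul _

lemma int_sumZ (t : Fin n → ℝ) (a b : Fin n → UnitAddCircle) (μ : Measure UnitAddCircle) [IsProbabilityMeasure μ] :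
    Integrable (fun x => ∑ i, t i * (saw (zm (s i) x - b i) - saw (zm (s i) x - a i))) μ :=
  integrable_finsetSum _ fun i _ => int_term i t a b μ

lemma int_HZ (t : Fin n → ℝ) (a b : Fin n → UnitAddCircle) (c : G →₀ ℂ) (μ : Measure UnitAddCircle)
    [IsProbabilityMeasure μ] : Integrable (HZ s t a b c) μ :=
  (int_sumZ t a b μ).add (int_FF c μ)

lemma DD_zm (m : ℤ) (a b : UnitAddCircle) (μ : Measure UnitAddCircle) [IsProbabilityMeasure μ] :
    DD a b (μ.map (zm m)) = ∫ x, (saw (zm m x - b) - saw (zm m x - a)) ∂μ := by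
  have := prob_zm m μ
  rw [DD_eq]
  exact integral_map (f := fun x => saw (x - b) - saw (x - a)) (meas_zm m).aemeasurable
    ((meas_saw.comp (meas_sub b)).sub (meas_saw.comp (meas_sub a))).aestronglyMeasurable

lemma integral_HZ (t : Fin n → ℝ) (a b : Fin n → UnitAddCircle) (c : G →₀ ℂ) (μ : Measure UnitAddCircle)
    [IsProbabilityMeasure μ] : ∫ x, HZ s t a b c x ∂μ = WZ s t a b c μ + reVal reg c := by
  have h1 : ∫ x, HZ s t a b c x ∂μ =
      (∫ x, ∑ i, t i * (saw (zm (s i) x - b i) - saw (zm (s i) x - a i)) ∂μ) + ∫ x, FF c x ∂μ :=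
    integral_add (int_sumZ t a b μ) (int_FF c μ)
  have h2 : ∫ x, ∑ i, t i * (saw (zm (s i) x - b i) - saw (zm (s i) x - a i)) ∂μ = VZ s t a b μ := by
    unfold VZ
    have h3 : ∫ x, ∑ i, t i * (saw (zm (s i) x - b i) - saw (zm (s i) x - a i)) ∂μ =
        ∑ i, ∫ x, t i * (saw (zm (s i) x - b i) - saw (zm (s i) x - a i)) ∂μ :=
      integral_finsetSum (f := fun i x => t i * (saw (zm (s i) x - b i) - saw (zm (s i) x - a i))) _
        fun i _ => int_term i t a b μ
    rw [h3]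
    refine Finset.sum_congr rfl fun i _ => ?_
    rw [integral_const_mul, DD_zm]
  rw [h1, h2, integral_FF]
  unfold WZ
  ring

lemma WZ_all (hs : ∀ i, s i ≠ 0) {t : Fin n → ℝ} {a b : Fin n → UnitAddCircle} {c : G →₀ ℂ}
    (h : ∀ κ : Measure UnitAddCircle, Exceptional 2 3 κ → 0 ≤ WZ s t a b c κ)
    {μ : Measure UnitAddCircle} [IsProbabilityMeasure μ] (hat : ∀ x, μ {x} = 0) (hi : Inv μ) :
    0 ≤ WZ s t a b c μ := by
  have := prob_vol
  by_contra hlt
  push Not at hlt
  have h1 : ∫ x, HZ s t a b c x ∂μ < ∫ x, HZ s t a b c x := by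
    rw [integral_HZ, integral_HZ, WZ_vol hs]
    linarith
  obtain ⟨κ, hκ, h2⟩ := exists_comp (p := 2) (q := 3) le_rfl hat hi.1 hi.2 (int_HZ t a b c μ) h1
  have hpκ := hκ.1
  rw [integral_HZ, integral_HZ, WZ_vol hs] at h2
  have h3 := h κ hκ
  linarith

lemma VZ_tw {N : ℕ} (hN : 2 ≤ N) (hcop : ∀ i, IsCoprime (N : ℤ) (s i)) (t : Fin n → ℝ)
    (a b : Fin n → UnitAddCircle) (μ : Measure UnitAddCircle)
    [IsProbabilityMeasure μ] : VZ s t a b (tw N μ) =
      ((N - 1 : ℕ) : ℝ)⁻¹ * (VZ s t (N • a) (N • b) (μ.map (mul N)) - VZ s t a b μ) := by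
  unfold VZ
  rw [← Finset.sum_sub_distrib, Finset.mul_sum]
  refine Finset.sum_congr rfl fun i _ => ?_
  have := prob_zm (s i) μ
  rw [tw_zm hN (hcop i), DD_tw hN, map_zm_mul]
  simp only [Pi.smul_apply]
  ring

lemma WZ_mul (hs : ∀ i, s i ≠ 0) {t : Fin n → ℝ} {a b : Fin n → UnitAddCircle} {c : G →₀ ℂ}
    (h : ∀ κ : Measure UnitAddCircle, Exceptional 2 3 κ → 0 ≤ WZ s t a b c κ)
    {N : ℕ} (hN : 2 ≤ N) (hdeg : deg c < N) (h2 : Nat.Coprime 2 N) (h3 : Nat.Coprime 3 N)
    (hcop : ∀ i, IsCoprime (N : ℤ) (s i)) :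
    ∀ κ : Measure UnitAddCircle, Exceptional 2 3 κ → 0 ≤ VZ s t (N • a) (N • b) κ := by
  intro μ hμ
  obtain ⟨ν, hν, rfl⟩ := exists_exceptional_lift (by omega : 1 ≤ N) hμ
  have hprob := hν.1
  have hp2 := prob_tw (μ := ν) hN
  have h4 := WZ_all hs h (μ := tw N ν) (atomless_tw hν.2.1) ⟨inv_tw hN h2 hν.2.2.1, inv_tw hN h3 hν.2.2.2.1⟩
  have h5 := h ν hν
  unfold WZ at h4 h5
  rw [VZ_tw hN hcop, opposite' c hN hdeg] at h4
  have hpos : (0 : ℝ) < ((N - 1 : ℕ) : ℝ)⁻¹ := by
    apply inv_pos.2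
    exact_mod_cast (by omega : 0 < N - 1)
  set x := VZ s t (N • a) (N • b) (ν.map (mul N))
  set y := VZ s t a b ν
  set z := reVal (traceOf ν) c - reVal reg c
  have h6 : 0 ≤ ((N - 1 : ℕ) : ℝ)⁻¹ * (x - (y + z)) := by
    calc (0 : ℝ) ≤ _ := h4
      _ = _ := by ring
  have h7 : 0 ≤ x - (y + z) := by
    by_contra hc
    push Not at hc
    nlinarith
  linarith

lemma VZ_neg (hs : ∀ i, s i ≠ 0) {μ : Measure UnitAddCircle} (hat : ∀ x, μ {x} = 0) (t : Fin n → ℝ)
    (a b : Fin n → UnitAddCircle) :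
    VZ s t a b (μ.map fun x => -x) = -VZ s t (-a) (-b) μ := by
  unfold VZ
  rw [← Finset.sum_neg_distrib]
  refine Finset.sum_congr rfl fun i _ => ?_
  rw [map_zm_neg', DD_neg (atomless_zm (hs i) hat)]
  simp only [Pi.neg_apply]
  ring

lemma cont_VZ (hs : ∀ i, s i ≠ 0) {μ : Measure UnitAddCircle} [IsProbabilityMeasure μ] (hat : ∀ x, μ {x} = 0)
    (t : Fin n → ℝ) :
    Continuous fun p : (Fin n → UnitAddCircle) × (Fin n → UnitAddCircle) => VZ s t p.1 p.2 μ := by
  unfold VZ DD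
  refine continuous_finsetSum _ fun i _ => continuous_const.mul ?_
  have := prob_zm (s i) μ
  have hc := cont_JJ (μ := μ.map (zm (s i))) (atomless_zm (hs i) hat)
  exact (hc.comp (by fun_prop : Continuous fun p : (Fin n → UnitAddCircle) × (Fin n → UnitAddCircle) => p.2 i)).sub
    (hc.comp (by fun_prop : Continuous fun p : (Fin n → UnitAddCircle) × (Fin n → UnitAddCircle) => p.1 i))

lemma VZ_opp (hs : ∀ i, s i ≠ 0) {t : Fin n → ℝ} {a b : Fin n → UnitAddCircle} {c : G →₀ ℂ}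
    (h : ∀ κ : Measure UnitAddCircle, Exceptional 2 3 κ → 0 ≤ WZ s t a b c κ) :
    ∀ κ : Measure UnitAddCircle, Exceptional 2 3 κ → 0 ≤ VZ s t (-a) (-b) κ := by
  intro μ hμ
  have hprob := hμ.1
  set C : Set ((Fin n → UnitAddCircle) × (Fin n → UnitAddCircle)) := {p | 0 ≤ VZ s t (p.1 - a) (p.2 - b) μ} with hC
  have hclosed : IsClosed C := by
    have hc := cont_VZ (μ := μ) hs hμ.2.1 t
    have : Continuous fun p : (Fin n → UnitAddCircle) × (Fin n → UnitAddCircle) => VZ s t (p.1 - a) (p.2 - b) μ :=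
      hc.comp (by fun_prop : Continuous fun p : (Fin n → UnitAddCircle) × (Fin n → UnitAddCircle) => (p.1 - a, p.2 - b))
    exact isClosed_le continuous_const this
  obtain ⟨Q, hQ⟩ : ∃ Q : ℕ, Q = ∏ i, (s i).natAbs := ⟨_, rfl⟩
  have hQ1 : 1 ≤ Q := by
    rw [hQ]
    exact Nat.succ_le_of_lt (Finset.prod_pos fun i _ => Int.natAbs_pos.2 (hs i))
  obtain ⟨q, hq⟩ : ∃ q : ℕ, q = 6 * Q := ⟨_, rfl⟩
  obtain ⟨a6, ha6⟩ : ∃ a6 : Fin n → UnitAddCircle, a6 = q • a := ⟨_, rfl⟩
  obtain ⟨b6, hb6⟩ : ∃ b6 : Fin n → UnitAddCircle, b6 = q • b := ⟨_, rfl⟩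
  have hcl := mapClusterPt_zero_atTop_nsmul ((a6, b6) : (Fin n → UnitAddCircle) × (Fin n → UnitAddCircle))
  have hmem : ∀ᶠ m : ℕ in atTop, m • ((a6, b6) : (Fin n → UnitAddCircle) × (Fin n → UnitAddCircle)) ∈ C := by
    filter_upwards [eventually_ge_atTop (deg c + 1)] with m hm
    have hqm : 6 * m ≤ q * m := Nat.mul_le_mul_right _ (by omega)
    obtain ⟨M, hM⟩ : ∃ M : ℕ, q * m = M + 1 := ⟨q * m - 1, by omega⟩
    have e : ∀ c c6 : Fin n → UnitAddCircle, c6 = q • c → m • c6 - c = M • c := by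
      intro c c6 hc6
      rw [hc6, smul_smul, mul_comm, hM, add_smul, one_smul, add_sub_cancel_right]
    have hcopd : ∀ d : ℕ, d ∣ q → Nat.Coprime d M := by
      intro d hd
      have h1 : d ∣ M + 1 := by
        rw [← hM]
        exact hd.mul_right m
      have h2 : Nat.gcd d M ∣ 1 := by
        have h3 : Nat.gcd d M ∣ M + 1 := (Nat.gcd_dvd_left _ _).trans h1
        exact (Nat.dvd_add_right (Nat.gcd_dvd_right d M)).1 h3
      exact Nat.dvd_one.1 h2
    have h1 : 0 ≤ VZ s t (M • a) (M • b) μ := by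
      refine WZ_mul hs h (by omega) (by omega) (hcopd 2 ?_) (hcopd 3 ?_) (fun i => ?_) μ hμ
      · rw [hq]
        exact Dvd.intro (3 * Q) (by ring)
      · rw [hq]
        exact Dvd.intro (2 * Q) (by ring)
      · have h5 : (s i).natAbs ∣ q := by
          rw [hq, hQ]
          exact (Finset.dvd_prod_of_mem (fun i => (s i).natAbs) (Finset.mem_univ i)).mul_left 6
        have h6 := hcopd _ h5
        rw [Int.isCoprime_iff_gcd_eq_one, Int.gcd, Int.natAbs_natCast]
        exact h6.symm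
    rw [← e a a6 ha6, ← e b b6 hb6] at h1
    exact h1
  have h0 := hclosed.mem_of_mapClusterPt hcl hmem
  rw [hC, Set.mem_ofPred_eq] at h0
  simpa using h0

/-- **one-sided inequalities are equalities** -/
theorem mixZ (hs : ∀ i, s i ≠ 0) {t : Fin n → ℝ} {a b : Fin n → UnitAddCircle} {c : G →₀ ℂ}
    (h : ∀ κ : Measure UnitAddCircle, Exceptional 2 3 κ → 0 ≤ WZ s t a b c κ) :
    ∀ κ : Measure UnitAddCircle, Exceptional 2 3 κ → VZ s t a b κ = 0 ∧ reVal (traceOf κ) c = reVal reg c := by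
  have h1 : ∀ κ : Measure UnitAddCircle, Exceptional 2 3 κ → VZ s t a b κ ≤ 0 := by
    intro μ hμ
    have h2 := exceptional_neg hμ
    have h3 := VZ_opp hs h _ h2
    have h4 := VZ_neg hs (μ := μ.map fun x => -x) h2.2.1 t a b
    rw [map_neg_neg] at h4
    rw [h4]
    linarith
  have h2 : ∀ κ : Measure UnitAddCircle, Exceptional 2 3 κ → reVal reg c ≤ reVal (traceOf κ) c := by
    intro κ hκ
    have h3 := h κ hκ
    have h4 := h1 κ hκ
    unfold WZ at h3
    linarith
  have h3 := side c h2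
  intro κ hκ
  refine ⟨?_, h3 κ hκ⟩
  have h4 := h κ hκ
  unfold WZ at h4
  rw [h3 κ hκ] at h4
  have h5 := h1 κ hκ
  linarith

end Pool.Agent.U349.OT
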