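import Pool.Agent.U349.OT.Vol

/-!
# Sparse sets of multipliers
-/

set_option autoImplicit false

namespace Pool.Agent.U349.OT

open Finset Filter Topology

/-- arbitrarily sparse sets containing all the multipliers needed -/
theorem sparse_set (g : ℕ → ℕ) (hg : Tendsto g atTop atTop) : ∃ A : Set ℕ, (∀ k ∈ A, 1 ≤ k) ∧
    (∀ X : ℕ, (A ∩ Set.Icc 1 X).ncard ≤ g X) ∧
    ∀ K P : ℕ, ∃ T : ℕ, ∀ j m : ℕ, 1 ≤ j → j ≤ K → ¬ 2 ∣ j → 1 ≤ m → m < P →
      j * (2 ^ (T * m) - 1) ∈ A := by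
  obtain ⟨q, hq⟩ := exists_surjective_nat (ℕ × ℕ)
  set K : ℕ → ℕ := fun r => (q r).1 with hK
  set P : ℕ → ℕ := fun r => (q r).2 with hP
  have hT : ∀ r : ℕ, ∃ T : ℕ, r + 1 ≤ T ∧ ∀ X, T ≤ X → ∑ r' ∈ range (r + 1), K r' * P r' ≤ g X := by
    intro r
    obtain ⟨T, hT⟩ := eventually_atTop.1 (hg.eventually_ge_atTop (∑ r' ∈ range (r + 1), K r' * P r'))
    exact ⟨max T (r + 1), le_max_right _ _, fun X hX => hT X (le_trans (le_max_left _ _) hX)⟩
  choose T hT1 hT2 using hT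
  set F : ℕ → Finset ℕ := fun r => (Icc 1 (K r) ×ˢ Ico 1 (P r)).image
    (fun km => km.1 * (2 ^ (T r * km.2) - 1)) with hF
  have hFcard : ∀ r, #(F r) ≤ K r * P r := by
    intro r
    refine card_image_le.trans ?_
    rw [card_product, Nat.card_Icc, Nat.card_Ico]
    exact Nat.mul_le_mul (by omega) (by omega)
  have hFge : ∀ r, ∀ N ∈ F r, T r ≤ N := by
    intro r N hN
    simp only [hF, mem_image, mem_product, mem_Icc, mem_Ico, Prod.exists] at hN
    obtain ⟨k, m, ⟨⟨hk1, _⟩, hm1, _⟩, rfl⟩ := hN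
    have h1 : T r < 2 ^ T r := Nat.lt_two_pow_self
    have h2 : 2 ^ T r ≤ 2 ^ (T r * m) := Nat.pow_le_pow_right (by omega) (Nat.le_mul_of_pos_right _ hm1)
    calc T r ≤ 1 * (2 ^ (T r * m) - 1) := by omega
      _ ≤ _ := Nat.mul_le_mul_right _ hk1
  refine ⟨{N | ∃ r, N ∈ F r}, ?_, ?_, ?_⟩
  · rintro N ⟨r, h3⟩
    have := hFge r N h3
    have := hT1 r
    omega
  · intro X
    classical
    set R : Finset ℕ := {r ∈ range X | T r ≤ X} with hR
    have hsub : {N | ∃ r, N ∈ F r} ∩ Set.Icc 1 X ⊆ (↑(R.biUnion F) : Set ℕ) := by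
      rintro N ⟨⟨r, h3⟩, _, hNX⟩
      rw [Finset.mem_coe, mem_biUnion]
      have := hFge r N h3
      have := hT1 r
      exact ⟨r, by rw [hR, mem_filter, mem_range]; exact ⟨by omega, by omega⟩, h3⟩
    refine (Set.ncard_le_ncard hsub (Finset.finite_toSet _)).trans ?_
    rw [Set.ncard_coe_finset]
    rcases R.eq_empty_or_nonempty with hR0 | hR0
    · rw [hR0]; simp
    · refine card_biUnion_le.trans ?_
      have hmem := (mem_filter.1 (hR ▸ R.max'_mem hR0 : R.max' hR0 ∈ {r ∈ range X | T r ≤ X}))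
      refine le_trans ?_ (hT2 (R.max' hR0) X hmem.2)
      refine (sum_le_sum fun r _ => hFcard r).trans ?_
      refine sum_le_sum_of_subset_of_nonneg ?_ (fun _ _ _ => Nat.zero_le _)
      intro r hr
      rw [mem_range]
      exact Nat.lt_succ_of_le (R.le_max' r hr)
  · intro K' P'
    obtain ⟨r, hr⟩ := hq (K', P')
    have e3 : K r = K' := by simp only [hK, hr]
    have e4 : P r = P' := by simp only [hP, hr]
    refine ⟨T r, fun j m hj1 hj2 _ hm1 hm2 => ⟨r, ?_⟩⟩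
    simp only [hF, mem_image, mem_product, mem_Icc, mem_Ico, Prod.exists]
    exact ⟨j, m, ⟨⟨hj1, by rw [e3]; exact hj2⟩, hm1, by rw [e4]; exact hm2⟩, rfl⟩

end Pool.Agent.U349.OT
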