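import Pool.Agent.U349.OT.Twist
import Pool.Agent.U349.OT.Sparse

/-!
# Traces and their spectral measures
-/

set_option autoImplicit false

namespace Pool.Agent.U349.OT

open Filter Topology MeasureTheory
open scoped ENNReal
open Pool.Agent.U106.TR
open Pool.Agent.U106.FC (mul cont_mul co co_map co_vol)

lemma zpow_elt {u : G} (hu : ∀ x : ℚ, (u : Equiv.Perm ℚ) x = x + 1) (n : ℤ) :
    sl (u ^ n) = 1 ∧ of (u ^ n) = n := by
  have h1 : sl u = 1 := (trans_iff u).1 ⟨1, hu⟩
  have h2 : of u = 1 := by rw [of, hu]; ring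
  have key : ∀ k : ℕ, sl (u ^ k) = 1 ∧ of (u ^ k) = k := by
    intro k
    induction k with
    | zero => simp [sl_one, of_one]
    | succ k ih =>
      rw [pow_succ, sl_mul, of_mul, h1, h2, ih.1, ih.2]
      constructor
      · norm_num
      · push_cast; ring
  obtain ⟨k, rfl | rfl⟩ := n.eq_nat_or_neg
  · rw [zpow_natCast]
    refine ⟨(key k).1, ?_⟩
    rw [(key k).2]; simp
  · rw [zpow_neg, zpow_natCast, sl_inv, of_inv, (key k).1, (key k).2]
    constructor
    · norm_num
    · push_cast; ring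

lemma exists_u : ∃ u : G, ∀ x : ℚ, (u : Equiv.Perm ℚ) x = x + 1 := by
  obtain ⟨u, h1, h2⟩ := exists_elt 1
  refine ⟨u, fun x => ?_⟩
  rw [gapply, h1, h2]; push_cast; ring

/-- `μ` is the spectral measure of the translation by `1` -/
def Spec (φ : G → ℂ) (μ : Measure UnitAddCircle) : Prop :=
  IsProbabilityMeasure μ ∧ ∀ u : G, (∀ x : ℚ, (u : Equiv.Perm ℚ) x = x + 1) → ∀ n : ℤ,
    φ (u ^ n) = ∫ x, (fourier n x : ℂ) ∂μ

lemma spec_unique {φ : G → ℂ} {μ ν : Measure UnitAddCircle} (h1 : Spec φ μ) (h2 : Spec φ ν) : μ = ν := by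
  have := h1.1
  have := h2.1
  obtain ⟨u, hu⟩ := exists_u
  refine Pool.Agent.R202.ext_fourier fun n => ?_
  rw [← h1.2 u hu n, ← h2.2 u hu n]

lemma spec_of {φ : G → ℂ} {μ : Measure UnitAddCircle} (hp : IsProbabilityMeasure μ) (hi : Inv μ)
    (ht : ∀ g, sl g = 1 → φ g = traceOf μ g) : Spec φ μ := by
  refine ⟨hp, fun u hu n => ?_⟩
  have h3 := zpow_elt hu n
  rw [ht _ h3.1, co_eq (n := n) hi h3.1 h3.2]
  rfl

lemma exists_spec {φ : G → ℂ} (hφ : φ ∈ Traces) : ∃ μ, Spec φ μ := by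
  obtain ⟨μ, hp, hi, ht, -⟩ := exists_meas' hφ
  exact ⟨μ, spec_of hp hi ht⟩

/-- the data of a trace -/
lemma spec_data {φ : G → ℂ} (hφ : φ ∈ Traces) {μ : Measure UnitAddCircle} (h : Spec φ μ) :
    Inv μ ∧ ((∀ x, μ {x} = 0) → φ = traceOf μ) := by
  obtain ⟨ν, hp, hi, ht, hv, -⟩ := exists_meas' hφ
  have e := spec_unique h (spec_of hp hi ht)
  subst e
  exact ⟨hi, hv⟩

lemma vol_atomless (x : UnitAddCircle) : (volume : Measure UnitAddCircle) {x} = 0 := by
  have h := AddCircle.volume_closedBall (T := (1 : ℝ)) (x := x) (ε := 0)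
  rw [Metric.closedBall_zero] at h
  rw [h]
  simp

lemma traceOf_vol : Inv (volume : Measure UnitAddCircle) ∧ traceOf volume = reg := by
  have hi : Inv (volume : Measure UnitAddCircle) := ⟨Pool.Agent.U106.FC.mp_vol (by norm_num), Pool.Agent.U106.FC.mp_vol (by norm_num)⟩
  refine ⟨hi, ?_⟩
  have hp : IsProbabilityMeasure (volume : Measure UnitAddCircle) := ⟨UnitAddCircle.measure_univ⟩
  funext g
  by_cases hg1 : g = 1
  · rw [hg1, traceOf_one hi, reg, Set.indicator_of_mem (by simp)]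
  · rw [reg, Set.indicator_of_notMem (by simpa using hg1)]
    by_cases hg : sl g = 1
    · obtain ⟨n, k, hr⟩ := of_six g
      rw [traceOf, if_pos hg, val_eq hi hr]
      apply co_vol
      rintro rfl
      apply hg1
      exact ext' (by rw [hg, sl_one]) (by rw [hr, of_one]; simp)
    · rw [traceOf, if_neg hg]

lemma spec_reg : Spec reg volume := by
  have h := traceOf_vol
  rw [← h.2]
  exact spec_of ⟨UnitAddCircle.measure_univ⟩ h.1 fun _ _ => rfl

lemma reg_iff {φ : G → ℂ} (hφ : φ ∈ Traces) {μ : Measure UnitAddCircle} (h : Spec φ μ) :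
    φ = reg ↔ μ = volume := by
  constructor
  · rintro rfl
    exact spec_unique h spec_reg
  · rintro rfl
    rw [(spec_data hφ h).2 vol_atomless, traceOf_vol.2]

/-- the criterion for a trace -/
theorem reg_of_bits {φ : G → ℂ} (hφ : φ ∈ Traces) {μ : Measure UnitAddCircle} (h : Spec φ μ)
    (hA : ∀ K P : ℕ, ∃ T : ℕ, ∀ j m : ℕ, 1 ≤ j → j ≤ K → ¬ 2 ∣ j → 1 ≤ m → m < P →
      μ.real (bit (j * (2 ^ (T * m) - 1))) = 1 / 2) : φ = reg := by
  rw [reg_iff hφ h]
  have := h.1
  have hp : IsProbabilityMeasure (volume : Measure UnitAddCircle) := ⟨UnitAddCircle.measure_univ⟩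
  refine Pool.Agent.R202.ext_fourier fun n => ?_
  by_cases hn : n = 0
  · subst hn
    simp
  · have h1 : cf μ n = 0 := zero_of_bits (spec_data hφ h).1.1 hA hn
    have h2 : co volume n = 0 := co_vol hn
    exact h1.trans h2.symm

/-- the measure at the roots of unity -/
noncomputable def unif (N : ℕ) : Measure UnitAddCircle := tw N (Measure.dirac 0)

lemma dirac_inv (m : ℕ) : MeasurePreserving (mul m) (Measure.dirac (0 : UnitAddCircle)) (Measure.dirac 0) := by
  refine ⟨(cont_mul m).measurable, ?_⟩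
  ext A hA
  rw [Measure.map_apply (cont_mul m).measurable hA, Measure.dirac_apply' _ ((cont_mul m).measurable hA),
    Measure.dirac_apply' _ hA]
  have h : ((0 : UnitAddCircle) ∈ (mul m) ⁻¹' A) ↔ ((0 : UnitAddCircle) ∈ A) := by
    rw [Set.mem_preimage]
    have e : mul m 0 = 0 := smul_zero m
    rw [e]
  by_cases h0 : (0 : UnitAddCircle) ∈ A
  · rw [Set.indicator_of_mem (h.2 h0), Set.indicator_of_mem h0]
  · rw [Set.indicator_of_notMem (fun h1 => h0 (h.1 h1)), Set.indicator_of_notMem h0]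

lemma unif_arc {t : ℕ} (ht : 1 ≤ t) : (unif (4 * t + 1)).real arc = 1 / 2 := by
  classical
  have hN : 2 ≤ 4 * t + 1 := by omega
  have h1 : ∫ x, (arc.indicator (fun _ => (1 : ℝ)) x) ∂(unif (4 * t + 1)) = (unif (4 * t + 1)).real arc := by
    rw [integral_indicator measurableSet_arc]
    simp [measureReal_def]
  rw [← h1]
  unfold unif
  have hm : ∀ a : UnitAddCircle, Measurable fun x : UnitAddCircle => arc.indicator (fun _ => (1 : ℝ)) (x + a) :=
    fun a => (measurable_const.indicator measurableSet_arc).comp (meas_add a)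
  rw [integral_tw _ (fun j _ => by
    refine Integrable.of_bound (hm _).aestronglyMeasurable 1 (Eventually.of_forall fun x => ?_)
    unfold Set.indicator
    split_ifs <;> norm_num)]
  have h2 : ∀ j ∈ Finset.Ico 1 (4 * t + 1), ∫ x, (arc.indicator (fun _ => (1 : ℝ)) (x + pt (4 * t + 1) j))
      ∂(Measure.dirac (0 : UnitAddCircle)) = if t + 1 ≤ j ∧ j ≤ 3 * t then 1 else 0 := by
    intro j hj
    rw [Finset.mem_Ico] at hj
    rw [integral_dirac, zero_add, Set.indicator_apply]
    have h3 : pt (4 * t + 1) j ∈ arc ↔ t + 1 ≤ j ∧ j ≤ 3 * t := by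
      unfold arc pt
      rw [Set.mem_ofPred_eq, rep_coe]
      have hN0 : (0 : ℝ) < ((4 * t + 1 : ℕ) : ℝ) := by positivity
      have h4 : Int.fract ((j : ℝ) / ((4 * t + 1 : ℕ) : ℝ)) = (j : ℝ) / ((4 * t + 1 : ℕ) : ℝ) := by
        rw [Int.fract_eq_self]
        refine ⟨by positivity, ?_⟩
        rw [div_lt_one hN0]
        exact_mod_cast hj.2
      rw [h4, le_div_iff₀ hN0, div_lt_iff₀ hN0]
      push_cast
      constructor
      · rintro ⟨a1, a2⟩
        have b1 : (4 * t + 1 : ℝ) ≤ 4 * j := by linarith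
        have b2 : (4 * j : ℝ) < 12 * t + 3 := by linarith
        have c1 : 4 * t + 1 ≤ 4 * j := by exact_mod_cast b1
        have c2 : 4 * j < 12 * t + 3 := by exact_mod_cast b2
        omega
      · rintro ⟨a1, a2⟩
        have c1 : 4 * t + 1 ≤ 4 * j := by omega
        have c2 : 4 * j < 12 * t + 3 := by omega
        have b1 : (4 * t + 1 : ℝ) ≤ 4 * j := by exact_mod_cast c1
        have b2 : (4 * j : ℝ) < 12 * t + 3 := by exact_mod_cast c2
        constructor <;> linarith
    simp only [h3]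
  rw [Finset.sum_congr rfl h2, Finset.sum_ite, Finset.sum_const_zero, add_zero, Finset.sum_const]
  have h5 : (Finset.filter (fun j => t + 1 ≤ j ∧ j ≤ 3 * t) (Finset.Ico 1 (4 * t + 1))) = Finset.Icc (t + 1) (3 * t) := by
    ext j
    simp only [Finset.mem_filter, Finset.mem_Ico, Finset.mem_Icc]
    omega
  rw [h5, Nat.card_Icc]
  have h6 : 3 * t + 1 - (t + 1) = 2 * t := by omega
  rw [h6]
  have h7 : (0:ℝ) < t := by exact_mod_cast ht
  simp only [Nat.add_sub_cancel, nsmul_eq_mul, smul_eq_mul, mul_one]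
  push_cast
  field_simp
  norm_num

/-- finitely many bits do not suffice -/
theorem finite_fails (A : Finset ℕ) (hA : ∀ k ∈ A, 1 ≤ k) : ∃ φ ∈ Traces, φ ≠ reg ∧
    ∀ μ, Spec φ μ → ∀ k ∈ A, μ.real (bit k) = 1 / 2 := by
  set Q := ∏ k ∈ A, k with hQ
  have hQ1 : 1 ≤ Q := Nat.succ_le_of_lt (Finset.prod_pos fun k hk => hA k hk)
  set N := 4 * (6 * Q) + 1 with hN
  have hN2 : 2 ≤ N := by omega
  have hp : IsProbabilityMeasure (unif N) := prob_tw hN2
  have hcop : ∀ m : ℕ, m ∣ 4 * (6 * Q) → Nat.Coprime m N := by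
    intro m hm
    rw [hN, Nat.coprime_iff_gcd_eq_one]
    have h1 : Nat.gcd m (4 * (6 * Q) + 1) ∣ 1 := by
      have h2 : Nat.gcd m (4 * (6 * Q) + 1) ∣ 4 * (6 * Q) := (Nat.gcd_dvd_left _ _).trans hm
      exact (Nat.dvd_add_right h2).1 (Nat.gcd_dvd_right _ _)
    exact Nat.dvd_one.1 h1
  have hinv : ∀ m : ℕ, m ∣ 4 * (6 * Q) → MeasurePreserving (mul m) (unif N) (unif N) :=
    fun m hm => inv_tw hN2 (hcop m hm) (dirac_inv m)
  have hi : Inv (unif N) := ⟨hinv 2 (Dvd.intro (2 * (6 * Q)) (by ring)), hinv 3 (Dvd.intro (8 * Q) (by ring))⟩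
  have hspec : Spec (traceOf (unif N)) (unif N) := spec_of hp hi fun _ _ => rfl
  refine ⟨traceOf (unif N), traceOf_mem hi, fun h => ?_, fun μ hμ k hk => ?_⟩
  · rw [reg_iff (traceOf_mem hi) hspec] at h
    have h1 : co (unif N) N = 1 := by
      unfold unif
      rw [co_tw hN2, if_pos dvd_rfl, one_mul, co, integral_dirac]
      simp
    rw [h, co_vol (by omega)] at h1
    exact zero_ne_one h1
  · rw [spec_unique hμ hspec]
    have hk' : k ∣ 4 * (6 * Q) := ((Finset.dvd_prod_of_mem (fun k => k) hk).mul_left 6).mul_left 4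
    have h1 := (hinv k hk').measure_preimage measurableSet_arc.nullMeasurableSet
    have h2 : (unif N).real (bit k) = (unif N).real arc := by
      rw [measureReal_def, measureReal_def]
      congr 1
    rw [h2, hN]
    exact unif_arc (by omega)

end Pool.Agent.U349.OT
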