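import Pool.Agent.U349.OT.Comp
import Pool.Agent.U349.OT.Tr

/-!
# No one-sided inequalities for the exceptional traces
-/

set_option autoImplicit false

namespace Pool.Agent.U349.OT

open Filter Topology MeasureTheory
open scoped ENNReal
open Pool.Agent.U106.TR
open Pool.Agent.U106.FC (mul cont_mul co co_map co_vol Exceptional exceptional_map exists_exceptional_lift)

/-- the numerator of the value at `0` -/
noncomputable def nn (g : G) : ℤ := (of_six g).choose

lemma nn_spec (g : G) : ∃ k : ℕ, of g = nn g / 6 ^ k := (of_six g).choose_spec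

lemma traceOf_eq (μ : Measure UnitAddCircle) (g : G) :
    traceOf μ g = if sl g = 1 then co μ (nn g) else 0 := by
  unfold traceOf val nn
  rw [dif_pos (of_six g)]

lemma nn_zero {g : G} (h1 : sl g = 1) (h2 : nn g = 0) : g = 1 := by
  obtain ⟨k, hk⟩ := nn_spec g
  rw [h2] at hk
  exact ext' (by rw [h1, sl_one]) (by rw [hk, of_one]; simp)

lemma nn_one : nn (1 : G) = 0 := by
  obtain ⟨k, hk⟩ := nn_spec 1
  rw [of_one] at hk
  have h6 : (6 : ℚ) ^ k ≠ 0 := by positivity
  have h1 : (nn (1 : G) : ℚ) = 0 := by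
    rw [eq_div_iff h6, zero_mul] at hk
    exact hk.symm
  exact_mod_cast h1

/-- the real part of the value of `φ` at the element `∑ c g * u_g` of the group algebra -/
noncomputable def reVal (φ : G → ℂ) (c : G →₀ ℂ) : ℝ := (c.sum fun g z => z * φ g).re

/-- the function on the circle -/
noncomputable def FF (c : G →₀ ℂ) (x : UnitAddCircle) : ℝ :=
  ∑ g ∈ c.support, if sl g = 1 then (c g * (fourier (nn g) x : ℂ)).re else 0

lemma int_FF (c : G →₀ ℂ) (μ : Measure UnitAddCircle) [IsProbabilityMeasure μ] : Integrable (FF c) μ := by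
  unfold FF
  refine integrable_finsetSum _ fun g _ => ?_
  split_ifs
  · exact ((int_fourier μ (nn g)).const_mul (c g)).re
  · exact integrable_const _

lemma integral_FF (c : G →₀ ℂ) (μ : Measure UnitAddCircle) [IsProbabilityMeasure μ] :
    ∫ x, FF c x ∂μ = reVal (traceOf μ) c := by
  unfold FF reVal Finsupp.sum
  rw [integral_finsetSum, Complex.re_sum]
  · refine Finset.sum_congr rfl fun g _ => ?_
    change _ = (c g * traceOf μ g).re
    rw [traceOf_eq]
    split_ifs with h
    · have e1 : ∫ x, (c g * (fourier (nn g) x : ℂ)).re ∂μ = (∫ x, c g * (fourier (nn g) x : ℂ) ∂μ).re := by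
        rw [← Complex.reCLM_apply, ← ContinuousLinearMap.integral_comp_comm _
          ((int_fourier μ (nn g)).const_mul (c g))]
        rfl
      rw [e1, integral_const_mul]
      rfl
    · simp
  · intro g _
    split_ifs
    · exact ((int_fourier μ (nn g)).const_mul (c g)).re
    · exact integrable_const _

lemma coprime_six (M : ℕ) : Nat.Coprime 2 (6 * M + 1) ∧ Nat.Coprime 3 (6 * M + 1) := by
  constructor
  · rw [Nat.coprime_two_left, Nat.odd_iff]
    omega
  · rw [Nat.coprime_comm]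
    refine Nat.Coprime.symm ((Nat.Prime.coprime_iff_not_dvd Nat.prime_three).2 ?_)
    omega

/-- a bound for the frequencies -/
noncomputable def deg (c : G →₀ ℂ) : ℕ := ∑ g ∈ c.support, (nn g).natAbs

/-- the opposite of an exceptional trace -/
lemma opposite' (c : G →₀ ℂ) {μ : Measure UnitAddCircle} [IsProbabilityMeasure μ] {N : ℕ} (hN2 : 2 ≤ N)
    (hdeg : deg c < N) :
    reVal (traceOf (tw N μ)) c - reVal reg c = -((N - 1 : ℕ) : ℝ)⁻¹ * (reVal (traceOf μ) c - reVal reg c) := by
  unfold reVal Finsupp.sum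
  rw [← Complex.sub_re, ← Complex.sub_re, ← Finset.sum_sub_distrib, ← Finset.sum_sub_distrib]
  have key : ∀ g ∈ c.support, c g * traceOf (tw N μ) g - c g * reg g =
      ((-((N - 1 : ℕ) : ℝ)⁻¹ : ℝ) : ℂ) * (c g * traceOf μ g - c g * reg g) := by
    intro g hg
    have hlt : (nn g).natAbs < N := by
      have : (nn g).natAbs ≤ ∑ g ∈ c.support, (nn g).natAbs :=
        Finset.single_le_sum (f := fun g => (nn g).natAbs) (fun _ _ => Nat.zero_le _) hg
      unfold deg at hdeg
      omega
    have hdvd : (N : ℤ) ∣ nn g ↔ nn g = 0 := by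
      constructor
      · intro h
        by_contra h0
        have h1 := Int.natAbs_dvd_natAbs.2 h
        rw [Int.natAbs_natCast] at h1
        have h2 := Nat.le_of_dvd (Int.natAbs_pos.2 h0) h1
        omega
      · intro h
        rw [h]
        exact dvd_zero _
    rw [traceOf_eq, traceOf_eq]
    by_cases hs : sl g = 1
    · rw [if_pos hs, if_pos hs, co_tw hN2]
      by_cases h1 : g = 1
      · subst h1
        rw [nn_one]
        have h2 : co μ 0 = 1 := by simp [co]
        have h3 : reg 1 = 1 := by rw [reg, Set.indicator_of_mem (by simp)]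
        rw [h2, h3, if_pos (dvd_zero _)]
        ring
      · have h2 : nn g ≠ 0 := fun h => h1 (nn_zero hs h)
        have h3 : reg g = 0 := by rw [reg, Set.indicator_of_notMem (by simpa using h1)]
        rw [h3, if_neg (fun h => h2 (hdvd.1 h))]
        push_cast
        ring
    · have h1 : g ≠ 1 := by
        rintro rfl
        exact hs sl_one
      have h3 : reg g = 0 := by rw [reg, Set.indicator_of_notMem (by simpa using h1)]
      rw [if_neg hs, if_neg hs, h3]
      ring
  rw [Finset.sum_congr rfl key, ← Finset.mul_sum, Complex.re_ofReal_mul]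

lemma opposite (c : G →₀ ℂ) {μ : Measure UnitAddCircle} [IsProbabilityMeasure μ] (hi : Inv μ) :
    ∃ N : ℕ, 2 ≤ N ∧ Inv (tw N μ) ∧
      reVal (traceOf (tw N μ)) c - reVal reg c = -((N - 1 : ℕ) : ℝ)⁻¹ * (reVal (traceOf μ) c - reVal reg c) := by
  have hN2 : 2 ≤ 6 * (deg c + 1) + 1 := by omega
  have hcop := coprime_six (deg c + 1)
  exact ⟨6 * (deg c + 1) + 1, hN2, ⟨inv_tw hN2 hcop.1 hi.1, inv_tw hN2 hcop.2 hi.2⟩,
    opposite' c hN2 (by omega)⟩

/-- **no one-sided inequality** -/
theorem side (c : G →₀ ℂ) (h : ∀ κ : Measure UnitAddCircle, Exceptional 2 3 κ →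
    reVal reg c ≤ reVal (traceOf κ) c) :
    ∀ κ : Measure UnitAddCircle, Exceptional 2 3 κ → reVal (traceOf κ) c = reVal reg c := by
  intro μ hμ
  refine le_antisymm ?_ (h μ hμ)
  by_contra hlt
  push Not at hlt
  have hprob := hμ.1
  obtain ⟨N, hN, hi, hval⟩ := opposite c (μ := μ) ⟨hμ.2.2.1, hμ.2.2.2.1⟩
  have hp2 := prob_tw (μ := μ) hN
  have hpv : IsProbabilityMeasure (volume : Measure UnitAddCircle) := ⟨UnitAddCircle.measure_univ⟩
  have hpos : (0 : ℝ) < ((N - 1 : ℕ) : ℝ)⁻¹ := by
    apply inv_pos.2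
    exact_mod_cast (by omega : 0 < N - 1)
  have h1 : reVal (traceOf (tw N μ)) c < reVal reg c := by nlinarith
  rw [← integral_FF, ← traceOf_vol.2, ← integral_FF] at h1
  obtain ⟨κ, hκ, h2⟩ := exists_comp (p := 2) (q := 3) le_rfl (atomless_tw hμ.2.1) hi.1 hi.2 (int_FF c _) h1
  have hpκ := hκ.1
  rw [integral_FF, integral_FF, traceOf_vol.2] at h2
  exact absurd (h κ hκ) (not_le.2 h2)

lemma zero_of_re {μ : Measure UnitAddCircle} [IsProbabilityMeasure μ]
    (h2 : MeasurePreserving (fun x : UnitAddCircle => 2 • x) μ μ)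
    (h : ∀ k : ℕ, 1 ≤ k → (co μ k).re = 0) {N : ℕ} (hN : 1 ≤ N) : co μ N = 0 := by
  have key : ∀ P : ℕ, 1 ≤ P → ‖cf μ N‖ ^ 2 ≤ 1 / P := by
    intro P hP
    have hP0 : (0:ℝ) < P := by exact_mod_cast hP
    have h3 := vdc μ (fun p => (2:ℤ) ^ p * N) P
    have h4 : ∑ p ∈ Finset.range P, cf μ ((2:ℤ) ^ p * N) = P * cf μ N := by
      rw [Finset.sum_congr rfl fun p _ => cf_pow h2 p N, Finset.sum_const, Finset.card_range, nsmul_eq_mul]
    rw [h4, norm_mul, Complex.norm_natCast, mul_pow] at h3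
    have hgt : ∀ p q : ℕ, q < p → (cf μ ((2:ℤ) ^ p * N - (2:ℤ) ^ q * N)).re = 0 := by
      intro p q hqp
      have h5 : 1 ≤ (2 ^ p - 2 ^ q) * N := by
        have : 2 ^ q < 2 ^ p := Nat.pow_lt_pow_right (by norm_num) hqp
        exact Nat.mul_pos (by omega) hN
      have h6 := h _ h5
      have h7 : (((2 ^ p - 2 ^ q) * N : ℕ) : ℤ) = (2:ℤ) ^ p * N - (2:ℤ) ^ q * N := by
        rw [Nat.cast_mul, Nat.cast_sub (Nat.pow_le_pow_right (by norm_num) hqp.le)]
        push_cast
        ring
      rw [h7] at h6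
      exact h6
    have h5 : ∀ p ∈ Finset.range P, ∑ q ∈ Finset.range P, (cf μ ((2:ℤ) ^ p * N - (2:ℤ) ^ q * N)).re = 1 := by
      intro p hp
      rw [Finset.sum_eq_single_of_mem p hp]
      · rw [sub_self]
        unfold cf
        simp
      · intro q _ hq
        rcases lt_or_gt_of_ne hq with h6 | h6
        · exact hgt p q h6
        · have h8 : (2:ℤ) ^ p * N - (2:ℤ) ^ q * N = -((2:ℤ) ^ q * N - (2:ℤ) ^ p * N) := by ring
          rw [h8, cf_neg, Complex.conj_re]
          exact hgt q p h6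
    rw [Finset.sum_congr rfl h5, Finset.sum_const, Finset.card_range, nsmul_eq_mul, mul_one] at h3
    rw [le_div_iff₀ hP0]
    nlinarith
  have h7 : ‖cf μ N‖ ^ 2 ≤ 0 := by
    refine ge_of_tendsto (tendsto_const_div_atTop_nhds_zero_nat 1) ?_
    filter_upwards [eventually_ge_atTop 1] with P hP using key P hP
  have h8 : ‖cf μ N‖ = 0 := by
    have := sq_nonneg ‖cf μ N‖
    nlinarith
  exact norm_eq_zero.1 h8

/-- one Fourier coefficient -/
theorem empty_of_re {n : ℤ} (hn : n ≠ 0) (h : ∀ κ : Measure UnitAddCircle, Exceptional 2 3 κ →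
    (co κ n).re = 0) : ∀ κ : Measure UnitAddCircle, ¬ Exceptional 2 3 κ := by
  intro μ hμ
  have h' : ∀ κ : Measure UnitAddCircle, Exceptional 2 3 κ → (co κ (n.natAbs : ℤ)).re = 0 := by
    intro κ hκ
    rcases Int.natAbs_eq n with e | e
    · rw [← e]
      exact h κ hκ
    · have h1 : ((n.natAbs : ℕ) : ℤ) = -n := by omega
      rw [h1]
      have h2 : co κ (-n) = (starRingEnd ℂ) (co κ n) := cf_neg κ n
      rw [h2, Complex.conj_re]
      exact h κ hκ
  have hn1 : 1 ≤ n.natAbs := Int.natAbs_pos.2 hn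
  obtain ⟨ν, hν, hνμ⟩ := exists_exceptional_lift hn1 hμ
  have hprob := hμ.1
  have hre : ∀ k : ℕ, 1 ≤ k → (co μ k).re = 0 := by
    intro k hk
    have h1 := h' _ (exceptional_map le_rfl hk hν)
    rw [co_map] at h1
    rw [← hνμ, co_map, mul_comm]
    exact h1
  have hpos : ∀ N : ℕ, 1 ≤ N → co μ N = 0 := fun N hN => zero_of_re hμ.2.2.1 hre hN
  have hpv : IsProbabilityMeasure (volume : Measure UnitAddCircle) := ⟨UnitAddCircle.measure_univ⟩
  apply hμ.2.2.2.2.2
  refine Pool.Agent.R202.ext_fourier fun m => ?_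
  by_cases hm : m = 0
  · subst hm
    simp
  · have h1 : co volume m = 0 := co_vol hm
    have h2 : co μ m = 0 := by
      rcases Int.natAbs_eq m with e | e
      · rw [e]
        exact hpos _ (Int.natAbs_pos.2 hm)
      · rw [e]
        have h2 : co μ (-(m.natAbs : ℤ)) = (starRingEnd ℂ) (co μ m.natAbs) := cf_neg μ _
        rw [h2, hpos _ (Int.natAbs_pos.2 hm), map_zero]
    exact h2.trans h1.symm

end Pool.Agent.U349.OT
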