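import Pool.Agent.U349.OT.Bits

/-!
# The uniform law from one bit of sparse multiples
-/

set_option autoImplicit false

namespace Pool.Agent.U349.OT

open Finset Filter Topology MeasureTheory
open scoped ComplexConjugate

variable {μ : Measure UnitAddCircle}

lemma cf_neg (μ : Measure UnitAddCircle) (n : ℤ) : cf μ (-n) = conj (cf μ n) := by
  unfold cf
  rw [← integral_conj]
  exact integral_congr_ae (Eventually.of_forall fun x => fourier_neg)

lemma fourier_mul_nsmul (n : ℤ) (m : ℕ) (x : UnitAddCircle) : (fourier n (m • x) : ℂ) = fourier (m * n) x := by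
  rw [fourier_apply, fourier_apply, mul_comm, mul_smul, natCast_zsmul]

lemma cf_two (h : MeasurePreserving (fun x : UnitAddCircle => 2 • x) μ μ) (n : ℤ) : cf μ (2 * n) = cf μ n := by
  have h1 : ∫ x, (fourier n (2 • x) : ℂ) ∂μ = ∫ x, (fourier n x : ℂ) ∂μ := by
    conv_rhs => rw [← h.map_eq]
    rw [integral_map h.measurable.aemeasurable (fourier n).continuous.aestronglyMeasurable]
  unfold cf
  rw [← h1]
  exact integral_congr_ae (Eventually.of_forall fun x => by
    have := fourier_mul_nsmul n 2 x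
    simpa using this.symm)

lemma cf_pow (h : MeasurePreserving (fun x : UnitAddCircle => 2 • x) μ μ) (v : ℕ) (n : ℤ) :
    cf μ (2 ^ v * n) = cf μ n := by
  induction v with
  | zero => simp
  | succ v ih => rw [pow_succ, mul_comm ((2:ℤ) ^ v) 2, mul_assoc, cf_two h, ih]

/-- the inequality of van der Corput type -/
theorem vdc (μ : Measure UnitAddCircle) [IsProbabilityMeasure μ] (w : ℕ → ℤ) (P : ℕ) :
    ‖∑ p ∈ range P, cf μ (w p)‖ ^ 2 ≤ ∑ p ∈ range P, ∑ q ∈ range P, (cf μ (w p - w q)).re := by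
  set S : UnitAddCircle → ℂ := fun x => ∑ p ∈ range P, (fourier (w p) x : ℂ) with hS
  have hSi : Integrable S μ := integrable_finsetSum _ fun p _ => int_fourier μ (w p)
  have hint : ∫ x, S x ∂μ = ∑ p ∈ range P, cf μ (w p) := by
    rw [hS, integral_finsetSum _ fun p _ => int_fourier μ (w p)]
    rfl
  have hsq : ∀ x, ‖S x‖ ^ 2 = ∑ p ∈ range P, ∑ q ∈ range P, (fourier (w p - w q) x : ℂ).re := by
    intro x
    have h1 : S x * conj (S x) = ∑ p ∈ range P, ∑ q ∈ range P, (fourier (w p - w q) x : ℂ) := by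
      simp only [hS]
      rw [map_sum, sum_mul_sum]
      refine sum_congr rfl fun p _ => sum_congr rfl fun q _ => ?_
      rw [sub_eq_add_neg, fourier_add, fourier_neg]
    have h2 := congrArg Complex.re h1
    rw [Complex.mul_conj, Complex.ofReal_re, Complex.normSq_eq_norm_sq] at h2
    rw [h2, Complex.re_sum]
    exact sum_congr rfl fun p _ => Complex.re_sum _ _
  have hre : ∀ n : ℤ, Integrable (fun x => (fourier n x : ℂ).re) μ := fun n => (int_fourier μ n).re
  have hsqi : Integrable (fun x => ‖S x‖ ^ 2) μ := by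
    simp only [hsq]
    exact integrable_finsetSum _ fun p _ => integrable_finsetSum _ fun q _ => hre _
  have hcfre : ∀ n : ℤ, ∫ x, (fourier n x : ℂ).re ∂μ = (cf μ n).re := by
    intro n
    unfold cf
    rw [← Complex.reCLM_apply, ← ContinuousLinearMap.integral_comp_comm _ (int_fourier μ n)]
    rfl
  have hval : ∫ x, ‖S x‖ ^ 2 ∂μ = ∑ p ∈ range P, ∑ q ∈ range P, (cf μ (w p - w q)).re := by
    simp only [hsq]
    rw [integral_finsetSum _ fun p _ => integrable_finsetSum _ fun q _ => hre _]
    refine sum_congr rfl fun p _ => ?_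
    rw [integral_finsetSum _ fun q _ => hre _]
    exact sum_congr rfl fun q _ => hcfre _
  rw [← hint, ← hval]
  set m := ∫ x, S x ∂μ with hm
  -- the variance
  have h3 : ∀ x, ‖S x - m‖ ^ 2 = ‖S x‖ ^ 2 - 2 * (conj m * S x).re + ‖m‖ ^ 2 := by
    intro x
    rw [← Complex.normSq_eq_norm_sq, ← Complex.normSq_eq_norm_sq, ← Complex.normSq_eq_norm_sq, Complex.normSq_sub]
    have : (S x * conj m).re = (conj m * S x).re := by rw [mul_comm]
    rw [this]
    ring
  have h4 : 0 ≤ ∫ x, ‖S x - m‖ ^ 2 ∂μ := integral_nonneg fun x => sq_nonneg _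
  have h5 : Integrable (fun x => (conj m * S x).re) μ := (hSi.const_mul _).re
  have h6 : ∫ x, (conj m * S x).re ∂μ = ‖m‖ ^ 2 := by
    have e1 : ∫ x, (conj m * S x).re ∂μ = (∫ x, conj m * S x ∂μ).re := by
      rw [← Complex.reCLM_apply, ← ContinuousLinearMap.integral_comp_comm _ (hSi.const_mul _)]
      rfl
    rw [e1, integral_const_mul, ← hm, mul_comm, Complex.mul_conj, Complex.ofReal_re, Complex.normSq_eq_norm_sq]
  simp only [h3] at h4
  have h7 : ∫ x, (‖S x‖ ^ 2 - 2 * (conj m * S x).re + ‖m‖ ^ 2) ∂μ =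
      (∫ x, (‖S x‖ ^ 2 - 2 * (conj m * S x).re) ∂μ) + ∫ _x, ‖m‖ ^ 2 ∂μ :=
    integral_add (f := fun x => ‖S x‖ ^ 2 - 2 * (conj m * S x).re) (g := fun _ => ‖m‖ ^ 2)
      (hsqi.sub (h5.const_mul 2)) (integrable_const _)
  have h8 : ∫ x, (‖S x‖ ^ 2 - 2 * (conj m * S x).re) ∂μ =
      (∫ x, ‖S x‖ ^ 2 ∂μ) - ∫ x, 2 * (conj m * S x).re ∂μ :=
    integral_sub (f := fun x => ‖S x‖ ^ 2) (g := fun x => 2 * (conj m * S x).re) hsqi (h5.const_mul 2)
  rw [h7, h8, integral_const_mul, h6] at h4
  simp only [integral_const, probReal_univ, smul_eq_mul, one_mul] at h4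
  linarith

/-- **the criterion**: the bits of sparse multiples -/
theorem zero_of_bits [IsProbabilityMeasure μ] (h2 : MeasurePreserving (fun x : UnitAddCircle => 2 • x) μ μ)
    (hA : ∀ K P : ℕ, ∃ T : ℕ, ∀ j m : ℕ, 1 ≤ j → j ≤ K → ¬ 2 ∣ j → 1 ≤ m → m < P →
      μ.real (bit (j * (2 ^ (T * m) - 1))) = 1 / 2) {n : ℤ} (hn : n ≠ 0) : cf μ n = 0 := by
  have hodd : ∀ N : ℕ, ¬ 2 ∣ N → cf μ N = 0 := by
    intro N hN
    have hN1 : 1 ≤ N := by
      rcases Nat.eq_zero_or_pos N with h | h
      · exfalso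
        apply hN
        rw [h]
        exact dvd_zero 2
      · exact h
    have key : ∀ P : ℕ, 1 ≤ P → ‖cf μ N‖ ^ 2 ≤ 2 / P := by
      intro P hP
      have hP0 : (0:ℝ) < P := by exact_mod_cast hP
      obtain ⟨K, hK⟩ := re_small (ε := 1 / P) (by positivity)
      obtain ⟨T, hT⟩ := hA (K * N) P
      have hsm : ∀ m : ℕ, 1 ≤ m → m < P → |(cf μ (N * ((2:ℤ) ^ (T * m) - 1))).re| ≤ 1 / P := by
        intro m hm1 hm2
        have h3 := hK μ (N * (2 ^ (T * m) - 1)) (fun k hk1 hk2 hk3 => by
          have h4 := hT (k * N) m (Nat.mul_pos hk1 hN1) (Nat.mul_le_mul_right _ hk2) (fun h5 => by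
            rcases (Nat.prime_two.dvd_mul).1 h5 with h6 | h6
            · exact hk3 h6
            · exact hN h6) hm1 hm2
          rwa [mul_assoc] at h4)
        have h5 : ((N * (2 ^ (T * m) - 1) : ℕ) : ℤ) = N * ((2:ℤ) ^ (T * m) - 1) := by
          rw [Nat.cast_mul, Nat.cast_sub Nat.one_le_two_pow]
          push_cast
          ring
        rwa [h5] at h3
      have h3 := vdc μ (fun p => (2:ℤ) ^ (T * p) * N) P
      have h4 : ∑ p ∈ range P, cf μ ((2:ℤ) ^ (T * p) * N) = P * cf μ N := by
        rw [sum_congr rfl fun p _ => cf_pow h2 (T * p) N, sum_const, card_range, nsmul_eq_mul]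
      rw [h4, norm_mul, Complex.norm_natCast, mul_pow] at h3
      have h0 : cf μ 0 = 1 := by
        unfold cf
        simp
      have hgt : ∀ p q : ℕ, q < p → p < P → |(cf μ ((2:ℤ) ^ (T * p) * N - (2:ℤ) ^ (T * q) * N)).re| ≤ 1 / P := by
        intro p q hqp hpP
        have e1 : (2:ℤ) ^ (T * p) * N - (2:ℤ) ^ (T * q) * N = 2 ^ (T * q) * (N * ((2:ℤ) ^ (T * (p - q)) - 1)) := by
          have e2 : T * p = T * q + T * (p - q) := by
            rw [← mul_add]
            congr 1
            omega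
          rw [e2, pow_add]
          ring
        rw [e1, cf_pow h2]
        exact hsm (p - q) (by omega) (by omega)
      have h5 : ∀ p ∈ range P, ∑ q ∈ range P, (cf μ ((2:ℤ) ^ (T * p) * N - (2:ℤ) ^ (T * q) * N)).re ≤ 2 := by
        intro p hp
        rw [mem_range] at hp
        have h6 : ∀ q ∈ range P, (cf μ ((2:ℤ) ^ (T * p) * N - (2:ℤ) ^ (T * q) * N)).re ≤
            (if q = p then 1 else 0) + 1 / P := by
          intro q hq
          rw [mem_range] at hq
          rcases lt_trichotomy q p with h | h | h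
          · rw [if_neg h.ne, zero_add]
            exact (le_abs_self _).trans (hgt p q h hp)
          · rw [if_pos h, h, sub_self, h0, Complex.one_re]
            have : (0:ℝ) < 1 / P := by positivity
            linarith
          · rw [if_neg h.ne', zero_add]
            have h7 := hgt q p h hq
            have h8 : (2:ℤ) ^ (T * p) * N - (2:ℤ) ^ (T * q) * N = -((2:ℤ) ^ (T * q) * N - (2:ℤ) ^ (T * p) * N) := by ring
            rw [h8, cf_neg, Complex.conj_re]
            exact (le_abs_self _).trans h7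
        refine (sum_le_sum h6).trans ?_
        rw [sum_add_distrib, sum_ite_eq' (range P) p (fun _ => (1:ℝ)), if_pos (mem_range.2 hp), sum_const, card_range,
          nsmul_eq_mul]
        have : (P:ℝ) * (1 / P) = 1 := by field_simp
        rw [this]
        norm_num
      have h6 := h3.trans (sum_le_sum h5)
      rw [sum_const, card_range, nsmul_eq_mul] at h6
      rw [le_div_iff₀ hP0]
      nlinarith
    have h7 : ‖cf μ N‖ ^ 2 ≤ 0 := by
      refine ge_of_tendsto (tendsto_const_div_atTop_nhds_zero_nat 2) ?_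
      filter_upwards [eventually_ge_atTop 1] with P hP using key P hP
    have h8 : ‖cf μ N‖ = 0 := by
      have := sq_nonneg ‖cf μ N‖
      nlinarith
    exact norm_eq_zero.1 h8
  have hpos : ∀ N : ℕ, N ≠ 0 → cf μ N = 0 := by
    intro N hN
    obtain ⟨v, M, hM, rfl⟩ := Nat.exists_eq_two_pow_mul_odd hN
    have h3 := cf_pow h2 v M
    push_cast
    rw [h3]
    exact hodd M (fun h4 => (Nat.not_even_iff_odd.2 hM) (even_iff_two_dvd.2 h4))
  rcases Int.natAbs_eq n with h | h
  · rw [h]
    exact hpos _ (Int.natAbs_ne_zero.2 hn)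
  · rw [h, cf_neg, hpos _ (Int.natAbs_ne_zero.2 hn), map_zero]

/-- the bits of Lebesgue measure -/
theorem bit_volume {k : ℕ} (hk : 1 ≤ k) : (volume : Measure UnitAddCircle).real (bit k) = 1 / 2 := by
  have h1 : MeasurePreserving (fun x : UnitAddCircle => k • x) volume volume := by
    rcases hk.eq_or_lt with h | h
    · rw [← h]
      have e : (fun x : UnitAddCircle => 1 • x) = id := by
        funext x
        simp
      rw [e]
      exact MeasurePreserving.id _
    · exact (AddCircle.ergodic_nsmul h).toMeasurePreserving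
  have h2 : (volume : Measure UnitAddCircle) (bit k) = volume arc :=
    h1.measure_preimage measurableSet_arc.nullMeasurableSet
  have h3 := (UnitAddCircle.measurePreserving_mk 0).measure_preimage measurableSet_arc.nullMeasurableSet
  rw [Measure.restrict_apply] at h3
  · have h4 : ((fun t : ℝ => (t : UnitAddCircle)) ⁻¹' arc) ∩ Set.Ioc (0:ℝ) (0 + 1) = Set.Ico (1 / 4) (3 / 4) := by
      ext t
      simp only [Set.mem_inter_iff, Set.mem_preimage, arc, Set.mem_ofPred_eq, rep_coe, Set.mem_Ioc, Set.mem_Ico]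
      constructor
      · rintro ⟨⟨a1, a2⟩, a3, a4⟩
        rcases a4.lt_or_eq with a5 | a5
        · rw [Int.fract_eq_self.2 ⟨a3.le, by linarith⟩] at a1 a2
          exact ⟨a1, a2⟩
        · exfalso
          rw [a5] at a1
          norm_num at a1
      · rintro ⟨a1, a2⟩
        rw [Int.fract_eq_self.2 ⟨by linarith, by linarith⟩]
        exact ⟨⟨a1, a2⟩, by linarith, by linarith⟩
    rw [h4, Real.volume_Ico] at h3
    rw [measureReal_def, h2, ← h3]
    norm_num
  · exact (measurable_rep.comp (AddCircle.measurable_mk' (a := (1:ℝ)))) measurableSet_Ico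

end Pool.Agent.U349.OT
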