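import Pool.Agent.U106.TR.Exc
import Pool.Agent.U349.OT.Vol

/-!
# Averages of the translates of a measure by the points `j / N`, `1 ≤ j < N`
-/

set_option autoImplicit false

namespace Pool.Agent.U349.OT

open Finset Filter Topology MeasureTheory
open scoped ENNReal
open Pool.Agent.U106.FC (mul cont_mul co co_map)

noncomputable def pt (N j : ℕ) : UnitAddCircle := (((j : ℝ) / N : ℝ) : UnitAddCircle)

/-- the mean of the translates of `μ` by `j / N`, `1 ≤ j < N` -/
noncomputable def tw (N : ℕ) (μ : Measure UnitAddCircle) : Measure UnitAddCircle :=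
  ((N - 1 : ℕ) : ℝ≥0∞)⁻¹ • ∑ j ∈ Ico 1 N, μ.map (fun x => x + pt N j)

variable {μ : Measure UnitAddCircle} {N : ℕ}

lemma meas_add (a : UnitAddCircle) : Measurable fun x : UnitAddCircle => x + a := measurable_add_const a

lemma prob_tw (hN : 2 ≤ N) [IsProbabilityMeasure μ] : IsProbabilityMeasure (tw N μ) := by
  constructor
  unfold tw
  rw [Measure.smul_apply, Measure.finsetSum_apply, smul_eq_mul]
  have h1 : ∀ j ∈ Ico 1 N, (μ.map (fun x => x + pt N j)) Set.univ = 1 := by
    intro j _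
    rw [Measure.map_apply (meas_add _) MeasurableSet.univ, Set.preimage_univ, measure_univ]
  rw [sum_congr rfl h1, sum_const, Nat.card_Ico, nsmul_eq_mul, mul_one]
  exact ENNReal.inv_mul_cancel (Nat.cast_ne_zero.2 (by omega)) (ENNReal.natCast_ne_top _)

lemma atomless_tw (h : ∀ x, μ {x} = 0) (x : UnitAddCircle) : tw N μ {x} = 0 := by
  unfold tw
  rw [Measure.smul_apply, Measure.finsetSum_apply, smul_eq_mul, sum_eq_zero, mul_zero]
  intro j _
  rw [Measure.map_apply (meas_add _) (measurableSet_singleton x)]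
  refine measure_mono_null (t := {x - pt N j}) ?_ (h _)
  intro y hy
  have h2 : y + pt N j = x := hy
  rw [Set.mem_singleton_iff, ← h2, add_sub_cancel_right]

lemma integral_tw {E : Type*} [NormedAddCommGroup E] [NormedSpace ℝ E] (F : UnitAddCircle → E)
    (hF : ∀ j ∈ Ico 1 N, Integrable (fun x => F (x + pt N j)) μ) :
    ∫ x, F x ∂(tw N μ) = ((N - 1 : ℕ) : ℝ)⁻¹ • ∑ j ∈ Ico 1 N, ∫ x, F (x + pt N j) ∂μ := by
  unfold tw
  rw [integral_smul_measure, integral_finsetSum_measure]
  · rw [ENNReal.toReal_inv, ENNReal.toReal_natCast]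
    congr 1
    refine sum_congr rfl fun j _ => ?_
    exact (measurableEmbedding_addRight (pt N j)).integral_map F
  · intro j hj
    exact (measurableEmbedding_addRight (pt N j)).integrable_map_iff.2 (hF j hj)

lemma sum_fourier_pt (hN : 1 ≤ N) (n : ℤ) :
    ∑ j ∈ range N, (fourier n (pt N j) : ℂ) = if (N : ℤ) ∣ n then (N : ℂ) else 0 := by
  have hN0 : (N : ℂ) ≠ 0 := Nat.cast_ne_zero.2 (by omega)
  set ζ : ℂ := Complex.exp (2 * Real.pi * Complex.I * (n / N)) with hζ
  have h1 : ∀ j : ℕ, (fourier n (pt N j) : ℂ) = ζ ^ j := by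
    intro j
    unfold pt
    rw [fourier_coe_apply, hζ, ← Complex.exp_nat_mul]
    congr 1
    push_cast
    field_simp
  simp_rw [h1]
  split_ifs with h
  · obtain ⟨m, rfl⟩ := h
    have : ζ = 1 := by
      rw [hζ, Complex.exp_eq_one_iff]
      refine ⟨m, ?_⟩
      push_cast
      field_simp
    rw [this]
    simp
  · have hz : ζ ≠ 1 := by
      intro h2
      rw [hζ, Complex.exp_eq_one_iff] at h2
      obtain ⟨m, hm⟩ := h2
      apply h
      refine ⟨m, ?_⟩
      have h3 : (2 * Real.pi * Complex.I : ℂ) ≠ 0 := Complex.two_pi_I_ne_zero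
      have h4 : ((n : ℂ) / N) = m := by
        have h5 : (2 * Real.pi * Complex.I : ℂ) * (n / N) = (2 * Real.pi * Complex.I) * m := by
          rw [hm]; ring
        exact mul_left_cancel₀ h3 h5
      rw [div_eq_iff hN0] at h4
      have h6 : (n : ℂ) = ((N * m : ℤ) : ℂ) := by
        rw [h4]; push_cast; ring
      exact_mod_cast h6
    have h2 := geom_sum_mul ζ N
    have h3 : ζ ^ N = 1 := by
      rw [hζ, ← Complex.exp_nat_mul, Complex.exp_eq_one_iff]
      refine ⟨n, ?_⟩
      field_simp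
    rw [h3, sub_self] at h2
    rcases mul_eq_zero.1 h2 with h4 | h4
    · exact h4
    · exact absurd (sub_eq_zero.1 h4) hz

lemma pt_zero (N : ℕ) : pt N 0 = 0 := by
  unfold pt
  simp

lemma fourier_add_pt (n : ℤ) (x y : UnitAddCircle) : (fourier n (x + y) : ℂ) = fourier n x * fourier n y := by
  rw [fourier_apply, fourier_apply, fourier_apply, smul_add, AddCircle.toCircle_add, Circle.coe_mul]

lemma co_tw (hN : 2 ≤ N) [IsProbabilityMeasure μ] (n : ℤ) :
    co (tw N μ) n = (if (N : ℤ) ∣ n then 1 else -((N - 1 : ℕ) : ℂ)⁻¹) * co μ n := by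
  have hint : ∀ a : UnitAddCircle, Integrable (fun x => (fourier n (x + a) : ℂ)) μ := by
    intro a
    simp_rw [fourier_add_pt]
    exact (int_fourier μ n).mul_const _
  unfold co
  rw [integral_tw (fun x => (fourier n x : ℂ)) (fun j _ => hint _)]
  have h1 : ∀ j ∈ Ico 1 N, ∫ x, (fourier n (x + pt N j) : ℂ) ∂μ = (fourier n (pt N j) : ℂ) * ∫ x, (fourier n x : ℂ) ∂μ := by
    intro j _
    simp_rw [fourier_add_pt]
    rw [integral_mul_const, mul_comm]
  rw [sum_congr rfl h1, ← sum_mul]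
  have h2 := sum_fourier_pt (by omega : 1 ≤ N) n
  rw [range_eq_Ico, sum_eq_sum_Ico_succ_bot (by omega), pt_zero] at h2
  have h3 : (fourier n (0 : UnitAddCircle) : ℂ) = 1 := by simp
  rw [h3, zero_add] at h2
  have h4 : ((N - 1 : ℕ) : ℂ) = N - 1 := by
    rw [Nat.cast_sub (by omega)]; simp
  have h5 : ((N - 1 : ℕ) : ℂ) ≠ 0 := Nat.cast_ne_zero.2 (by omega)
  have h6 : ∑ j ∈ Ico 1 N, (fourier n (pt N j) : ℂ) = (if (N : ℤ) ∣ n then (N : ℂ) else 0) - 1 := by
    rw [← h2]; ring
  rw [h6]
  split_ifs with h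
  · rw [← h4, Complex.real_smul]
    push_cast
    rw [← mul_assoc, inv_mul_cancel₀ h5]
  · rw [Complex.real_smul]
    push_cast
    ring

lemma inv_tw (hN : 2 ≤ N) [IsProbabilityMeasure μ] {m : ℕ} (hm : Nat.Coprime m N)
    (h : MeasurePreserving (mul m) μ μ) : MeasurePreserving (mul m) (tw N μ) (tw N μ) := by
  have hp := prob_tw (μ := μ) hN
  have hp2 : IsProbabilityMeasure ((tw N μ).map (mul m)) :=
    Measure.isProbabilityMeasure_map (cont_mul m).measurable.aemeasurable
  refine ⟨(cont_mul m).measurable, Pool.Agent.R202.ext_fourier fun n => ?_⟩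
  change co ((tw N μ).map (mul m)) n = co (tw N μ) n
  rw [co_map, co_tw hN, co_tw hN, Pool.Agent.U106.TR.co_mul h n]
  have h1 : (N : ℤ) ∣ n * m ↔ (N : ℤ) ∣ n := by
    constructor
    · intro h1
      refine IsCoprime.dvd_of_dvd_mul_right ?_ h1
      exact Nat.isCoprime_iff_coprime.2 hm.symm
    · intro h1
      exact h1.mul_right _
  simp only [h1]

end Pool.Agent.U349.OT
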